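import Mathlib

/-!
# Isolated extreme points

Let `B` be a compact convex set in a locally convex space and let a family of continuous linear
forms be given, such that every extreme point of `B` is exposed by a form of the family, and the
values of the forms at an extreme point are rational with bounded denominators. Then the extreme
points which are isolated in the set of extreme points are dense in it. This is a form of the
theorem of Choquet that the set of extreme points of a compact convex set is a Baire space.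
-/

open Set

universe u v

namespace Pool.Agent.Lib.MP_cc17a8_ag.Gen

section

variable {E : Type u} [AddCommGroup E] [Module ℝ E] [TopologicalSpace E] {B : Set E}

/-- The affine function defined by a linear form and a constant. -/
def aff (p : (E →L[ℝ] ℝ) × ℝ) (y : E) : ℝ := p.1 y - p.2

theorem continuous_aff (p : (E →L[ℝ] ℝ) × ℝ) : Continuous (aff p) := by
  unfold aff
  fun_prop

theorem aff_comb (p : (E →L[ℝ] ℝ) × ℝ) {a b : ℝ} (hab : a + b = 1) (x y : E) :
    aff p (a • x + b • y) = a * aff p x + b * aff p y := by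
  unfold aff
  rw [map_add, map_smul, map_smul, smul_eq_mul, smul_eq_mul]
  linear_combination p.2 * hab

/-- Comparison of nested slices. -/
theorem exists_rescale (hB : IsCompact B) (hconv : Convex ℝ B) (p q : (E →L[ℝ] ℝ) × ℝ)
    (hq : ∃ y ∈ B, 0 < aff q y) (hnest : ∀ y ∈ B, 0 ≤ aff q y → 0 < aff p y) :
    ∃ c : ℝ, 0 < c ∧ ∀ y ∈ B, c * aff q y ≤ aff p y := by
  obtain ⟨y0, hy0, hy0q⟩ := hq
  -- the closed slice
  let P : Set E := B ∩ {y | 0 ≤ aff q y}
  have hP : IsCompact P := hB.inter_right (isClosed_le continuous_const (continuous_aff q))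
  have hPne : P.Nonempty := ⟨y0, hy0, hy0q.le⟩
  obtain ⟨y1, hy1, hmin⟩ := hP.exists_isMinOn hPne (continuous_aff p).continuousOn
  obtain ⟨y2, hy2, hmax⟩ := hP.exists_isMaxOn hPne (continuous_aff q).continuousOn
  set ε := aff p y1 with hε
  set M := aff q y2 with hM
  have hε0 : 0 < ε := hnest y1 hy1.1 hy1.2
  have hM0 : 0 < M := hy0q.trans_le (hmax (show y0 ∈ P from ⟨hy0, hy0q.le⟩))
  let R : Set ℝ := (fun y => aff p y / aff q y) '' {y | y ∈ B ∧ 0 < aff q y}
  have hRne : R.Nonempty := ⟨_, y0, ⟨hy0, hy0q⟩, rfl⟩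
  have hRbd : ∀ r ∈ R, ε / M ≤ r := by
    rintro _ ⟨y, ⟨hy, hyq⟩, rfl⟩
    have h1 : ε ≤ aff p y := hmin (show y ∈ P from ⟨hy, hyq.le⟩)
    have h2 : aff q y ≤ M := hmax (show y ∈ P from ⟨hy, hyq.le⟩)
    exact div_le_div₀ (hε0.le.trans h1) h1 hyq h2
  have hbdd : BddBelow R := ⟨ε / M, fun r hr => hRbd r hr⟩
  refine ⟨sInf R, (div_pos hε0 hM0).trans_le (le_csInf hRne hRbd), ?_⟩
  intro y hy
  rcases lt_trichotomy (aff q y) 0 with hyq | hyq | hyq
  · by_contra hcon
    push Not at hcon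
    have h1 : sInf R < aff p y / aff q y := by
      rw [lt_div_iff_of_neg hyq]
      exact hcon
    obtain ⟨_, ⟨x0, ⟨hx0, hx0q⟩, rfl⟩, h2⟩ := exists_lt_of_csInf_lt hRne h1
    set m := aff q x0 with hm
    set u := aff q y with hu
    have hmu : 0 < m - u := by linarith
    have hab : m / (m - u) + (-u) / (m - u) = 1 := by
      field_simp
      ring
    have ha : 0 ≤ m / (m - u) := div_nonneg hx0q.le hmu.le
    have hb : 0 ≤ (-u) / (m - u) := div_nonneg (by linarith) hmu.le
    have hy' := hconv hy hx0 ha hb hab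
    have h3 : aff q ((m / (m - u)) • y + ((-u) / (m - u)) • x0) = 0 := by
      rw [aff_comb q hab, ← hm, ← hu]
      field_simp
      ring
    have h4 := hnest _ hy' h3.ge
    rw [aff_comb p hab] at h4
    have h5 : 0 < (m * aff p y + (-u) * aff p x0) / (m - u) := by
      have : (m * aff p y + (-u) * aff p x0) / (m - u) =
          m / (m - u) * aff p y + (-u) / (m - u) * aff p x0 := by
        field_simp
      rw [this]
      exact h4
    have h6 : 0 < m * aff p y + (-u) * aff p x0 := (div_pos_iff_of_pos_right hmu).mp h5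
    rw [lt_div_iff_of_neg hyq, div_mul_eq_mul_div, lt_div_iff₀ hx0q] at h2
    linarith
  · rw [hyq, mul_zero]
    exact (hnest y hy hyq.ge).le
  · have h1 : sInf R ≤ aff p y / aff q y := csInf_le hbdd ⟨y, ⟨hy, hyq⟩, rfl⟩
    exact (le_div_iff₀ hyq).mp h1

variable [T2Space E] [IsTopologicalAddGroup E] [ContinuousSMul ℝ E] [LocallyConvexSpace ℝ E]

/-- A decreasing sequence of slices contains an extreme point. -/
theorem exists_extreme_of_nested (hB : IsCompact B) (hconv : Convex ℝ B)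
    (p : ℕ → (E →L[ℝ] ℝ) × ℝ) (hne : ∀ n, ∃ y ∈ B, 0 < aff (p n) y)
    (hnest : ∀ n, ∀ y ∈ B, 0 ≤ aff (p (n + 1)) y → 0 < aff (p n) y) :
    ∃ z ∈ B.extremePoints ℝ, ∀ n, 0 ≤ aff (p n) z := by
  choose c hc hcp using fun n => exists_rescale hB hconv (p n) (p (n + 1)) (hne (n + 1)) (hnest n)
  let C : ℕ → ℝ := fun n => ∏ i ∈ Finset.range n, c i
  have hC : ∀ n, 0 < C n := fun n => Finset.prod_pos fun i _ => hc i
  let v : ℕ → E → ℝ := fun n y => C n * aff (p n) y
  have hvc : ∀ n, Continuous (v n) := fun n => continuous_const.mul (continuous_aff _)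
  have hvs : ∀ n, ∀ y ∈ B, v (n + 1) y ≤ v n y := by
    intro n y hy
    change C (n + 1) * aff (p (n + 1)) y ≤ C n * aff (p n) y
    have h1 : C (n + 1) = C n * c n := Finset.prod_range_succ _ _
    rw [h1, mul_assoc]
    exact mul_le_mul_of_nonneg_left (hcp n y hy) (hC n).le
  have hanti : ∀ y ∈ B, Antitone fun n => v n y := fun y hy =>
    antitone_nat_of_succ_le fun n => hvs n y hy
  have hcomb : ∀ n {a b : ℝ}, a + b = 1 → ∀ x y, v n (a • x + b • y) = a * v n x + b * v n y := by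
    intro n a b hab x y
    change C n * aff (p n) _ = a * (C n * aff (p n) x) + b * (C n * aff (p n) y)
    rw [aff_comb (p n) hab]
    ring
  let A : ℝ → Set E := fun s => {y | y ∈ B ∧ ∀ n, s ≤ v n y}
  have hAcl : ∀ s, IsClosed (A s) := by
    intro s
    have h1 : A s = B ∩ ⋂ n, {y | s ≤ v n y} := by
      ext y
      simp [A]
    rw [h1]
    exact hB.isClosed.inter (isClosed_iInter fun n => isClosed_le continuous_const (hvc n))
  have hAB : ∀ s, A s ⊆ B := fun s y hy => hy.1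
  have hAc : ∀ s, IsCompact (A s) := fun s => hB.of_isClosed_subset (hAcl s) (hAB s)
  -- `A 0` is not empty
  have hA0 : (A 0).Nonempty := by
    let t : ℕ → Set E := fun n => B ∩ {y | 0 ≤ aff (p n) y}
    have h1 : (⋂ n, t n).Nonempty := by
      apply IsCompact.nonempty_iInter_of_sequence_nonempty_isCompact_isClosed
      · rintro n y ⟨hy, hyn⟩
        exact ⟨hy, (hnest n y hy hyn).le⟩
      · intro n
        obtain ⟨y, hy, hyn⟩ := hne n
        exact ⟨y, hy, hyn.le⟩
      · exact hB.inter_right (isClosed_le continuous_const (continuous_aff _))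
      · intro n
        exact hB.isClosed.inter (isClosed_le continuous_const (continuous_aff _))
    obtain ⟨y, hy⟩ := h1
    rw [mem_iInter] at hy
    exact ⟨y, (hy 0).1, fun n => mul_nonneg (hC n).le (hy n).2⟩
  obtain ⟨y00, hy00, -⟩ := id hA0
  obtain ⟨ym, hym, hmax⟩ := hB.exists_isMaxOn ⟨y00, hy00⟩ (hvc 0).continuousOn
  let S : Set ℝ := {s | (A s).Nonempty}
  have hSne : S.Nonempty := ⟨0, hA0⟩
  have hSbd : BddAbove S := by
    refine ⟨v 0 ym, ?_⟩
    rintro s ⟨y, hy, hyn⟩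
    exact (hyn 0).trans (hmax hy)
  set s := sSup S with hs
  have hs0 : 0 ≤ s := le_csSup hSbd hA0
  have hAs : (A s).Nonempty := by
    let t : ℕ → Set E := fun k => A (s - 1 / ((k : ℝ) + 1))
    have h1 : (⋂ k, t k).Nonempty := by
      apply IsCompact.nonempty_iInter_of_sequence_nonempty_isCompact_isClosed
      · rintro k y ⟨hy, hyn⟩
        refine ⟨hy, fun n => le_trans ?_ (hyn n)⟩
        have h2 : 1 / (((k + 1 : ℕ) : ℝ) + 1) ≤ 1 / ((k : ℝ) + 1) := by
          apply one_div_le_one_div_of_le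
          · positivity
          · push_cast; linarith
        linarith
      · intro k
        have h2 : s - 1 / ((k : ℝ) + 1) < s := by
          have : (0 : ℝ) < 1 / ((k : ℝ) + 1) := by positivity
          linarith
        obtain ⟨s', ⟨y, hy, hyn⟩, hs'⟩ := exists_lt_of_lt_csSup hSne h2
        exact ⟨y, hy, fun n => hs'.le.trans (hyn n)⟩
      · exact hAc _
      · intro k
        exact hAcl _
    obtain ⟨y, hy⟩ := h1
    rw [mem_iInter] at hy
    refine ⟨y, (hy 0).1, fun n => ?_⟩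
    by_contra hcon
    push Not at hcon
    obtain ⟨k, hk⟩ := exists_nat_one_div_lt (sub_pos.mpr hcon)
    have h2 := (hy k).2 n
    linarith
  -- it is an extreme subset
  have hext : IsExtreme ℝ B (A s) := by
    refine ⟨hAB s, ?_⟩
    intro x1 hx1 x2 hx2 x hx hseg
    refine ⟨hx1, ?_⟩
    by_contra hcon
    push Not at hcon
    obtain ⟨n0, hn0⟩ := hcon
    obtain ⟨a, b, ha, hb, hab, rfl⟩ := hseg
    set η := a * (s - v n0 x1) / b with hη
    have hη0 : 0 < η := div_pos (mul_pos ha (sub_pos.mpr hn0)) hb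
    have h1 : ∀ n, n0 ≤ n → s + η ≤ v n x2 := by
      intro n hn
      have h2 := hx.2 n
      rw [hcomb n hab] at h2
      have h3 : v n x1 ≤ v n0 x1 := hanti x1 hx1 hn
      have h4 : s ≤ a * v n0 x1 + b * v n x2 := by
        have := mul_le_mul_of_nonneg_left h3 ha.le
        linarith
      have h5 : b * η = a * (s - v n0 x1) := by
        rw [hη]; field_simp
      have h6 : b * (s + η) ≤ b * v n x2 := by
        rw [mul_add, h5]
        have h7 : s = a * s + b * s := by rw [← add_mul, hab, one_mul]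
        linarith
      exact le_of_mul_le_mul_left h6 hb
    have h2 : s + η ∈ S := by
      refine ⟨x2, hx2, fun n => ?_⟩
      rcases le_total n0 n with hn | hn
      · exact h1 n hn
      · exact (h1 n0 le_rfl).trans (hanti x2 hx2 hn)
    have h3 := le_csSup hSbd h2
    linarith
  obtain ⟨z, hz⟩ := (hAc s).extremePoints_nonempty hAs
  refine ⟨z, hext.extremePoints_subset_extremePoints hz, fun n => ?_⟩
  have h1 : 0 ≤ C n * aff (p n) z := hs0.trans (hz.1.2 n)
  exact (mul_nonneg_iff_of_pos_left (hC n)).mp h1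

/-- The isolated extreme points are dense in the set of extreme points. -/
theorem exists_isolated (hB : IsCompact B) (hconv : Convex ℝ B) {Dv : Type v}
    (lat : Dv → (E →L[ℝ] ℝ))
    (hR : ∀ z ∈ B.extremePoints ℝ, ∃ n : ℕ, 0 < n ∧ ∀ D, ∃ m : ℤ, (n : ℝ) * lat D z = m)
    (hX : ∀ z ∈ B.extremePoints ℝ, ∃ D, lat D z = 0 ∧ ∀ y ∈ B, y ≠ z → 0 < lat D y)
    (g : E →L[ℝ] ℝ) (hg : ∃ z ∈ B.extremePoints ℝ, 0 < g z) :
    ∃ z ∈ B.extremePoints ℝ, 0 < g z ∧ z ∉ closure (B.extremePoints ℝ \ {z}) := by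
  by_contra hcon
  push Not at hcon
  -- the construction of a smaller slice
  have hstep : ∀ (n : ℕ) (p : {p : (E →L[ℝ] ℝ) × ℝ // (∃ z ∈ B.extremePoints ℝ, 0 < aff p z) ∧
      ∀ y ∈ B, 0 < aff p y → 0 < g y}), ∃ q : {p : (E →L[ℝ] ℝ) × ℝ //
        (∃ z ∈ B.extremePoints ℝ, 0 < aff p z) ∧ ∀ y ∈ B, 0 < aff p y → 0 < g y},
        (∀ y ∈ B, 0 ≤ aff q.1 y → 0 < aff p.1 y) ∧
        (0 < n → ∀ y ∈ B, 0 ≤ aff q.1 y → ¬ ∀ D, ∃ m : ℤ, (n : ℝ) * lat D y = m) := by
    rintro n ⟨p, ⟨z0, hz0, hz0p⟩, hpg⟩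
    -- an extreme point with other denominators
    obtain ⟨z, hz, hzp, hzn⟩ : ∃ z ∈ B.extremePoints ℝ, 0 < aff p z ∧
        (0 < n → ¬ ∀ D, ∃ m : ℤ, (n : ℝ) * lat D z = m) := by
      by_contra hcon2
      push Not at hcon2
      obtain ⟨hn, -⟩ := hcon2 z0 hz0 hz0p
      have hn' : (0 : ℝ) < n := by exact_mod_cast hn
      obtain ⟨D0, hD0, hD0pos⟩ := hX z0 hz0
      have h1 := hcon z0 hz0 (hpg z0 hz0.1 hz0p)
      rw [mem_closure_iff] at h1
      obtain ⟨w, ⟨hw1, hw2⟩, hw3, hw4⟩ := h1 ({y | 0 < aff p y} ∩ {y | lat D0 y < 1 / n})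
        ((isOpen_lt continuous_const (continuous_aff p)).inter
          (isOpen_lt (lat D0).continuous continuous_const))
        ⟨hz0p, by change lat D0 z0 < 1 / n; rw [hD0]; positivity⟩
      obtain ⟨-, h2⟩ := hcon2 w hw3 hw1
      obtain ⟨m, hm⟩ := h2 D0
      have h3 : 0 < lat D0 w := hD0pos w hw3.1 hw4
      have h4 : (n : ℝ) * lat D0 w < 1 := by
        have := mul_lt_mul_of_pos_left (show lat D0 w < 1 / n from hw2) hn'
        rwa [mul_one_div_cancel hn'.ne'] at this
      have h5 : 0 < (n : ℝ) * lat D0 w := mul_pos hn' h3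
      rw [hm] at h4 h5
      have h6 : 0 < m := by exact_mod_cast h5
      have h7 : m < 1 := by exact_mod_cast h4
      omega
    -- an open neighbourhood
    obtain ⟨O, hO, hzO, hOp, hOn⟩ : ∃ O : Set E, IsOpen O ∧ z ∈ O ∧ (∀ y ∈ O, 0 < aff p y) ∧
        (0 < n → ∀ y ∈ O, ¬ ∀ D, ∃ m : ℤ, (n : ℝ) * lat D y = m) := by
      by_cases hn : 0 < n
      · have h1 := hzn hn
        push Not at h1
        obtain ⟨D1, hD1⟩ := h1
        refine ⟨{y | 0 < aff p y} ∩ (fun y => (n : ℝ) * lat D1 y) ⁻¹' (Set.range ((↑) : ℤ → ℝ))ᶜ,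
          (isOpen_lt continuous_const (continuous_aff p)).inter
            (Real.isClosed_range_intCast.isOpen_compl.preimage (by fun_prop)), ⟨hzp, ?_⟩,
          fun y hy => hy.1, fun _ y hy h => ?_⟩
        · rintro ⟨m, hm⟩
          exact hD1 m hm.symm
        · obtain ⟨m, hm⟩ := h D1
          exact hy.2 ⟨m, hm.symm⟩
      · exact ⟨{y | 0 < aff p y}, isOpen_lt continuous_const (continuous_aff p), hzp,
          fun y hy => hy, fun h => absurd h hn⟩
    obtain ⟨D2, hD2, hD2pos⟩ := hX z hz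
    obtain ⟨c, hc, hcO⟩ : ∃ c : ℝ, 0 < c ∧ ∀ y ∈ B, y ∉ O → c ≤ lat D2 y := by
      have hK : IsCompact (B \ O) := hB.diff hO
      by_cases hKne : (B \ O).Nonempty
      · obtain ⟨y1, hy1, hmin⟩ := hK.exists_isMinOn hKne (lat D2).continuous.continuousOn
        refine ⟨lat D2 y1, hD2pos y1 hy1.1 (fun h => hy1.2 (h ▸ hzO)), fun y hy hyO => ?_⟩
        exact hmin (show y ∈ B \ O from ⟨hy, hyO⟩)
      · refine ⟨1, one_pos, fun y hy hyO => ?_⟩
        exact absurd ⟨y, hy, hyO⟩ hKne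
    have hq : ∀ y, aff (-(lat D2), -(c / 2)) y = c / 2 - lat D2 y := by
      intro y
      unfold aff
      change -(lat D2 y) - -(c / 2) = _
      ring
    have hqO : ∀ y ∈ B, 0 ≤ aff (-(lat D2), -(c / 2)) y → y ∈ O := by
      intro y hy hyq
      by_contra hyO
      have h1 := hcO y hy hyO
      rw [hq] at hyq
      linarith
    refine ⟨⟨(-(lat D2), -(c / 2)), ⟨z, hz, ?_⟩, fun y hy hyq => ?_⟩, fun y hy hyq => ?_,
      fun hn y hy hyq => ?_⟩
    · rw [hq, hD2]
      linarith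
    · exact hpg y hy (hOp y (hqO y hy hyq.le))
    · exact hOp y (hqO y hy hyq)
    · exact hOn hn y (hqO y hy hyq)
  choose F hF1 hF2 using hstep
  obtain ⟨z0, hz0, hz0g⟩ := hg
  have hg0 : ∀ y, aff (g, (0 : ℝ)) y = g y := fun y => by
    unfold aff
    exact sub_zero _
  let p0 : {p : (E →L[ℝ] ℝ) × ℝ // (∃ z ∈ B.extremePoints ℝ, 0 < aff p z) ∧
      ∀ y ∈ B, 0 < aff p y → 0 < g y} :=
    ⟨(g, 0), ⟨z0, hz0, by rw [hg0]; exact hz0g⟩, fun y _ hy => by rwa [hg0] at hy⟩
  let seq : ℕ → {p : (E →L[ℝ] ℝ) × ℝ // (∃ z ∈ B.extremePoints ℝ, 0 < aff p z) ∧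
      ∀ y ∈ B, 0 < aff p y → 0 < g y} := fun n => Nat.rec p0 (fun n p => F n p) n
  have hseq : ∀ n, seq (n + 1) = F n (seq n) := fun n => rfl
  obtain ⟨x, hx, hxn⟩ := exists_extreme_of_nested hB hconv (fun n => (seq n).1)
    (fun n => by
      obtain ⟨z, hz, hzn⟩ := (seq n).2.1
      exact ⟨z, hz.1, hzn⟩)
    (fun n y hy hyn => by
      have h1 : 0 ≤ aff (F n (seq n)).1 y := hyn
      exact hF1 n (seq n) y hy h1)
  obtain ⟨n, hn, hint⟩ := hR x hx
  have h1 : 0 ≤ aff (F n (seq n)).1 x := hxn (n + 1)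
  exact hF2 n (seq n) hn x hx.1 h1 hint

end

end Pool.Agent.Lib.MP_cc17a8_ag.Gen
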