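import Mathlib
import Pool.Agent.Lib.MP_cc17a8_ag.PlacesFF

open scoped nonZeroDivisors
open IntermediateField

namespace Pool.Agent.Lib.MP_cc17a8_ag.Gen

universe u

section
variable {L F : Type u} [Field L] [Field F] [Algebra L F]

/-- The algebra structure over the constants on a valuation subring. -/
noncomputable abbrev algVal {v : ValuationSubring F} (h : ∀ a : L, algebraMap L F a ∈ v) :
    Algebra L v :=
  ((algebraMap L F).codRestrict v.toSubring h).toAlgebra

/-- The degree of the residue field of `v` over the constants. -/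
noncomputable def resDeg (L : Type u) {F : Type u} [Field L] [Field F] [Algebra L F]
    (v : ValuationSubring F) : ℕ :=
  open Classical in
  if h : ∀ a : L, algebraMap L F a ∈ v then
    (letI := algVal h; Module.finrank L (IsLocalRing.ResidueField v)) else 0

theorem resDeg_eq {v : ValuationSubring F} (h : ∀ a : L, algebraMap L F a ∈ v) :
    resDeg L v = (letI := algVal h; Module.finrank L (IsLocalRing.ResidueField v)) :=
  dif_pos h

end

section Ded

variable {A S F : Type u} [CommRing A] [IsDomain A] [CommRing S] [IsDedekindDomain S] [Field F]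
  [Algebra A S] [Algebra S F] [Algebra A F] [IsScalarTower A S F] [IsFractionRing S F]
  [Module.IsTorsionFree A S]

/-- The residue field at a place centered at a maximal ideal. -/
theorem exists_resEquiv {L : Type u} [Field L] [Algebra L S] [Algebra L F] [IsScalarTower L S F]
    {v : ValuationSubring F} (hv : v ≠ ⊤) (hvS : ∀ s : S, algebraMap S F s ∈ v)
    (hL : ∀ a : L, algebraMap L F a ∈ v) (hmax : (cen v hvS).IsMaximal) :
    letI := algVal hL
    Nonempty ((S ⧸ cen v hvS) ≃ₐ[L] IsLocalRing.ResidueField v) := by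
  let _ := algVal hL
  obtain ⟨h1, h2⟩ := isLocalization_of_place v hv hvS
  let _ : Algebra S v := (algOf v hvS).toAlgebra
  have : IsScalarTower L S v := by
    apply IsScalarTower.of_algebraMap_eq
    intro a
    apply Subtype.ext
    exact IsScalarTower.algebraMap_apply L S F a
  let e : S ⧸ cen v hvS ≃+* IsLocalRing.ResidueField v :=
    IsLocalization.AtPrime.equivQuotMaximalIdeal (cen v hvS) v
  exact ⟨AlgEquiv.ofRingEquiv (f := e) fun a => by
    have h3 : algebraMap L (S ⧸ cen v hvS) a =
        Ideal.Quotient.mk _ (algebraMap L S a) := rfl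
    rw [h3]
    have h4 : e (Ideal.Quotient.mk _ (algebraMap L S a)) =
        Ideal.Quotient.mk _ (algebraMap S v (algebraMap L S a)) :=
      IsLocalization.AtPrime.equivQuotMaximalIdeal_apply_mk (cen v hvS) v _
    rw [h4, ← IsScalarTower.algebraMap_apply L S v]
    rfl⟩

/-- Zeros of `f`: the number of zeros with multiplicity is the degree. -/
theorem sum_zeros_ded [Module.Finite A S] [Module.Flat A S] (f0 : A) (hf0 : f0 ≠ 0)
    (hmax : (Ideal.span {f0}).IsMaximal) (d : ValuationSubring F → ℤ)
    (hd : ∀ v : ValuationSubring F, v ≠ ⊤ → ∀ hS : (∀ s : S, algebraMap S F s ∈ v),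
      (cen v hS).LiesOver (Ideal.span {f0}) → d v = (cen v hS).inertiaDeg A) :
    {v : ValuationSubring F | (∀ s : S, algebraMap S F s ∈ v) ∧ (algebraMap A F f0)⁻¹ ∉ v}.Finite ∧
    ∑ᶠ v ∈ {v : ValuationSubring F |
        (∀ s : S, algebraMap S F s ∈ v) ∧ (algebraMap A F f0)⁻¹ ∉ v},
      ordAt v (algebraMap A F f0) * d v = Module.finrank A S := by
  classical
  set p : Ideal A := Ideal.span {f0} with hp
  set Z : Set (ValuationSubring F) := {v : ValuationSubring F |
    (∀ s : S, algebraMap S F s ∈ v) ∧ (algebraMap A F f0)⁻¹ ∉ v} with hZ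
  have hfF : algebraMap A F f0 = algebraMap S F (algebraMap A S f0) :=
    IsScalarTower.algebraMap_apply A S F f0
  have hZtop : ∀ v ∈ Z, v ≠ ⊤ := by
    rintro v ⟨-, hv⟩ rfl
    exact hv (ValuationSubring.mem_top _)
  have hover : ∀ v (hv : v ∈ Z), (cen v hv.1).LiesOver p := by
    intro v hv
    constructor
    have h1 : p ≤ (cen v hv.1).under A := by
      rw [hp, Ideal.span_le, Set.singleton_subset_iff, SetLike.mem_coe, Ideal.under_def,
        Ideal.mem_comap, mem_cen_iff]
      right
      rw [← hfF]; exact hv.2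
    exact hmax.eq_of_le (Ideal.IsPrime.ne_top inferInstance) h1
  let e : Z → p.primesOver S := fun v => ⟨cen v.1 v.2.1, inferInstance, hover v.1 v.2⟩
  have he : Function.Bijective e := by
    constructor
    · intro v w hvw
      have h := congrArg Subtype.val hvw
      apply Subtype.ext
      exact le_antisymm (cen_injective (hZtop _ v.2) v.2.1 w.2.1 h)
        (cen_injective (hZtop _ w.2) w.2.1 v.2.1 h.symm)
    · rintro ⟨q, hq, hqp⟩
      obtain ⟨v, hS, hv⟩ := exists_cen_eq (F := F) q
      have hvZ : v ∈ Z := by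
        refine ⟨hS, ?_⟩
        have h1 : algebraMap A S f0 ∈ cen v hS := by
          rw [hv]
          have : f0 ∈ q.under A := by
            rw [← hqp.over]; exact Ideal.subset_span rfl
          exact this
        rw [mem_cen_iff] at h1
        rw [hfF]
        apply h1.resolve_left
        intro h
        apply hf0
        exact (FaithfulSMul.algebraMap_injective A S) (by rw [h, map_zero])
      exact ⟨⟨v, hvZ⟩, Subtype.ext hv⟩
  have hfin : Finite (p.primesOver S) := Algebra.QuasiFinite.finite_primesOver p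
  have hZfin : Finite Z := Finite.of_injective e he.1
  refine ⟨hZfin, ?_⟩
  rw [← finsum_set_coe_eq_finsum_mem (s := Z)]
  let _ : Fintype (p.primesOver S) := Fintype.ofFinite _
  rw [← Ideal.sum_ramification_inertia_eq_finrank p S, Nat.cast_sum, ← finsum_eq_sum_of_fintype]
  refine finsum_eq_of_bijective e he ?_
  intro v
  rw [hd v (hZtop _ v.2) v.2.1 (hover _ v.2), Nat.cast_mul]
  congr 1
  exact ordAt_eq_ramificationIdx (hZtop _ v.2) v.2.1 f0 hf0 (hover _ v.2)

end Ded

section FF

variable {L F : Type u} [Field L] [Field F] [Algebra L F]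

open IntermediateField algebraAdjoinAdjoin Polynomial

theorem mem_of_isAlgebraic {v : ValuationSubring F} (hv : ∀ a : L, algebraMap L F a ∈ v)
    {x : F} (hx : IsAlgebraic L x) : x ∈ v := by
  let _ := algVal hv
  have : IsScalarTower L v F := IsScalarTower.of_algebraMap_eq fun _ => rfl
  have h1 : IsIntegral v x := hx.isIntegral.tower_top
  obtain ⟨y, hy⟩ := IsIntegrallyClosed.isIntegral_iff.mp h1
  rw [← hy]
  exact y.2

theorem ordAt_of_isAlgebraic {v : ValuationSubring F} (hv : ∀ a : L, algebraMap L F a ∈ v)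
    {x : F} (hx : IsAlgebraic L x) : ordAt v x = 0 := by
  by_cases h : IsDiscreteValuationRing v
  · exact ordAt_eq_zero v (mem_of_isAlgebraic hv hx) (mem_of_isAlgebraic hv hx.inv)
  · rw [ordAt, dif_neg h]

theorem transcendental_of_inv_notMem {v : ValuationSubring F} (hv : ∀ a : L, algebraMap L F a ∈ v)
    {x : F} (hx : x⁻¹ ∉ v) : Transcendental L x := fun h =>
  hx (mem_of_isAlgebraic hv h.inv)

theorem zeros_aux [CharZero L] (hF : IsFunctionField L F) {f : F} (hf : Transcendental L f) :
    {v : ValuationSubring F | (∀ a : L, algebraMap L F a ∈ v) ∧ f ∈ v ∧ f⁻¹ ∉ v}.Finite ∧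
    (∀ v ∈ {v : ValuationSubring F | (∀ a : L, algebraMap L F a ∈ v) ∧ f ∈ v ∧ f⁻¹ ∉ v},
      IsDiscreteValuationRing v ∧ ∃ h : (∀ a : L, algebraMap L F a ∈ v),
        letI := algVal h
        Module.Finite L (IsLocalRing.ResidueField v)) ∧
    ∑ᶠ v ∈ {v : ValuationSubring F | (∀ a : L, algebraMap L F a ∈ v) ∧ f ∈ v ∧ f⁻¹ ∉ v},
      ordAt v f * (resDeg L v : ℤ) = Module.finrank L⟮f⟯ F := by
  have hfd : FiniteDimensional L⟮f⟯ F := hF.finiteDimensional hf
  have hcz : CharZero L⟮f⟯ := charZero_of_injective_algebraMap (algebraMap L L⟮f⟯).injective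
  let A := Algebra.adjoin L {f}
  let eA : L[X] ≃ₐ[L] A := Polynomial.algEquivOfTranscendental L f hf
  have heA : ∀ P : L[X], ((eA P : A) : F) = aeval f P := by
    intro P
    have h := Polynomial.algEquivOfTranscendental_apply (R := L) f hf P
    change ((Polynomial.algEquivOfTranscendental L f hf P : A) : F) = _
    rw [h]
    exact Polynomial.aeval_subalgebra_coe P A _
  let f0 : A := ⟨f, Algebra.self_mem_adjoin_singleton L f⟩
  have heAX : eA X = f0 := by
    apply Subtype.ext
    rw [heA]; simp [f0]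
  have hPID : IsPrincipalIdealRing A := 
    IsPrincipalIdealRing.of_surjective eA.toRingEquiv eA.surjective
  let S := integralClosure A F
  have hDed : IsDedekindDomain S := IsIntegralClosure.isDedekindDomain A L⟮f⟯ F S
  have hfin : Module.Finite A S := IsIntegralClosure.finite A L⟮f⟯ F S
  have hrank : Module.finrank A S = Module.finrank L⟮f⟯ F := IsIntegralClosure.rank A L⟮f⟯ F S
  have hfrac : IsFractionRing S F := IsIntegralClosure.isFractionRing_of_finite_extension A L⟮f⟯ F S
  have hfree : Module.Free A S := IsIntegralClosure.module_free A L⟮f⟯ F S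
  have htf : Module.IsTorsionFree A S := inferInstance
  have hf00 : f ≠ 0 := by
    rintro rfl
    exact hf (isAlgebraic_zero)
  have hf0 : f0 ≠ 0 := fun h => hf00 (congrArg Subtype.val h)
  have hspan : Ideal.span {f0} = Ideal.map eA.toRingEquiv (Ideal.span {(X : L[X])}) := by
    rw [Ideal.map_span, Set.image_singleton]
    congr 2
    exact heAX.symm
  have hXmax : (Ideal.span {(X : L[X])}).IsMaximal :=
    PrincipalIdealRing.isMaximal_of_irreducible Polynomial.irreducible_X
  have hmax : (Ideal.span {f0}).IsMaximal := by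
    rw [hspan]
    exact Ideal.map_isMaximal_of_equiv eA.toRingEquiv
  have hLsurj : Function.Surjective (algebraMap L (A ⧸ Ideal.span {f0})) := by
    intro y
    obtain ⟨y, rfl⟩ := Ideal.Quotient.mk_surjective y
    obtain ⟨P, rfl⟩ := eA.surjective y
    refine ⟨P.coeff 0, ?_⟩
    rw [IsScalarTower.algebraMap_apply L A (A ⧸ Ideal.span {f0}), Ideal.Quotient.algebraMap_eq,
      Ideal.Quotient.eq, hspan, ← eA.commutes]
    change eA _ - eA P ∈ _
    rw [← map_sub]
    refine Ideal.mem_map_of_mem eA.toRingEquiv (I := Ideal.span {(X : L[X])}) ?_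
    rw [Ideal.mem_span_singleton, X_dvd_iff]
    simp
  have hcommon : ∀ v : ValuationSubring F, v ≠ ⊤ → ∀ hS : (∀ s : S, algebraMap S F s ∈ v),
      (cen v hS).LiesOver (Ideal.span {f0}) → ∃ h : (∀ a : L, algebraMap L F a ∈ v),
        (letI := algVal h
        Module.Finite L (IsLocalRing.ResidueField v)) ∧
        (resDeg L v : ℤ) = (cen v hS).inertiaDeg A := by
    intro v hv hS hlo
    have hq : (cen v hS).IsPrime := inferInstance
    have hqm : (cen v hS).IsMaximal := Ideal.IsMaximal.of_liesOver_isMaximal _ (Ideal.span {f0})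
    have hL : ∀ a : L, algebraMap L F a ∈ v := fun a => hS (algebraMap L S a)
    refine ⟨hL, ?_⟩
    obtain ⟨e⟩ := exists_resEquiv (L := L) hv hS hL hqm
    let _ := algVal hL
    let _ : Field (A ⧸ Ideal.span {f0}) := Ideal.Quotient.field _
    let _ : Field (S ⧸ cen v hS) := Ideal.Quotient.field _
    have hfin1 : Module.Finite L (A ⧸ Ideal.span {f0}) :=
      Module.Finite.of_surjective (Algebra.linearMap L _) hLsurj
    have h1 : Module.finrank L (A ⧸ Ideal.span {f0}) = 1 := by
      let e1 : L ≃ₐ[L] (A ⧸ Ideal.span {f0}) :=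
        AlgEquiv.ofBijective (Algebra.ofId L _) ⟨(algebraMap L _).injective, hLsurj⟩
      rw [← e1.toLinearEquiv.finrank_eq, Module.finrank_self]
    have hfin2 : Module.Finite (A ⧸ Ideal.span {f0}) (S ⧸ cen v hS) := by
      have h2 : Module.Finite A (S ⧸ cen v hS) :=
        Module.Finite.of_surjective (Ideal.Quotient.mkₐ A (cen v hS)).toLinearMap
          (Ideal.Quotient.mkₐ_surjective A (cen v hS))
      exact Module.Finite.of_restrictScalars_finite A _ _
    have hst : IsScalarTower L (A ⧸ Ideal.span {f0}) (S ⧸ cen v hS) :=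
      IsScalarTower.of_algebraMap_eq fun a => rfl
    have hfin3 : Module.Finite L (S ⧸ cen v hS) := Module.Finite.trans (A ⧸ Ideal.span {f0}) _
    refine ⟨Module.Finite.equiv e.toLinearEquiv, ?_⟩
    rw [resDeg_eq hL, Ideal.inertiaDeg_eq_of_isMaximal (Ideal.span {f0}) (cen v hS),
      ← e.toLinearEquiv.finrank_eq, ← Module.finrank_mul_finrank L (A ⧸ Ideal.span {f0}), h1,
      one_mul]
  have key := sum_zeros_ded (F := F) (A := A) (S := S) f0 hf0 hmax (fun v => (resDeg L v : ℤ))
    (fun v hv hS hlo => (hcommon v hv hS hlo).2.2)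
  have hfF : algebraMap A F f0 = f := rfl
  have hset : {v : ValuationSubring F | (∀ s : S, algebraMap S F s ∈ v) ∧ (algebraMap A F f0)⁻¹ ∉ v}
      = {v : ValuationSubring F | (∀ a : L, algebraMap L F a ∈ v) ∧ f ∈ v ∧ f⁻¹ ∉ v} := by
    ext v
    rw [hfF]
    constructor
    · rintro ⟨h1, h2⟩
      refine ⟨fun a => ?_, ?_, h2⟩
      · have := h1 (algebraMap L S a)
        exact this
      · have := h1 (algebraMap A S f0)
        exact this
    · rintro ⟨h1, h2, h3⟩
      refine ⟨?_, h3⟩
      have hA : ∀ a : A, (a : F) ∈ v := by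
        intro a
        let vs : Subalgebra L F := { v.toSubring with algebraMap_mem' := h1 }
        have : Algebra.adjoin L {f} ≤ vs := by
          rw [Algebra.adjoin_le_iff, Set.singleton_subset_iff]
          exact h2
        exact this a.2
      intro s
      have hs : IsIntegral A (s : F) := s.2
      let _ : Algebra A v := (RingHom.codRestrict (algebraMap A F) v.toSubring hA).toAlgebra
      have : IsScalarTower A v F := IsScalarTower.of_algebraMap_eq fun _ => rfl
      have hs' : IsIntegral v (s : F) := hs.tower_top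
      obtain ⟨y, hy⟩ := IsIntegrallyClosed.isIntegral_iff.mp hs'
      have : algebraMap S F s = (y : F) := hy.symm
      rw [this]; exact y.2
  rw [hset] at key
  refine ⟨key.1, ?_, ?_⟩
  · intro v hv
    have hv' := hv
    rw [← hset] at hv'
    have hvtop : v ≠ ⊤ := by
      rintro rfl
      exact hv'.2 (ValuationSubring.mem_top _)
    have hlo : (cen v hv'.1).LiesOver (Ideal.span {f0}) := by
      constructor
      have h1 : Ideal.span {f0} ≤ (cen v hv'.1).under A := by
        rw [Ideal.span_le, Set.singleton_subset_iff, SetLike.mem_coe, Ideal.under_def,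
          Ideal.mem_comap, mem_cen_iff]
        right
        exact hv'.2
      exact hmax.eq_of_le (Ideal.IsPrime.ne_top inferInstance) h1
    obtain ⟨h, hfinres, -⟩ := hcommon v hvtop hv'.1 hlo
    exact ⟨isDVR_of_place (S := S) hvtop hv'.1, h, hfinres⟩
  · rw [← hrank, ← key.2, hfF]

variable [CharZero L]

omit [CharZero L] in
theorem exists_transcendental_of_isPlace {v : ValuationSubring F} (hv : IsPlace L v) :
    ∃ x : F, Transcendental L x ∧ x ∈ v ∧ x⁻¹ ∉ v := by
  have h : ∃ x, x ∉ v := by
    by_contra h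
    push Not at h
    exact hv.2 (eq_top_iff.mpr fun x _ => h x)
  obtain ⟨x, hx⟩ := h
  have hx' : (x⁻¹)⁻¹ ∉ v := by rwa [inv_inv]
  exact ⟨x⁻¹, transcendental_of_inv_notMem hv.1 hx', (v.mem_or_inv_mem x).resolve_left hx, hx'⟩

theorem isDVR (hF : IsFunctionField L F) {v : ValuationSubring F} (hv : IsPlace L v) :
    IsDiscreteValuationRing v := by
  obtain ⟨x, hx, h1, h2⟩ := exists_transcendental_of_isPlace hv
  exact ((zeros_aux hF hx).2.1 v ⟨hv.1, h1, h2⟩).1

theorem finite_residueField (hF : IsFunctionField L F) {v : ValuationSubring F}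
    (hv : IsPlace L v) :
    (letI := algVal hv.1; Module.Finite L (IsLocalRing.ResidueField v)) := by
  obtain ⟨x, hx, h1, h2⟩ := exists_transcendental_of_isPlace hv
  obtain ⟨_, h3⟩ := ((zeros_aux hF hx).2.1 v ⟨hv.1, h1, h2⟩).2
  exact h3

theorem resDeg_pos (hF : IsFunctionField L F) {v : ValuationSubring F} (hv : IsPlace L v) :
    0 < resDeg L v := by
  rw [resDeg_eq hv.1]
  let _ := algVal hv.1
  have := finite_residueField hF hv
  exact Module.finrank_pos

omit [CharZero L] in
theorem isPlace_of_zero {v : ValuationSubring F} {x : F} (h1 : ∀ a : L, algebraMap L F a ∈ v)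
    (h : x⁻¹ ∉ v) : IsPlace L v := by
  refine ⟨h1, ?_⟩
  rintro rfl
  exact h (ValuationSubring.mem_top _)

theorem ordAt_eq_zero_or (hF : IsFunctionField L F) {v : ValuationSubring F}
    (hv : IsPlace L v) (x : F) : ordAt v x = 0 ∨ (x ∈ v ∧ x⁻¹ ∉ v) ∨ (x⁻¹ ∈ v ∧ x ∉ v) := by
  have := isDVR hF hv
  by_cases h1 : x ∈ v
  · by_cases h2 : x⁻¹ ∈ v
    · left
      exact ordAt_eq_zero v h1 h2
    · right; left
      exact ⟨h1, h2⟩
  · right; right
    exact ⟨(v.mem_or_inv_mem x).resolve_left h1, h1⟩

theorem zeros_finite (hF : IsFunctionField L F) (x : F) :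
    {v : ValuationSubring F | IsPlace L v ∧ x ∈ v ∧ x⁻¹ ∉ v}.Finite := by
  by_cases hx : Transcendental L x
  · exact (zeros_aux hF hx).1.subset fun v hv => ⟨hv.1.1, hv.2⟩
  · convert Set.finite_empty
    ext v
    simp only [Set.mem_ofPred_eq, Set.mem_empty_iff_false, iff_false]
    rintro ⟨hv, -, h⟩
    exact hx (transcendental_of_inv_notMem hv.1 h)

theorem finite_support (hF : IsFunctionField L F) (x : F) :
    {v : ValuationSubring F | IsPlace L v ∧ ordAt v x ≠ 0}.Finite := by
  refine ((zeros_finite hF x).union (zeros_finite hF x⁻¹)).subset ?_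
  rintro v ⟨hv, h⟩
  rcases (ordAt_eq_zero_or hF hv x).resolve_left h with h | h
  · exact Or.inl ⟨hv, h⟩
  · exact Or.inr ⟨hv, h.1, by rw [inv_inv]; exact h.2⟩

/-- The degree of the divisor of zeros of `x`. -/
theorem sum_zeros (hF : IsFunctionField L F) {x : F} (hx : Transcendental L x) :
    ∑ᶠ v ∈ {v : ValuationSubring F | IsPlace L v ∧ x ∈ v ∧ x⁻¹ ∉ v},
      ordAt v x * (resDeg L v : ℤ) = Module.finrank L⟮x⟯ F := by
  rw [← (zeros_aux hF hx).2.2]
  apply finsum_mem_congr ?_ fun _ _ => rfl
  ext v
  constructor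
  · rintro ⟨h1, h2⟩
    exact ⟨h1.1, h2⟩
  · rintro ⟨h1, h2, h3⟩
    exact ⟨isPlace_of_zero h1 h3, h2, h3⟩

omit [CharZero L] in
theorem adjoin_inv (x : F) : L⟮x⁻¹⟯ = L⟮x⟯ := by
  apply le_antisymm
  · rw [IntermediateField.adjoin_simple_le_iff]
    exact inv_mem (IntermediateField.mem_adjoin_simple_self L x)
  · rw [IntermediateField.adjoin_simple_le_iff]
    have := inv_mem (IntermediateField.mem_adjoin_simple_self L x⁻¹)
    rwa [inv_inv] at this

/-- The degree of the divisor of poles of `x`. -/
theorem sum_poles (hF : IsFunctionField L F) {x : F} (hx : Transcendental L x) :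
    ∑ᶠ v ∈ {v : ValuationSubring F | IsPlace L v ∧ x ∉ v},
      -ordAt v x * (resDeg L v : ℤ) = Module.finrank L⟮x⟯ F := by
  have hx' : Transcendental L x⁻¹ := by
    intro h
    apply hx
    have := h.inv
    rwa [inv_inv] at this
  rw [← adjoin_inv x, ← sum_zeros hF hx']
  apply finsum_mem_congr
  · ext v
    simp only [Set.mem_ofPred_eq, inv_inv]
    constructor
    · rintro ⟨h1, h2⟩
      exact ⟨h1, (v.mem_or_inv_mem x).resolve_left h2, h2⟩
    · rintro ⟨h1, -, h3⟩
      exact ⟨h1, h3⟩
  · intro v hv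
    have := isDVR hF hv.1
    rw [ordAt_inv]

/-- The product formula. -/
theorem sum_ordAt (hF : IsFunctionField L F) (x : F) :
    ∑ᶠ v ∈ {v : ValuationSubring F | IsPlace L v}, ordAt v x * (resDeg L v : ℤ) = 0 := by
  by_cases hx : Transcendental L x
  · set Z := {v : ValuationSubring F | IsPlace L v ∧ x ∈ v ∧ x⁻¹ ∉ v} with hZ
    set P := {v : ValuationSubring F | IsPlace L v ∧ x ∉ v} with hP
    have hZf : Z.Finite := zeros_finite hF x
    have hPf : P.Finite := (zeros_finite hF x⁻¹).subset fun v hv =>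
      ⟨hv.1, (v.mem_or_inv_mem x).resolve_left hv.2, by rw [inv_inv]; exact hv.2⟩
    have h1 : ∑ᶠ v ∈ {v : ValuationSubring F | IsPlace L v}, ordAt v x * (resDeg L v : ℤ) =
        ∑ᶠ v ∈ Z ∪ P, ordAt v x * (resDeg L v : ℤ) := by
      apply finsum_mem_inter_support_eq'
      intro v hv
      rw [Function.mem_support] at hv
      constructor
      · intro h
        rcases (ordAt_eq_zero_or hF h x).resolve_left (left_ne_zero_of_mul hv) with h2 | h2
        · exact Or.inl ⟨h, h2⟩
        · exact Or.inr ⟨h, h2.2⟩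
      · rintro (h | h)
        · exact h.1
        · exact h.1
    have h2 : Disjoint Z P := by
      rw [Set.disjoint_left]
      rintro v ⟨-, h, -⟩ ⟨-, h'⟩
      exact h' h
    rw [h1, finsum_mem_union h2 hZf hPf, sum_zeros hF hx]
    have h3 := sum_poles hF hx
    have h4 : ∑ᶠ v ∈ P, ordAt v x * (resDeg L v : ℤ) =
        - ∑ᶠ v ∈ P, -ordAt v x * (resDeg L v : ℤ) := by
      rw [← finsum_mem_neg_distrib _ hPf]
      apply finsum_mem_congr rfl
      intro v hv
      ring
    rw [h4, h3]
    ring
  · rw [finsum_mem_eq_zero_of_forall_eq_zero]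
    intro v hv
    rw [ordAt_of_isAlgebraic hv.1 (not_not.mp hx), zero_mul]

end FF

end Pool.Agent.Lib.MP_cc17a8_ag.Gen
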