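import Mathlib
import Pool.Agent.Lib.MP_cc17a8_ag.Gen.Places

/-!
# Divisorial valuations of fields of transcendence degree two
-/

open IntermediateField

namespace Pool.Agent.Lib.MP_cc17a8_ag.Gen

universe u

section Trdeg

variable {L R : Type u} [Field L] [CommRing R] [IsDomain R] [Algebra L R]

/-- The transcendence degree of a domain drops modulo a nonzero prime ideal. -/
theorem trdeg_quotient_add_one_le (P : Ideal R) [P.IsPrime] (hP : P ≠ ⊥) :
    Algebra.trdeg L (R ⧸ P) + 1 ≤ Algebra.trdeg L R := by
  obtain ⟨s, hs⟩ := exists_isTranscendenceBasis L (R ⧸ P)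
  have hmk : ∀ i : s, ∃ r : R, Ideal.Quotient.mk P r = (i : R ⧸ P) := fun i =>
    Ideal.Quotient.mk_surjective _
  choose x hx using hmk
  have hcomp : (Ideal.Quotient.mkₐ L P) ∘ x = ((↑) : s → R ⧸ P) := by
    funext i
    exact hx i
  have hind : AlgebraicIndependent L ((Ideal.Quotient.mkₐ L P) ∘ x) := by
    rw [hcomp]; exact hs.1
  have hxi : AlgebraicIndependent L x := hind.of_comp
  obtain ⟨a, haP, ha0⟩ := Submodule.exists_mem_ne_zero_of_ne_bot hP
  have htr : Transcendental (Algebra.adjoin L (Set.range x)) a := by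
    intro halg
    obtain ⟨r, hr0, b, hb⟩ := halg.exists_nonzero_dvd (mem_nonZeroDivisors_of_ne_zero ha0)
    have hrP : (r : R) ∈ P := by
      have : (r : R) = a * b := hb
      rw [this]
      exact P.mul_mem_right _ haP
    have hr : (r : R) ∈ (MvPolynomial.aeval x : MvPolynomial s L →ₐ[L] R).range := by
      rw [← Algebra.adjoin_range_eq_range_aeval]
      exact r.2
    obtain ⟨q, hq⟩ := hr
    have hq' : MvPolynomial.aeval x q = (r : R) := hq
    have h1 : MvPolynomial.aeval ((Ideal.Quotient.mkₐ L P) ∘ x) q = 0 := by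
      have e : (Ideal.Quotient.mkₐ L P).comp (MvPolynomial.aeval x) =
        MvPolynomial.aeval ((Ideal.Quotient.mkₐ L P) ∘ x) := MvPolynomial.comp_aeval _ _
      rw [← e, AlgHom.comp_apply, hq']
      exact Ideal.Quotient.eq_zero_iff_mem.mpr hrP
    have h2 : q = 0 := hind (by rw [h1, map_zero])
    apply hr0
    apply Subtype.ext
    rw [← hq', h2, map_zero]
    rfl
  have h := (hxi.option_iff_transcendental a).mpr htr
  have h3 := h.cardinalMk_le_trdeg
  rw [Cardinal.mk_option, hs.cardinalMk_eq_trdeg] at h3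
  exact h3

end Trdeg

section Loc

open scoped nonZeroDivisors

variable {S F : Type u} [CommRing S] [IsDomain S] [Field F] [Algebra S F] [IsFractionRing S F]

omit [IsDomain S] [IsFractionRing S F] in
theorem mem_cen_iff_lt (v : ValuationSubring F) (hS : ∀ s : S, algebraMap S F s ∈ v) (s : S) :
    s ∈ cen v hS ↔ v.valuation (algebraMap S F s) < 1 := by
  rw [cen, Ideal.mem_comap]
  exact ValuationSubring.valuation_lt_one_iff v (algOf v hS s)

theorem isLocalization_of_cen (v : ValuationSubring F) (hS : ∀ s : S, algebraMap S F s ∈ v)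
    (hT : ValuationRing (Localization.AtPrime (cen v hS))) :
    @IsLocalization.AtPrime _ _ v _ (algOf v hS).toAlgebra (cen v hS) _ := by
  let _ : Algebra S v := (algOf v hS).toAlgebra
  have hmap : ∀ s : S, algebraMap S v s = algOf v hS s := fun _ => rfl
  have hval : ∀ s : S, ((algebraMap S v s : v) : F) = algebraMap S F s := fun _ => rfl
  let T := Localization.AtPrime (cen v hS)
  -- total comparability
  have total : ∀ a b : S, ∃ c s : S, s ∉ cen v hS ∧ (a * s = b * c ∨ b * s = a * c) := by
    intro a b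
    have htot := ValuationRing.dvd_total (algebraMap S T b) (algebraMap S T a)
    have hinj : Function.Injective (algebraMap S T) :=
      IsLocalization.injective T (cen v hS).primeCompl_le_nonZeroDivisors
    rcases htot with ⟨c, hc⟩ | ⟨c, hc⟩
    · obtain ⟨⟨c', s⟩, hcs⟩ := IsLocalization.surj (cen v hS).primeCompl c
      refine ⟨c', s, s.2, Or.inl ?_⟩
      apply hinj
      rw [map_mul, map_mul, hc, mul_assoc]
      congr 1
    · obtain ⟨⟨c', s⟩, hcs⟩ := IsLocalization.surj (cen v hS).primeCompl c
      refine ⟨c', s, s.2, Or.inr ?_⟩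
      apply hinj
      rw [map_mul, map_mul, hc, mul_assoc]
      congr 1
  refine ⟨?_, ?_, ?_⟩
  · rintro ⟨y, hy⟩
    by_contra hcon
    apply hy
    rw [SetLike.mem_coe, cen, Ideal.mem_comap, IsLocalRing.mem_maximalIdeal]
    exact hcon
  · intro z
    obtain ⟨a, b, hb, hab⟩ := IsFractionRing.div_surjective (A := S) (z : F)
    have hb0 : algebraMap S F b ≠ 0 := by
      rw [Ne, IsFractionRing.to_map_eq_zero_iff]; exact nonZeroDivisors.ne_zero hb
    obtain ⟨c, s, hs, h | h⟩ := total a b
    · refine ⟨(c, ⟨s, hs⟩), ?_⟩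
      apply Subtype.ext
      change (z : F) * algebraMap S F s = algebraMap S F c
      rw [← hab, div_mul_eq_mul_div, div_eq_iff hb0, ← map_mul, ← map_mul, h, mul_comm]
    · -- x⁻¹ = c / s
      by_cases ha : a = 0
      · refine ⟨(0, ⟨1, fun h1 => ?_⟩), ?_⟩
        · exact (inferInstance : (cen v hS).IsPrime).ne_top ((Ideal.eq_top_iff_one _).mpr h1)
        · apply Subtype.ext
          change (z : F) * algebraMap S F 1 = algebraMap S F 0
          rw [← hab, ha]; simp
      have ha0 : algebraMap S F a ≠ 0 := by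
        rw [Ne, IsFractionRing.to_map_eq_zero_iff]; exact ha
      have hs0 : s ≠ 0 := fun h => hs (h ▸ Ideal.zero_mem _)
      have hs00 : algebraMap S F s ≠ 0 := by
        rw [Ne, IsFractionRing.to_map_eq_zero_iff]; exact hs0
      by_cases hc : c ∈ cen v hS
      · exfalso
        rw [mem_cen_iff] at hc hs
        push Not at hs
        have hb00 : b ≠ 0 := nonZeroDivisors.ne_zero hb
        have hc0 : c ≠ 0 := by
          intro h0; rw [h0, mul_zero] at h
          exact (mul_ne_zero hb00 hs0) h
        have hc1 := hc.resolve_left hc0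
        apply hc1
        have hc00 : algebraMap S F c ≠ 0 := by
          rw [Ne, IsFractionRing.to_map_eq_zero_iff]; exact hc0
        -- 1/c = (a/b) * (1/s)
        have : (algebraMap S F c)⁻¹ = (z : F) * (algebraMap S F s)⁻¹ := by
          rw [← hab]
          have h' := congrArg (algebraMap S F) h
          rw [map_mul, map_mul] at h'
          field_simp
          rw [h', mul_comm]
        rw [this]
        exact v.mul_mem _ _ z.2 hs.2
      · refine ⟨(s, ⟨c, hc⟩), ?_⟩
        apply Subtype.ext
        change (z : F) * algebraMap S F c = algebraMap S F s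
        rw [← hab, div_mul_eq_mul_div, div_eq_iff hb0, ← map_mul, ← map_mul, ← h, mul_comm]
  · intro x y hxy
    refine ⟨1, ?_⟩
    have := congrArg Subtype.val hxy
    rw [hval, hval] at this
    rw [IsFractionRing.injective S F this]

theorem le_of_cen_eq {v w : ValuationSubring F}
    (hvS : ∀ s : S, algebraMap S F s ∈ v) (hwS : ∀ s : S, algebraMap S F s ∈ w)
    (hT : ValuationRing (Localization.AtPrime (cen v hvS)))
    (h : cen v hvS = cen w hwS) : v ≤ w := by
  have h2 := isLocalization_of_cen v hvS hT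
  let _ : Algebra S v := (algOf v hvS).toAlgebra
  intro x hx
  obtain ⟨⟨a, s⟩, has⟩ := IsLocalization.surj (cen v hvS).primeCompl (⟨x, hx⟩ : v)
  have h3 : x * algebraMap S F s = algebraMap S F a := congrArg Subtype.val has
  have hs : (s : S) ∉ cen w hwS := by rw [← h]; exact s.2
  rw [mem_cen_iff] at hs
  push Not at hs
  have hs00 : algebraMap S F s ≠ 0 := by
    rw [Ne, IsFractionRing.to_map_eq_zero_iff]; exact hs.1
  have h4 : x = algebraMap S F a * (algebraMap S F s)⁻¹ := by
    rw [← h3]; field_simp
  rw [h4]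
  exact w.mul_mem _ _ (hwS a) hs.2

end Loc

section DVR

variable {R : Type u} [CommRing R] [IsDomain R] [IsNoetherianRing R] [IsIntegrallyClosed R]

theorem isDVR_localization {P : Ideal R} [P.IsPrime] {t : R} (ht : t ≠ 0)
    (hP : P ∈ (Ideal.span {t}).minimalPrimes) :
    IsDiscreteValuationRing (Localization.AtPrime P) := by
  have htP : t ∈ P := hP.1.2 (Ideal.subset_span rfl)
  have hP0 : P ≠ ⊥ := by
    rintro rfl
    exact ht (by simpa using htP)
  have hht : P.height ≤ 1 := Ideal.height_le_one_of_isPrincipal_of_mem_minimalPrimes _ _ hP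
  have hnf : ¬ IsField (Localization.AtPrime P) := IsLocalization.AtPrime.not_isField R hP0 _
  have hic : IsIntegrallyClosed (Localization.AtPrime P) :=
    isIntegrallyClosed_of_isLocalization _ P.primeCompl P.primeCompl_le_nonZeroDivisors
  have hpr : ∀ q : Ideal (Localization.AtPrime P), q ≠ ⊥ → q.IsPrime →
      q = IsLocalRing.maximalIdeal (Localization.AtPrime P) := by
    intro q hq0 hq
    have hle : q.under R ≤ P := by
      have h := Ideal.comap_mono (f := algebraMap R (Localization.AtPrime P))
        (IsLocalRing.le_maximalIdeal hq.ne_top)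
      exact h.trans (Localization.AtPrime.under_maximalIdeal (I := P)).le
    have hne : ⊥ < q.under R := by
      rw [bot_lt_iff_ne_bot]
      intro h
      apply hq0
      rw [← IsLocalization.map_under P.primeCompl (Localization.AtPrime P) q, h, Ideal.map_bot]
    have hfin : P.FiniteHeight := P.finiteHeight_iff.mpr
      (Or.inr (lt_of_le_of_lt hht (by exact ENat.natCast_lt_top 1)).ne)
    have heq : q.under R = P := by
      by_contra hlt
      have hlt' : q.under R < P := lt_of_le_of_ne hle hlt
      have hqf : (q.under R).FiniteHeight := (q.under R).finiteHeight_iff.mpr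
        (Or.inr (lt_of_le_of_lt ((Ideal.height_mono hle).trans hht) (ENat.natCast_lt_top 1)).ne)
      have h1 := Ideal.height_strict_mono_of_isPrime_of_isPrime hne
      have h2 := Ideal.height_strict_mono_of_isPrime_of_isPrime hlt'
      rw [Ideal.height_bot] at h1
      have h3 := lt_of_lt_of_le h2 hht
      rw [Order.lt_one_iff] at h3
      rw [h3] at h1
      exact lt_irrefl _ h1
    rw [← IsLocalization.map_under P.primeCompl (Localization.AtPrime P) q, heq]
    exact Localization.AtPrime.map_eq_maximalIdeal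
  have h5 := (tfae_of_isNoetherianRing_of_isLocalRing_of_isDomain (Localization.AtPrime P)).out 3 1
  have h6 : ValuationRing (Localization.AtPrime P) := h5.mp ⟨hic, hpr⟩
  exact ((IsDiscreteValuationRing.TFAE (Localization.AtPrime P) hnf).out 0 1).mpr h6

end DVR

section Residue

variable {L S F : Type u} [Field L] [CommRing S] [IsDomain S] [Field F] [Algebra S F]
  [IsFractionRing S F] [Algebra L S] [Algebra L F] [IsScalarTower L S F]

/-- The residue field of a valuation ring which is a localization of `S`. -/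
theorem exists_resEquiv' (v : ValuationSubring F) (hS : ∀ s : S, algebraMap S F s ∈ v)
    (hL : ∀ a : L, algebraMap L F a ∈ v)
    (hT : ValuationRing (Localization.AtPrime (cen v hS))) :
    letI := algVal hL
    ∃ e : (cen v hS).ResidueField ≃ₐ[L] IsLocalRing.ResidueField v,
      ∀ s : S, e (algebraMap S _ s) = IsLocalRing.residue v (algOf v hS s) := by
  let _ := algVal hL
  have h2 := isLocalization_of_cen v hS hT
  let _ : Algebra S v := (algOf v hS).toAlgebra
  have : IsScalarTower L S v := by
    apply IsScalarTower.of_algebraMap_eq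
    intro a
    apply Subtype.ext
    exact IsScalarTower.algebraMap_apply L S F a
  let e0 : Localization.AtPrime (cen v hS) ≃ₐ[S] v :=
    IsLocalization.algEquiv (cen v hS).primeCompl _ v
  let e1 : Localization.AtPrime (cen v hS) ≃ₐ[L] v := e0.restrictScalars L
  refine ⟨IsLocalRing.ResidueField.mapAlgEquiv e1, ?_⟩
  intro s
  have h3 : algebraMap S (cen v hS).ResidueField s =
    IsLocalRing.residue _ (algebraMap S (Localization.AtPrime (cen v hS)) s) := rfl
  rw [h3, IsLocalRing.ResidueField.mapAlgEquiv_residue]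
  congr 1
  exact e0.commutes s

omit [IsDomain S] in
/-- The transcendence degree of the residue field at a prime ideal. -/
theorem trdeg_residueField (P : Ideal S) [P.IsPrime] :
    Algebra.trdeg L P.ResidueField = Algebra.trdeg L (S ⧸ P) := by
  have h := trdeg_add_eq L (S ⧸ P) (A := P.ResidueField)
  rw [← h]
  have : Algebra.IsAlgebraic (S ⧸ P) P.ResidueField := IsLocalization.isAlgebraic _ (nonZeroDivisors _)
  rw [trdeg_eq_zero_iff.mpr this, add_zero]

theorem trdeg_eq_of_isFractionRing :
    Algebra.trdeg L F = Algebra.trdeg L S := by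
  have h := trdeg_add_eq L S (A := F)
  rw [← h]
  have : Algebra.IsAlgebraic S F := IsLocalization.isAlgebraic _ (nonZeroDivisors _)
  rw [trdeg_eq_zero_iff.mpr this, add_zero]

end Residue

theorem val_lt_one_iff {F : Type u} [Field F] (v : ValuationSubring F) (x : F) :
    v.valuation x < 1 ↔ x = 0 ∨ x⁻¹ ∉ v := by
  by_cases hx : x = 0
  · simp [hx]
  · have h1 : x⁻¹ ∈ v ↔ 1 ≤ v.valuation x := by
      rw [← ValuationSubring.valuation_le_one_iff, map_inv₀, inv_le_one₀]
      exact (Valuation.pos_iff _).mpr hx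
    rw [h1, not_le]
    simp [hx]

section OneRing

variable {L R K : Type u} [Field L] [CommRing R] [IsDomain R] [Field K] [Algebra R K]
  [IsFractionRing R K] [Algebra L R] [Algebra L K] [IsScalarTower L R K]
  [IsNoetherianRing R] [IsIntegrallyClosed R] [Algebra.FiniteType L R]

theorem one_ring (htr : Algebra.trdeg L K = 2) {t : R} (ht : t ≠ 0) :
    ∃ 𝒬 : Set (ValuationSubring K), 𝒬.Finite ∧
      (∀ Q ∈ 𝒬, (∀ s : R, algebraMap R K s ∈ Q) ∧ (algebraMap R K t)⁻¹ ∉ Q ∧
        IsDiscreteValuationRing Q ∧
        ∀ hL : (∀ a : L, algebraMap L K a ∈ Q), letI := algVal hL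
          Algebra.EssFiniteType L (IsLocalRing.ResidueField Q) ∧
            Algebra.trdeg L (IsLocalRing.ResidueField Q) ≤ 1) ∧
      ∀ Q' : ValuationSubring K, (∀ s : R, algebraMap R K s ∈ Q') →
        (algebraMap R K t)⁻¹ ∉ Q' → Q' ∉ 𝒬 →
        (∀ s : R, ∃ p : Polynomial L, p ≠ 0 ∧
          Q'.valuation (Polynomial.aeval (algebraMap R K s) p) < 1) ∧
        ∃ Q ∈ 𝒬, ∃ (hL : ∀ a : L, algebraMap L K a ∈ Q)
          (v : ValuationSubring (IsLocalRing.ResidueField Q)),
          (letI := algVal hL; IsPlace L v) ∧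
          ∀ (s : R) (hb : algebraMap R K s ∈ Q),
            IsLocalRing.residue Q ⟨algebraMap R K s, hb⟩ ∈ v ∧
            (v.valuation (IsLocalRing.residue Q ⟨algebraMap R K s, hb⟩) < 1 ↔
              Q'.valuation (algebraMap R K s) < 1) := by
  classical
  have htK : algebraMap R K t ≠ 0 := by
    rw [Ne, IsFractionRing.to_map_eq_zero_iff]; exact ht
  set M := (Ideal.span {t}).minimalPrimes with hM
  have hMfin : M.Finite := Ideal.finite_minimalPrimes_of_isNoetherianRing R _
  have hcen : ∀ P : M, ∃ (v : ValuationSubring K) (hS : ∀ s : R, algebraMap R K s ∈ v),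
      cen v hS = P.1 := by
    intro P
    have := P.2.1.1
    exact exists_cen_eq P.1
  choose V hVS hV using hcen
  have hMprime : ∀ P : M, P.1.IsPrime := fun P => P.2.1.1
  have htP : ∀ P : M, t ∈ P.1 := fun P => P.2.1.2 (Ideal.subset_span rfl)
  have hdvr : ∀ P : M, IsDiscreteValuationRing (Localization.AtPrime (cen (V P) (hVS P))) := by
    intro P
    apply isDVR_localization ht
    rw [hV]; exact P.2
  have hval : ∀ P : M, ValuationRing (Localization.AtPrime (cen (V P) (hVS P))) := by
    intro P
    have := hdvr P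
    infer_instance
  have htr2 : Algebra.trdeg L R = 2 := by rw [← trdeg_eq_of_isFractionRing (L := L) (S := R) (F := K), htr]
  have htrP : ∀ P : M, Algebra.trdeg L (R ⧸ P.1) ≤ 1 := by
    intro P
    have := hMprime P
    have hP0 : P.1 ≠ ⊥ := by
      intro h
      have := htP P
      rw [h] at this
      exact ht (by simpa using this)
    have h := trdeg_quotient_add_one_le (L := L) P.1 hP0
    rw [htr2] at h
    have h2 : (2 : Cardinal.{u}) = 1 + 1 := by norm_num
    rw [h2] at h
    exact Cardinal.add_one_le_add_one_iff.mp h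
  refine ⟨Set.range V, ?_, ?_, ?_⟩
  · have : Finite M := hMfin
    exact Set.finite_range V
  · rintro _ ⟨P, rfl⟩
    refine ⟨hVS P, ?_, ?_, ?_⟩
    · have h1 : t ∈ cen (V P) (hVS P) := by rw [hV]; exact htP P
      rw [mem_cen_iff] at h1
      exact h1.resolve_left ht
    · have h2 := isLocalization_of_cen (V P) (hVS P) (hval P)
      let _ : Algebra R (V P) := (algOf (V P) (hVS P)).toAlgebra
      let e0 : Localization.AtPrime (cen (V P) (hVS P)) ≃ₐ[R] V P :=
        IsLocalization.algEquiv (cen (V P) (hVS P)).primeCompl _ (V P)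
      have := hdvr P
      exact IsDiscreteValuationRing.RingEquivClass.isDiscreteValuationRing e0.toRingEquiv
    · intro hL
      obtain ⟨e, -⟩ := exists_resEquiv' (L := L) (V P) (hVS P) hL (hval P)
      let _ := algVal hL
      constructor
      · have : Algebra.EssFiniteType L (cen (V P) (hVS P)).ResidueField :=
          Algebra.EssFiniteType.comp L R _
        exact (Algebra.EssFiniteType.iff_of_algEquiv e).mp this
      · rw [← e.trdeg_eq, trdeg_residueField]
        have := htrP P
        rw [← hV P] at this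
        exact this
  · intro Q' hQ' htQ' hnot
    set p := cen Q' hQ' with hp
    have htp : Ideal.span {t} ≤ p := by
      rw [Ideal.span_le, Set.singleton_subset_iff, SetLike.mem_coe, hp, mem_cen_iff]
      exact Or.inr htQ'
    obtain ⟨P0, hP0, hP0p⟩ := Ideal.exists_minimalPrimes_le htp
    let P : M := ⟨P0, hP0⟩
    have hne : P0 ≠ p := by
      intro h
      apply hnot
      refine ⟨P, ?_⟩
      have h1 : cen (V P) (hVS P) = cen Q' hQ' := by rw [hV, ← hp]; exact h
      apply le_antisymm
      · exact le_of_cen_eq (hVS P) hQ' (hval P) h1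
      · refine le_of_cen_eq hQ' (hVS P) ?_ h1.symm
        have h2 : IsDiscreteValuationRing (Localization.AtPrime (cen Q' hQ')) :=
          isDVR_localization ht (by rw [← hp, ← h]; exact hP0)
        infer_instance
    have hlt : P0 < p := lt_of_le_of_ne hP0p hne
    set Pc := cen (V P) (hVS P) with hPc
    have hPcP : Pc = P0 := hV P
    have hltc : Pc < p := by rw [hPcP]; exact hlt
    have htrc : Algebra.trdeg L (R ⧸ Pc) ≤ 1 := by
      have := htrP P
      rw [← hV P] at this
      exact this
    let pbar : Ideal (R ⧸ Pc) := p.map (Ideal.Quotient.mk Pc)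
    have hpbar : pbar.IsPrime := Ideal.map_isPrime_of_surjective Ideal.Quotient.mk_surjective
      (by rw [Ideal.mk_ker]; exact hltc.le)
    have hmem : ∀ s : R, Ideal.Quotient.mk Pc s ∈ pbar ↔ s ∈ p := by
      intro s
      have h1 : pbar.comap (Ideal.Quotient.mk Pc) = p := by
        rw [Ideal.comap_map_of_surjective _ Ideal.Quotient.mk_surjective]
        rw [sup_eq_left]
        intro x hx
        have : Ideal.Quotient.mk Pc x = 0 := hx
        exact hltc.le (Ideal.Quotient.eq_zero_iff_mem.mp this)
      rw [← Ideal.mem_comap, h1]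
    have hpbar0 : pbar ≠ ⊥ := by
      intro h
      obtain ⟨x, hx, hx'⟩ := SetLike.exists_of_lt hltc
      have h1 := (hmem x).mpr hx
      rw [h, Ideal.mem_bot, Ideal.Quotient.eq_zero_iff_mem] at h1
      exact hx' h1
    constructor
    · have h1 := trdeg_quotient_add_one_le (L := L) pbar hpbar0
      have h2 : Algebra.trdeg L ((R ⧸ Pc) ⧸ pbar) + 1 ≤ 0 + 1 := by
        rw [zero_add]; exact h1.trans htrc
      have h3 := Cardinal.add_one_le_add_one_iff.mp h2
      have h4 : Algebra.trdeg L ((R ⧸ Pc) ⧸ pbar) = 0 := le_antisymm h3 (zero_le)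
      have h5 : Algebra.IsAlgebraic L ((R ⧸ Pc) ⧸ pbar) := trdeg_eq_zero_iff.mp h4
      intro s
      obtain ⟨q, hq0, hq⟩ := h5.isAlgebraic
        (Ideal.Quotient.mkₐ L pbar (Ideal.Quotient.mkₐ L Pc s))
      refine ⟨q, hq0, ?_⟩
      rw [Polynomial.aeval_algebraMap_apply, ← mem_cen_iff_lt Q' hQ', ← hp, ← hmem]
      rw [Polynomial.aeval_algHom_apply, Polynomial.aeval_algHom_apply] at hq
      exact Ideal.Quotient.eq_zero_iff_mem.mp hq
    · have hL : ∀ a : L, algebraMap L K a ∈ V P := by
        intro a
        rw [IsScalarTower.algebraMap_apply L R K]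
        exact hVS P _
      obtain ⟨e, he⟩ := exists_resEquiv' (L := L) (V P) (hVS P) hL (hval P)
      obtain ⟨w, hwS, hw⟩ := exists_cen_eq (F := Pc.ResidueField) pbar
      let _ := algVal hL
      refine ⟨V P, ⟨P, rfl⟩, hL, w.comap (e.symm : _ →+* _), ⟨?_, ?_⟩, ?_⟩
      · intro a
        rw [ValuationSubring.mem_comap]
        have h1 : (e.symm : IsLocalRing.ResidueField (V P) →+* Pc.ResidueField)
            (algebraMap L _ a) = algebraMap (R ⧸ Pc) _ (algebraMap L (R ⧸ Pc) a) := by
          rw [← IsScalarTower.algebraMap_apply]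
          exact e.symm.commutes a
        rw [h1]
        exact hwS _
      · intro htop
        obtain ⟨x, hx, hx0⟩ := Submodule.exists_mem_ne_zero_of_ne_bot hpbar0
        rw [← hw, mem_cen_iff] at hx
        apply hx.resolve_left hx0
        have h1 : e (algebraMap (R ⧸ Pc) Pc.ResidueField x)⁻¹ ∈ w.comap
          (e.symm : IsLocalRing.ResidueField (V P) →+* Pc.ResidueField) := by
          rw [htop]; exact ValuationSubring.mem_top _
        rw [ValuationSubring.mem_comap] at h1
        have h2 : (e.symm : IsLocalRing.ResidueField (V P) →+* Pc.ResidueField)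
          (e (algebraMap (R ⧸ Pc) Pc.ResidueField x)⁻¹) =
            (algebraMap (R ⧸ Pc) Pc.ResidueField x)⁻¹ := e.symm_apply_apply _
        rwa [h2] at h1
      · intro s hb
        have h1 : IsLocalRing.residue (V P) ⟨algebraMap R K s, hb⟩ =
          e (algebraMap R Pc.ResidueField s) := (he s).symm
        have h2 : (e.symm : IsLocalRing.ResidueField (V P) →+* Pc.ResidueField)
          (IsLocalRing.residue (V P) ⟨algebraMap R K s, hb⟩) =
            algebraMap (R ⧸ Pc) Pc.ResidueField (Ideal.Quotient.mk Pc s) := by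
          rw [h1]
          exact e.symm_apply_apply _
        constructor
        · rw [ValuationSubring.mem_comap, h2]
          exact hwS _
        · rw [val_lt_one_iff, ValuationSubring.mem_comap, map_inv₀, h2, 
            ← mem_cen_iff_lt Q' hQ', ← hp, ← hmem, ← hw, mem_cen_iff]
          apply or_congr _ Iff.rfl
          rw [← map_eq_zero_iff _ (e.symm : IsLocalRing.ResidueField (V P) →+* Pc.ResidueField).injective, h2,
            IsFractionRing.to_map_eq_zero_iff]

end OneRing

section NormalModel

variable {L K : Type u} [Field L] [Field K] [Algebra L K] [CharZero L]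

open scoped nonZeroDivisors in
theorem exists_normal_ring (hess : Algebra.EssFiniteType L K) (B : Subalgebra L K) (hB : B.FG)
    (hfrac : ∀ x : K, ∃ a ∈ B, ∃ b ∈ B, x = a / b) :
    ∃ (R : Type u) (_ : CommRing R) (_ : IsDomain R) (_ : Algebra R K) (_ : IsFractionRing R K)
      (_ : Algebra L R) (_ : IsScalarTower L R K),
      IsNoetherianRing R ∧ IsIntegrallyClosed R ∧ Algebra.FiniteType L R ∧
      (∀ b ∈ B, ∃ r : R, algebraMap R K r = b) ∧
      ∀ Q' : ValuationSubring K, (∀ b ∈ B, b ∈ Q') → ∀ r : R, algebraMap R K r ∈ Q' := by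
  have hBft : Algebra.FiniteType L B := (Subalgebra.fg_iff_finiteType B).mp hB
  have hBfr : IsFractionRing B K := by
    refine IsFractionRing.of_field B K fun z ↦ ?_
    obtain ⟨a, ha, b, hb, h⟩ := hfrac z
    exact ⟨⟨a, ha⟩, ⟨b, hb⟩, h⟩
  obtain ⟨n, g, hginj, hgfin⟩ := exists_finite_inj_algHom_of_fg L B
  let A := MvPolynomial (Fin n) L
  let _ : Algebra A B := g.toRingHom.toAlgebra
  let _ : Algebra A K := ((algebraMap B K).comp g.toRingHom).toAlgebra
  have htABK : IsScalarTower A B K := IsScalarTower.of_algebraMap_eq fun _ => rfl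
  have hgA : ∀ a : A, algebraMap A B a = g a := fun _ => rfl
  have htLAB : IsScalarTower L A B := IsScalarTower.of_algebraMap_eq fun a => by
    rw [hgA]; exact (g.commutes a).symm
  have htLAK : IsScalarTower L A K := IsScalarTower.of_algebraMap_eq fun a => by
    rw [IsScalarTower.algebraMap_apply A B K, ← IsScalarTower.algebraMap_apply L A B]
    rfl
  have hinjAK : Function.Injective (algebraMap A K) := by
    rw [IsScalarTower.algebraMap_eq A B K]
    exact (IsFractionRing.injective B K).comp hginj
  have : FaithfulSMul A K := (faithfulSMul_iff_algebraMap_injective A K).mpr hinjAK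
  have hfinAB : Module.Finite A B := hgfin
  let k0 := FractionRing A
  let _ : Algebra k0 K := FractionRing.liftAlgebra A K
  have : IsScalarTower A k0 K := FractionRing.isScalarTower_liftAlgebra A K
  have htLkK : IsScalarTower L k0 K := IsScalarTower.of_algebraMap_eq fun a => by
    rw [IsScalarTower.algebraMap_apply L A K, IsScalarTower.algebraMap_apply A k0 K,
      IsScalarTower.algebraMap_apply L A k0]
  have hessk : Algebra.EssFiniteType k0 K := Algebra.EssFiniteType.of_comp L k0 K
  have halgAB : Algebra.IsAlgebraic A B := inferInstance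
  have halgBK : Algebra.IsAlgebraic B K := IsLocalization.isAlgebraic _ (nonZeroDivisors _)
  have halgAK : Algebra.IsAlgebraic A K := Algebra.IsAlgebraic.trans A B K
  have halgkK : Algebra.IsAlgebraic k0 K := IsFractionRing.comap_isAlgebraic_iff.mp halgAK
  have hfd : FiniteDimensional k0 K := by
    obtain ⟨s, hs⟩ := IntermediateField.fg_top k0 K
    have h6 : FiniteDimensional k0 (adjoin k0 (s : Set K)) :=
      IntermediateField.finiteDimensional_adjoin fun x _ => (Algebra.IsIntegral.isIntegral x)
    rw [hs] at h6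
    exact Module.Finite.equiv (IntermediateField.topEquiv (F := k0) (E := K)).toLinearEquiv
  have hczk : CharZero k0 := charZero_of_injective_algebraMap (algebraMap L k0).injective
  let R := integralClosure A K
  have hfinR : Module.Finite A R := IsIntegralClosure.finite A k0 K R
  have hnoeth : IsNoetherianRing R := IsIntegralClosure.isNoetherianRing A k0 K R
  have hfrR : IsFractionRing R K :=
    IsIntegralClosure.isFractionRing_of_finite_extension A k0 K R
  have hicR : IsIntegrallyClosed R := integralClosure.isIntegrallyClosedOfFiniteExtension k0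
  have htow : IsScalarTower L R K := IsScalarTower.of_algebraMap_eq fun a => by
    rw [IsScalarTower.algebraMap_apply L A K, IsScalarTower.algebraMap_apply L A R,
      ← IsScalarTower.algebraMap_apply A R K]
  refine ⟨R, inferInstance, inferInstance, inferInstance, hfrR, inferInstance, htow, hnoeth,
    hicR, Algebra.FiniteType.trans (S := A) inferInstance inferInstance, ?_, ?_⟩
  · intro b hb
    have h1 : IsIntegral A (⟨b, hb⟩ : B) := Algebra.IsIntegral.isIntegral _
    have h2 : IsIntegral A b := h1.map (IsScalarTower.toAlgHom A B K)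
    exact ⟨⟨b, h2⟩, rfl⟩
  · intro Q' hQ' r
    have hA : ∀ a : A, algebraMap A K a ∈ Q' := fun a => hQ' _ (g a).2
    let _ : Algebra A Q' := (RingHom.codRestrict (algebraMap A K) Q'.toSubring hA).toAlgebra
    have : IsScalarTower A Q' K := IsScalarTower.of_algebraMap_eq fun _ => rfl
    have hr : IsIntegral A (r : K) := r.2
    have hs' : IsIntegral Q' (r : K) := hr.tower_top
    obtain ⟨y, hy⟩ := IsIntegrallyClosed.isIntegral_iff.mp hs'
    have : algebraMap R K r = (y : K) := hy.symm
    rw [this]; exact y.2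

end NormalModel

/-- `K / L` is finitely generated of transcendence degree two, `t ∈ K` is not zero and `B` is a
finitely generated subalgebra of `K`. There is a finite set `𝒬` of discrete valuation rings
containing `B`, in whose maximal ideal `t` lies, such that the center on `B` of every valuation ring
`Q'` containing `B`, in whose maximal ideal `t` lies, and which is not in `𝒬`, is a closed point
which is the center of a place of the residue field of an element of `𝒬`. -/
theorem exists_model {L K : Type u} [Field L] [Field K] [Algebra L K] [CharZero L]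
    (hess : Algebra.EssFiniteType L K) (htr : Algebra.trdeg L K = 2) {t : K} (ht : t ≠ 0)
    (B : Subalgebra L K) (hB : B.FG) :
    ∃ 𝒬 : Set (ValuationSubring K), 𝒬.Finite ∧
      (∀ Q ∈ 𝒬, (∀ b ∈ B, b ∈ Q) ∧ t ∈ Q ∧ t⁻¹ ∉ Q ∧ IsDiscreteValuationRing Q ∧
        ∀ hL : (∀ a : L, algebraMap L K a ∈ Q), letI := algVal hL
          Algebra.EssFiniteType L (IsLocalRing.ResidueField Q) ∧
            Algebra.trdeg L (IsLocalRing.ResidueField Q) ≤ 1) ∧
      ∀ Q' : ValuationSubring K, (∀ b ∈ B, b ∈ Q') → t ∈ Q' → t⁻¹ ∉ Q' → Q' ∉ 𝒬 →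
        (∀ b ∈ B, ∃ p : Polynomial L, p ≠ 0 ∧ Q'.valuation (Polynomial.aeval b p) < 1) ∧
        ∃ Q ∈ 𝒬, ∃ (hL : ∀ a : L, algebraMap L K a ∈ Q)
          (v : ValuationSubring (IsLocalRing.ResidueField Q)),
          (letI := algVal hL; IsPlace L v) ∧
          ∀ b (hb : b ∈ Q), b ∈ B → IsLocalRing.residue Q ⟨b, hb⟩ ∈ v ∧
            (v.valuation (IsLocalRing.residue Q ⟨b, hb⟩) < 1 ↔ Q'.valuation b < 1) := by
  classical
  obtain ⟨s, hs⟩ := IntermediateField.fg_top L K
  obtain ⟨T, hT⟩ := hB
  let gens : Finset K → Finset K := fun ε =>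
    T ∪ {t} ∪ ε ∪ (s \ ε).image (fun z => z⁻¹)
  let Bε : Finset K → Subalgebra L K := fun ε => Algebra.adjoin L (gens ε : Set K)
  have hTB : ∀ ε, B ≤ Bε ε := by
    intro ε
    rw [← hT]
    apply Algebra.adjoin_mono
    intro x hx
    simp only [gens, Finset.coe_union, Set.mem_union]
    left; left; left; exact hx
  have htB : ∀ ε, t ∈ Bε ε := by
    intro ε
    apply Algebra.subset_adjoin
    simp [gens]
  have hfrac : ∀ ε ⊆ s, ∀ x : K, ∃ a ∈ Bε ε, ∃ b ∈ Bε ε, x = a / b := by
    intro ε hε x
    rw [← IntermediateField.mem_adjoin_iff_div]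
    have htop : adjoin L (gens ε : Set K) = ⊤ := by
      rw [eq_top_iff, ← hs, IntermediateField.adjoin_le_iff]
      intro z hz
      by_cases hzε : z ∈ ε
      · apply IntermediateField.subset_adjoin
        simp only [gens, Finset.coe_union, Set.mem_union]
        left; right; exact hzε
      · have h1 : z⁻¹ ∈ adjoin L (gens ε : Set K) := by
          apply IntermediateField.subset_adjoin
          simp only [gens, Finset.coe_union, Set.mem_union]
          right
          rw [Finset.mem_coe, Finset.mem_image]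
          exact ⟨z, Finset.mem_sdiff.mpr ⟨hz, hzε⟩, rfl⟩
        have h2 := inv_mem h1
        rwa [inv_inv] at h2
    rw [htop]; trivial
  have key : ∀ ε ∈ s.powerset, ∃ 𝒬 : Set (ValuationSubring K), 𝒬.Finite ∧
      (∀ Q ∈ 𝒬, (∀ b ∈ B, b ∈ Q) ∧ t ∈ Q ∧ t⁻¹ ∉ Q ∧ IsDiscreteValuationRing Q ∧
        ∀ hL : (∀ a : L, algebraMap L K a ∈ Q), letI := algVal hL
          Algebra.EssFiniteType L (IsLocalRing.ResidueField Q) ∧
            Algebra.trdeg L (IsLocalRing.ResidueField Q) ≤ 1) ∧
      ∀ Q' : ValuationSubring K, (∀ b ∈ Bε ε, b ∈ Q') → t ∈ Q' → t⁻¹ ∉ Q' → Q' ∉ 𝒬 →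
        (∀ b ∈ B, ∃ p : Polynomial L, p ≠ 0 ∧ Q'.valuation (Polynomial.aeval b p) < 1) ∧
        ∃ Q ∈ 𝒬, ∃ (hL : ∀ a : L, algebraMap L K a ∈ Q)
          (v : ValuationSubring (IsLocalRing.ResidueField Q)),
          (letI := algVal hL; IsPlace L v) ∧
          ∀ b (hb : b ∈ Q), b ∈ B → IsLocalRing.residue Q ⟨b, hb⟩ ∈ v ∧
            (v.valuation (IsLocalRing.residue Q ⟨b, hb⟩) < 1 ↔ Q'.valuation b < 1) := by
    intro ε hε
    obtain ⟨R, _, _, _, _, _, _, hnoeth, hic, hft, hBR, hQR⟩ :=
      exists_normal_ring hess (Bε ε) ⟨gens ε, rfl⟩ (hfrac ε (Finset.mem_powerset.mp hε))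
    obtain ⟨t', ht'⟩ := hBR t (htB ε)
    have ht'0 : t' ≠ 0 := by
      rintro rfl
      apply ht
      rw [← ht', map_zero]
    obtain ⟨𝒬, hfin, h1, h2⟩ := one_ring (L := L) (K := K) htr ht'0
    rw [ht'] at h1 h2
    refine ⟨𝒬, hfin, ?_, ?_⟩
    · intro Q hQ
      obtain ⟨h3, h4, h5, h6⟩ := h1 Q hQ
      refine ⟨?_, ?_, h4, h5, h6⟩
      · intro b hb
        obtain ⟨r, hr⟩ := hBR b (hTB ε hb)
        rw [← hr]; exact h3 r
      · rw [← ht']; exact h3 t'
    · intro Q' hQ' htQ' htQ'' hnot
      obtain ⟨h3, Q, hQ, hL, v, hv, h4⟩ := h2 Q' (hQR Q' hQ') htQ'' hnot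
      refine ⟨?_, Q, hQ, hL, v, hv, ?_⟩
      · intro b hb
        obtain ⟨r, hr⟩ := hBR b (hTB ε hb)
        obtain ⟨p, hp0, hp⟩ := h3 r
        rw [hr] at hp
        exact ⟨p, hp0, hp⟩
      · intro b hb hbB
        obtain ⟨r, rfl⟩ := hBR b (hTB ε hbB)
        exact h4 r hb
  choose! 𝒬 h𝒬 using key
  refine ⟨⋃ ε ∈ s.powerset, 𝒬 ε, ?_, ?_, ?_⟩
  · exact Set.Finite.biUnion (Finset.finite_toSet _) fun ε hε => (h𝒬 ε hε).1
  · intro Q hQ
    simp only [Set.mem_iUnion] at hQ
    obtain ⟨ε, hε, hQε⟩ := hQ
    exact (h𝒬 ε hε).2.1 Q hQε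
  · intro Q' hBQ' htQ' htQ'' hnot
    let ε : Finset K := s.filter (· ∈ Q')
    have hε : ε ∈ s.powerset := Finset.mem_powerset.mpr (Finset.filter_subset _ _)
    have hBε : ∀ b ∈ Bε ε, b ∈ Q' := by
      have hL : ∀ a : L, algebraMap L K a ∈ Q' := fun a => hBQ' _ (B.algebraMap_mem a)
      let vs : Subalgebra L K := { Q'.toSubring with algebraMap_mem' := hL }
      have h1 : Bε ε ≤ vs := by
        rw [Algebra.adjoin_le_iff]
        intro x hx
        change x ∈ Q'
        simp only [gens, Finset.coe_union, Set.mem_union, Finset.mem_coe, Finset.mem_image,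
          Finset.mem_singleton] at hx
        rcases hx with ((hx | hx) | hx) | hx
        · apply hBQ'
          rw [← hT]
          exact Algebra.subset_adjoin hx
        · rw [hx]; exact htQ'
        · exact (Finset.mem_filter.mp hx).2
        · obtain ⟨z, hz, rfl⟩ := hx
          rw [Finset.mem_sdiff, Finset.mem_filter] at hz
          apply (Q'.mem_or_inv_mem z).resolve_left
          intro h
          exact hz.2 ⟨hz.1, h⟩
      exact fun b hb => h1 hb
    have hnot' : Q' ∉ 𝒬 ε := by
      intro h
      apply hnot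
      simp only [Set.mem_iUnion]
      exact ⟨ε, hε, h⟩
    obtain ⟨h3, Q, hQ, h4⟩ := (h𝒬 ε hε).2.2 Q' hBε htQ' htQ'' hnot'
    refine ⟨h3, Q, ?_, h4⟩
    simp only [Set.mem_iUnion]
    exact ⟨ε, hε, hQ⟩

end Pool.Agent.Lib.MP_cc17a8_ag.Gen
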