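import Mathlib
import Pool.Agent.Lib.MP_cc17a8_ag.CurveDegree
import Pool.Agent.Lib.MP_cc17a8_ag.Gen.Places

/-!
# Degrees of Cartier divisors along points with values in a function field over arbitrary constants
-/

open AlgebraicGeometry CategoryTheory

universe u

namespace Pool.Agent.Lib.MP_cc17a8_ag.Gen

section

variable {k L F : Type u} [Field k] [Field L] [Field F] [Algebra L F] [CharZero L]
  {X : Scheme.{u}} [IsIntegral X] {f : X ⟶ Spec (.of k)} [IsProper f] {x : X}
  {g : X.presheaf.stalk x →+* F} [IsLocalHom g]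

/-- The degree of a Cartier divisor along an `F`-valued point, where `F` is a function field of one
variable over `L`. -/
noncomputable def wdegree (L : Type u) {F : Type u} [Field L] [Field F] [Algebra L F]
    {X : Scheme.{u}} [IsIntegral X] {x : X} (g : X.presheaf.stalk x →+* F)
    (D : CartierDivisor X) : ℤ :=
  ∑ᶠ v ∈ {v : ValuationSubring F | IsPlace L v},
    ordAt v (evalAt g (D.eqn (center g v) / D.eqn x)) * (resDeg L v : ℤ)

theorem finite_support_term (hg : GoodPoint f g L) (D : CartierDivisor X) :
    {v : ValuationSubring F | IsPlace L v ∧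
      ordAt v (evalAt g (D.eqn (center g v) / D.eqn x)) ≠ 0}.Finite := by
  choose U hxU hU using D.compat
  have hc : CompactSpace X := by
    have : QuasiCompact f := inferInstance
    exact QuasiCompact.compactSpace_of_compactSpace f
  obtain ⟨t, ht⟩ := hc.elim_nhds_subcover (fun y => (U y : Set X))
    (fun y => (U y).2.mem_nhds (hxU y))
  have h1 : {v : ValuationSubring F | IsPlace L v ∧
      ordAt v (evalAt g (D.eqn (center g v) / D.eqn x)) ≠ 0} ⊆
      ⋃ y ∈ t, {v : ValuationSubring F | IsPlace L v ∧ ordAt v (evalAt g (D.eqn y / D.eqn x)) ≠ 0} := by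
    rintro v ⟨hv, hne⟩
    have hcen := hg.isCenter hv
    have := isDVR hg.ff hv
    have h2 : center g v ∈ ⋃ y ∈ t, (U y : Set X) := by rw [ht]; trivial
    rw [Set.mem_iUnion₂] at h2 ⊢
    obtain ⟨y, hyt, hy⟩ := h2
    refine ⟨y, hyt, hv, ?_⟩
    intro h3
    apply hne
    obtain ⟨hsp, -⟩ := id hcen
    have hxy : IsUnitAt x (D.eqn y / D.eqn x) := hU y x (hsp.mem_open (U y).2 hy)
    have hcy : IsUnitAt (center g v) (D.eqn y / D.eqn (center g v)) := hU y _ hy
    have h4 : D.eqn (center g v) / D.eqn x =
        (D.eqn y / D.eqn (center g v))⁻¹ * (D.eqn y / D.eqn x) := by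
      have h1 := D.ne_zero y
      have h2 := D.ne_zero (center g v)
      have h3 := D.ne_zero x
      field_simp
    rw [h4, evalAt_mul g (hcy.inv.specializes hsp).isRegularAt hxy.isRegularAt,
      ordAt_mul v (evalAt_ne_zero g (hcy.inv.specializes hsp)) (evalAt_ne_zero g hxy), h3, add_zero]
    apply ordAt_eq_zero
    · exact hcen.mem hcy.inv.isRegularAt
    · rw [← evalAt_inv g (hcy.inv.specializes hsp), inv_inv]
      exact hcen.mem hcy.isRegularAt
  refine Set.Finite.subset ?_ h1
  exact Set.Finite.biUnion t.finite_toSet fun y _ => finite_support hg.ff _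

theorem finite_support_mul {w : ValuationSubring F → ℤ} {a : ValuationSubring F → ℤ}
    (h : {v : ValuationSubring F | IsPlace L v ∧ a v ≠ 0}.Finite) :
    ({v : ValuationSubring F | IsPlace L v} ∩ Function.support fun v => a v * w v).Finite := by
  refine h.subset ?_
  rintro v ⟨hv, hne⟩
  exact ⟨hv, left_ne_zero_of_mul hne⟩

/-- The terms of the degree computed with a rational section not vanishing at `x`. -/
theorem ordAt_section (hg : GoodPoint f g L) (D : CartierDivisor X) {s : X.functionField}
    (hs : IsUnitAt x (s * D.eqn x)) {v : ValuationSubring F} (hv : IsPlace L v) :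
    ordAt v (evalAt g (s * D.eqn (center g v))) =
      ordAt v (evalAt g (s * D.eqn x)) + ordAt v (evalAt g (D.eqn (center g v) / D.eqn x)) := by
  have hcen := hg.isCenter hv
  have := isDVR hg.ff hv
  obtain ⟨hsp, -⟩ := id hcen
  have h1 : s * D.eqn (center g v) = (s * D.eqn x) * (D.eqn (center g v) / D.eqn x) := by
    have := D.ne_zero x
    field_simp
  have h2 := D.isUnitAt_div hsp
  rw [h1, evalAt_mul g hs.isRegularAt h2.isRegularAt,
    ordAt_mul v (evalAt_ne_zero g hs) (evalAt_ne_zero g h2)]

theorem finite_support_section (hg : GoodPoint f g L) (D : CartierDivisor X)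
    {s : X.functionField} (hs : IsUnitAt x (s * D.eqn x)) :
    {v : ValuationSubring F | IsPlace L v ∧
      ordAt v (evalAt g (s * D.eqn (center g v))) ≠ 0}.Finite := by
  refine ((finite_support hg.ff (evalAt g (s * D.eqn x))).union
    (finite_support_term hg D)).subset ?_
  rintro v ⟨hv, hne⟩
  rw [ordAt_section hg D hs hv] at hne
  by_contra hcon
  simp only [Set.mem_union, Set.mem_ofPred_eq, not_or, not_and, not_not] at hcon
  apply hne
  rw [hcon.1 hv, hcon.2 hv, add_zero]

/-- The degree can be computed with any rational section not vanishing at `x`. -/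
theorem wdegree_eq (hg : GoodPoint f g L) (D : CartierDivisor X)
    {s : X.functionField} (hs : IsUnitAt x (s * D.eqn x)) :
    wdegree L g D = ∑ᶠ v ∈ {v : ValuationSubring F | IsPlace L v},
      ordAt v (evalAt g (s * D.eqn (center g v))) * (resDeg L v : ℤ) := by
  have h1 : ∑ᶠ v ∈ {v : ValuationSubring F | IsPlace L v},
      ordAt v (evalAt g (s * D.eqn (center g v))) * (resDeg L v : ℤ) =
      ∑ᶠ v ∈ {v : ValuationSubring F | IsPlace L v},
        (ordAt v (evalAt g (s * D.eqn x)) * (resDeg L v : ℤ) +
        ordAt v (evalAt g (D.eqn (center g v) / D.eqn x)) * (resDeg L v : ℤ)) :=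
    finsum_mem_congr rfl fun v hv => by rw [ordAt_section hg D hs hv, add_mul]
  rw [h1, finsum_mem_add_distrib', sum_ordAt hg.ff, zero_add, wdegree]
  · exact finite_support_mul (finite_support hg.ff _)
  · exact finite_support_mul (finite_support_term hg D)

theorem wdegree_nonneg (hg : GoodPoint f g L) (D : CartierDivisor X)
    {s : X.functionField} (hs : IsUnitAt x (s * D.eqn x))
    (hreg : ∀ v, IsPlace L v → IsRegularAt (center g v) (s * D.eqn (center g v))) :
    0 ≤ wdegree L g D := by
  rw [wdegree_eq hg D hs]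
  refine finsum_mem_induction (fun z => 0 ≤ z) le_rfl (fun _ _ => add_nonneg) ?_
  intro v hv
  have := isDVR hg.ff hv
  exact mul_nonneg (ordAt_nonneg v ((hg.isCenter hv).mem (hreg v hv))) (Nat.cast_nonneg _)

theorem wdegree_pos (hg : GoodPoint f g L) (D : CartierDivisor X)
    {s : X.functionField} (hs : IsUnitAt x (s * D.eqn x))
    (hreg : ∀ v, IsPlace L v → IsRegularAt (center g v) (s * D.eqn (center g v)))
    (hnu : ∃ v, IsPlace L v ∧ ¬ IsUnitAt (center g v) (s * D.eqn (center g v))) :
    0 < wdegree L g D := by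
  rw [wdegree_eq hg D hs]
  have hfin := finite_support_mul (w := fun v => (resDeg L v : ℤ)) (finite_support_section hg D hs)
  rw [finsum_mem_eq_sum (s := {v | IsPlace L v}) _ hfin]
  have hterm : ∀ v ∈ hfin.toFinset, 0 ≤ ordAt v (evalAt g (s * D.eqn (center g v))) *
      (resDeg L v : ℤ) := by
    intro v hv
    rw [Set.Finite.mem_toFinset] at hv
    have := isDVR hg.ff hv.1
    exact mul_nonneg (ordAt_nonneg v ((hg.isCenter hv.1).mem (hreg v hv.1))) (Nat.cast_nonneg _)
  obtain ⟨w, hw, hwu⟩ := hnu
  have hDVR := isDVR hg.ff hw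
  have hc := hg.isCenter hw
  obtain ⟨hsp, -⟩ := id hc
  have hne : evalAt g (s * D.eqn (center g w)) ≠ 0 := by
    have h1 : s * D.eqn (center g w) = (s * D.eqn x) * (D.eqn (center g w) / D.eqn x) := by
      have := D.ne_zero x
      field_simp
    rw [h1]
    exact evalAt_ne_zero g (hs.mul (D.isUnitAt_div hsp))
  have hpos : 0 < ordAt w (evalAt g (s * D.eqn (center g w))) * (resDeg L w : ℤ) :=
    mul_pos (ordAt_pos w (hc.mem (hreg w hw)) hne (hc.inv_notMem (hreg w hw) hwu hne))
      (by exact_mod_cast resDeg_pos hg.ff hw)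
  refine Finset.sum_pos' hterm ⟨w, ?_, hpos⟩
  rw [Set.Finite.mem_toFinset]
  exact ⟨hw, hpos.ne'⟩

theorem wdegree_add (hg : GoodPoint f g L) (D E : CartierDivisor X) :
    wdegree L g (D + E) = wdegree L g D + wdegree L g E := by
  rw [wdegree, wdegree, wdegree, ← finsum_mem_add_distrib']
  · apply finsum_mem_congr rfl
    intro v hv
    have hc := hg.isCenter hv
    have := isDVR hg.ff hv
    obtain ⟨hsp, -⟩ := id hc
    rw [CartierDivisor.add_eqn, CartierDivisor.add_eqn, mul_div_mul_comm,
      evalAt_mul g (D.isUnitAt_div hsp).isRegularAt (E.isUnitAt_div hsp).isRegularAt,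
      ordAt_mul v (evalAt_ne_zero g (D.isUnitAt_div hsp)) (evalAt_ne_zero g (E.isUnitAt_div hsp)),
      add_mul]
  · exact finite_support_mul (finite_support_term hg D)
  · exact finite_support_mul (finite_support_term hg E)

/-- The degree as an additive homomorphism. -/
noncomputable def wdegreeHom (hg : GoodPoint f g L) : CartierDivisor X →+ ℤ :=
  AddMonoidHom.mk' (wdegree L g) (wdegree_add hg)

theorem wdegree_nsmul (hg : GoodPoint f g L) (D : CartierDivisor X) (n : ℕ) :
    wdegree L g (n • D) = n * wdegree L g D := by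
  have := map_nsmul (wdegreeHom hg) n D
  rw [nsmul_eq_mul] at this
  exact this

theorem wdegree_zsmul (hg : GoodPoint f g L) (D : CartierDivisor X) (n : ℤ) :
    wdegree L g (n • D) = n * wdegree L g D := by
  have := map_zsmul (wdegreeHom hg) n D
  rw [zsmul_eq_mul] at this
  exact this

theorem wdegree_neg (hg : GoodPoint f g L) (D : CartierDivisor X) :
    wdegree L g (-D) = - wdegree L g D :=
  map_neg (wdegreeHom hg) D

theorem wdegree_sub (hg : GoodPoint f g L) (D E : CartierDivisor X) :
    wdegree L g (D - E) = wdegree L g D - wdegree L g E :=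
  map_sub (wdegreeHom hg) D E

theorem wdegree_eq_zero (hg : GoodPoint f g L) (D : CartierDivisor X)
    {s : X.functionField} (hs : IsUnitAt x (s * D.eqn x))
    (hu : ∀ v, IsPlace L v → IsUnitAt (center g v) (s * D.eqn (center g v))) :
    wdegree L g D = 0 := by
  rw [wdegree_eq hg D hs]
  apply finsum_mem_eq_zero_of_forall_eq_zero
  intro v hv
  have := isDVR hg.ff hv
  have hc := hg.isCenter hv
  obtain ⟨hsp, -⟩ := id hc
  rw [ordAt_eq_zero v (hc.mem (hu v hv).isRegularAt), zero_mul]
  rw [← evalAt_inv g ((hu v hv).specializes hsp)]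
  exact hc.mem (hu v hv).inv.isRegularAt

theorem isAlgebraic_of_forall_mem (hF : IsFunctionField L F) {y : F}
    (hy : ∀ v : ValuationSubring F, IsPlace L v → y ∈ v) : IsAlgebraic L y := by
  by_contra hcon
  have hfd : FiniteDimensional (IntermediateField.adjoin L {y}) F := hF.finiteDimensional hcon
  have h := sum_poles hF hcon
  have h1 : {v : ValuationSubring F | IsPlace L v ∧ y ∉ v} = ∅ := by
    ext v
    simp only [Set.mem_ofPred_eq, Set.mem_empty_iff_false, iff_false, not_and, not_not]
    exact hy v
  rw [h1, finsum_mem_empty] at h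
  have h3 : 0 < Module.finrank (IntermediateField.adjoin L {y}) F := Module.finrank_pos
  omega

theorem wdegree_ample_pos (hg : GoodPoint f g L) {A : CartierDivisor X} (hA : A.IsAmple)
    (hnc : ∃ a, Transcendental L (g a)) : 0 < wdegree L g A := by
  obtain ⟨n, hn, s, hs, U, hU, hxU, hUs⟩ := hA x
  have hne : Nonempty U := ⟨⟨x, hxU⟩⟩
  have key : 0 < wdegree L g (n • A) := by
    apply wdegree_pos hg (n • A) (s := s)
    · rw [CartierDivisor.nsmul_eqn, ← hUs]; exact hxU
    · intro v hv
      rw [CartierDivisor.nsmul_eqn]; exact hs _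
    · by_contra hcon
      push Not at hcon
      simp only [CartierDivisor.nsmul_eqn, ← hUs] at hcon
      obtain ⟨a, ha⟩ := hnc
      apply ha
      obtain ⟨b, r, hr, hbr⟩ := exists_frac_of_isRegularAt hU hxU (h := algebraMap _ _ a) ⟨a, rfl⟩
      have h1 : ∀ b : Γ(X, U), IsAlgebraic L (evalAt g (algebraMap Γ(X, U) X.functionField b)) := by
        intro b
        apply isAlgebraic_of_forall_mem hg.ff
        intro v hv
        exact (hg.isCenter hv).mem (isRegularAt_section (hcon v hv) b)
      have h2 := congrArg (evalAt g) hbr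
      rw [evalAt_mul g ⟨a, rfl⟩ hr.isRegularAt, evalAt_algebraMap] at h2
      have h3 : g a = evalAt g (algebraMap Γ(X, U) X.functionField b) *
          (evalAt g (algebraMap Γ(X, U) X.functionField r))⁻¹ := by
        rw [← div_eq_mul_inv, eq_div_iff (evalAt_ne_zero g hr)]
        exact h2
      rw [h3]
      exact (h1 b).mul (h1 r).inv
  rw [wdegree_nsmul hg] at key
  exact (pos_iff_pos_of_mul_pos key).mp (by exact_mod_cast hn)

end

end Pool.Agent.Lib.MP_cc17a8_ag.Gen
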