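import Mathlib
import Pool.Agent.Lib.MP_cc17a8_ag.Gen.Degree

open AlgebraicGeometry CategoryTheory

universe u

namespace Pool.Agent.Lib.MP_cc17a8_ag.Gen

section ResPt

variable {X : Scheme.{u}} {K : Type u} [Field K] {x : X}
  {g : X.presheaf.stalk x →+* K} [IsLocalHom g] {Q : ValuationSubring K} {c : X}

/-- The point with values in the residue field of `Q` defined by a `K`-valued point with center
`c` on `X`. -/
noncomputable def resPt (hc : IsCenter g Q c) :
    X.presheaf.stalk c →+* IsLocalRing.ResidueField Q :=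
  (IsLocalRing.residue Q).comp ((g.comp (X.presheaf.stalkSpecializes hc.choose).hom).codRestrict
    Q.toSubring fun s => (Q.valuation_le_one_iff _).mp (hc.choose_spec s).1)

omit [IsLocalHom g] in
theorem resPt_apply (hc : IsCenter g Q c) (s : X.presheaf.stalk c)
    (hs : g (X.presheaf.stalkSpecializes hc.choose s) ∈ Q) :
    resPt hc s = IsLocalRing.residue Q ⟨g (X.presheaf.stalkSpecializes hc.choose s), hs⟩ := rfl

theorem residue_eq_zero_iff_val {K : Type u} [Field K] (Q : ValuationSubring K) (a : Q) :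
    IsLocalRing.residue Q a = 0 ↔ Q.valuation a < 1 := by
  rw [IsLocalRing.residue_eq_zero_iff]
  exact Q.valuation_lt_one_iff a

instance isLocalHom_resPt (hc : IsCenter g Q c) : IsLocalHom (resPt hc) := by
  constructor
  intro s hs
  by_contra hcon
  have h1 := (hc.choose_spec s).2 hcon
  have h2 : resPt hc s = 0 := by
    rw [resPt_apply hc s ((Q.valuation_le_one_iff _).mp (hc.choose_spec s).1),
      residue_eq_zero_iff_val]
    exact h1
  rw [h2] at hs
  exact not_isUnit_zero hs

omit [IsLocalHom g] in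
theorem evalAt_resPt [IsIntegral X] (hc : IsCenter g Q c) {r : X.functionField}
    (hr : IsRegularAt c r) :
    evalAt (resPt hc) r = IsLocalRing.residue Q ⟨evalAt g r, hc.mem hr⟩ := by
  obtain ⟨a, rfl⟩ := hr
  rw [evalAt_algebraMap, resPt_apply hc a ((Q.valuation_le_one_iff _).mp (hc.choose_spec a).1)]
  congr 1
  apply Subtype.ext
  change g _ = evalAt g _
  rw [← algebraMap_stalkSpecializes hc.choose, evalAt_algebraMap]

end ResPt

section Const

variable {k L F : Type u} [Field k] [Field L] [Field F] [Algebra L F] [CharZero L]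
  {X : Scheme.{u}} [IsIntegral X] {f : X ⟶ Spec (.of k)} [IsProper f] {x : X}
  {g : X.presheaf.stalk x →+* F} [IsLocalHom g]

/-- The degree along a constant point is zero. -/
theorem wdegree_const (hg : GoodPoint f g L) (hc : ∀ a, IsAlgebraic L (g a))
    (D : CartierDivisor X) : wdegree L g D = 0 := by
  apply wdegree_eq_zero hg D (s := (D.eqn x)⁻¹)
  · rw [inv_mul_cancel₀ (D.ne_zero _)]; exact isUnitAt_one _
  · intro v hv
    have hcen : center g v = x := by
      apply IsCenter.center_eq f
      apply isCenter_self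
      intro s
      exact mem_of_isAlgebraic hv.1 (hc s)
    rw [hcen, inv_mul_cancel₀ (D.ne_zero _)]
    exact isUnitAt_one _

end Const

section Chart

variable {k K : Type u} [Field k] [Field K] {X : Scheme.{u}} [IsIntegral X] {x : X}
  {g : X.presheaf.stalk x →+* K} [IsLocalHom g] {U : X.Opens}

/-- The center of a valuation in an affine chart. -/
theorem isCenter_of_chart (hU : IsAffineOpen U) [Nonempty U] (hx : x ∈ U)
    {v : ValuationSubring K} {c : X} (hcU : c ∈ U)
    (h1 : ∀ b : Γ(X, U), evalAt g (algebraMap Γ(X, U) X.functionField b) ∈ v)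
    (h2 : ∀ b : Γ(X, U), ¬ IsUnitAt c (algebraMap Γ(X, U) X.functionField b) ↔
      v.valuation (evalAt g (algebraMap Γ(X, U) X.functionField b)) < 1) :
    IsCenter g v c := by
  have hsp : x ⤳ c := by
    rw [specializes_iff_forall_open]
    intro W hW hcW
    obtain ⟨r, hrW, hcr⟩ := hU.exists_basicOpen_le (V := ⟨W, hW⟩) ⟨c, hcW⟩ hcU
    apply hrW
    rw [← isUnitAt_section_iff hx r]
    have h3 : IsUnitAt c (algebraMap Γ(X, U) X.functionField r) :=
      (isUnitAt_section_iff hcU r).mpr hcr
    have h4 := (not_congr (h2 r)).mp (not_not.mpr h3)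
    have h5 : evalAt g (algebraMap Γ(X, U) X.functionField r) ≠ 0 := by
      intro h0
      rw [h0, map_zero] at h4
      exact h4 zero_lt_one
    obtain ⟨a, ha⟩ := isRegularAt_section hx r
    rw [← ha, evalAt_algebraMap] at h5
    exact ⟨a, isUnit_of_map_unit g a (isUnit_iff_ne_zero.mpr h5), ha⟩
  refine ⟨hsp, fun s => ?_⟩
  obtain ⟨b, r, hr, hbr⟩ := exists_frac_of_isRegularAt hU hcU
    (h := algebraMap (X.presheaf.stalk c) X.functionField s) ⟨s, rfl⟩
  have hrx : IsUnitAt x (algebraMap Γ(X, U) X.functionField r) := hr.specializes hsp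
  have hs : evalGerm g hsp s = evalAt g (algebraMap (X.presheaf.stalk c) X.functionField s) := by
    rw [← algebraMap_stalkSpecializes hsp, evalAt_algebraMap]
    rfl
  have hval : v.valuation (evalAt g (algebraMap Γ(X, U) X.functionField r)) = 1 := by
    have h3 := (not_congr (h2 r)).mp (not_not.mpr hr)
    exact le_antisymm ((v.valuation_le_one_iff _).mpr (h1 r)) (not_lt.mp h3)
  have heq := congrArg (evalAt g) hbr
  rw [evalAt_mul g ⟨_, algebraMap_stalkSpecializes hsp s⟩ hrx.isRegularAt] at heq
  have heq2 := congrArg v.valuation heq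
  rw [map_mul, hval, mul_one, ← hs] at heq2
  rw [heq2]
  refine ⟨(v.valuation_le_one_iff _).mpr (h1 b), fun hns => ?_⟩
  rw [← h2]
  intro hb
  apply hns
  rw [← hbr] at hb
  have h6 : IsUnitAt c (algebraMap (X.presheaf.stalk c) X.functionField s) :=
    IsRegularAt.isUnitAt_of_mul ⟨s, rfl⟩ hr.isRegularAt hb
  obtain ⟨a, ha, hab⟩ := h6
  rw [← stalk_injective c hab]
  exact ha

/-- The point of an affine chart defined by a valuation. -/
theorem exists_isCenter_chart (hU : IsAffineOpen U) [Nonempty U] (hx : x ∈ U)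
    {v : ValuationSubring K}
    (h1 : ∀ b : Γ(X, U), evalAt g (algebraMap Γ(X, U) X.functionField b) ∈ v) :
    ∃ c ∈ U, IsCenter g v c ∧
      ∀ b : Γ(X, U), ¬ IsUnitAt c (algebraMap Γ(X, U) X.functionField b) ↔
        v.valuation (evalAt g (algebraMap Γ(X, U) X.functionField b)) < 1 := by
  let φ : Γ(X, U) →+* K := g.comp (X.presheaf.germ U x hx).hom
  have hφ : ∀ b, φ b = evalAt g (algebraMap Γ(X, U) X.functionField b) := by
    intro b
    have h3 : algebraMap Γ(X, U) X.functionField b =
        algebraMap (X.presheaf.stalk x) X.functionField (X.presheaf.germ U x hx b) :=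
      (Scheme.algebraMap_germ_eq_germToFunctionField X hx b).symm
    rw [h3, evalAt_algebraMap]
    rfl
  have h1' : ∀ b, φ b ∈ v := fun b => by rw [hφ]; exact h1 b
  let p : Ideal Γ(X, U) := (IsLocalRing.maximalIdeal v).comap (φ.codRestrict v.toSubring h1')
  have hp : ∀ b, b ∈ p ↔ v.valuation (φ b) < 1 := by
    intro b
    have : b ∈ p ↔ φ.codRestrict v.toSubring h1' b ∈ IsLocalRing.maximalIdeal v := Iff.rfl
    rw [this]
    exact v.valuation_lt_one_iff (φ.codRestrict v.toSubring h1' b)
  have hpp : p.IsPrime := Ideal.comap_isPrime _ _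
  obtain ⟨c, hcU, -, hc⟩ := exists_point_of_prime hU p
  have h2 : ∀ b : Γ(X, U), ¬ IsUnitAt c (algebraMap Γ(X, U) X.functionField b) ↔
      v.valuation (evalAt g (algebraMap Γ(X, U) X.functionField b)) < 1 := by
    intro b
    rw [hc, not_not, hp, hφ]
  exact ⟨c, hcU, isCenter_of_chart hU hx hcU h1 h2, h2⟩

end Chart

end Pool.Agent.Lib.MP_cc17a8_ag.Gen
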