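import Mathlib
import Pool.Agent.Lib.MP_cc17a8_ag.Gen.Residue

open AlgebraicGeometry CategoryTheory IntermediateField

universe u

namespace Pool.Agent.Lib.MP_cc17a8_ag.Gen

section

variable {k L F : Type u} [Field k] [Field L] [Field F] [Algebra L F] [CharZero L]
  {X : Scheme.{u}} [IsIntegral X] {f : X ⟶ Spec (.of k)} [IsProper f] {x : X}
  {g : X.presheaf.stalk x →+* F} [IsLocalHom g]

omit [IsIntegral X] [IsProper f] in
theorem div_eq_of_eqn [IsIntegral X] (D : CartierDivisor X) (s0 s1 : X.functionField) (y : X) :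
    s1 / s0 = (s1 * D.eqn y) / (s0 * D.eqn y) := by
  rw [mul_div_mul_right _ _ (D.ne_zero y)]

/-- The degree of a divisor `D` along a curve is the degree of the function `s1 / s0` on the curve,
if `s0` and `s1` are sections of `D` without common zeros on the curve. -/
theorem wdegree_pencil (hg : GoodPoint f g L) (D : CartierDivisor X) {s0 s1 : X.functionField}
    (hs0 : IsUnitAt x (s0 * D.eqn x)) (hr0 : ∀ y, IsRegularAt y (s0 * D.eqn y))
    (hr1 : ∀ y, IsRegularAt y (s1 * D.eqn y))
    (hbp : ∀ v, IsPlace L v → ¬ IsUnitAt (center g v) (s0 * D.eqn (center g v)) →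
      IsUnitAt (center g v) (s1 * D.eqn (center g v))) :
    (Transcendental L (evalAt g (s1 / s0)) →
      wdegree L g D = Module.finrank L⟮evalAt g (s1 / s0)⟯ F) ∧
    (IsAlgebraic L (evalAt g (s1 / s0)) → wdegree L g D = 0) := by
  set y := evalAt g (s1 / s0) with hy
  have hterm1 : ∀ v, IsPlace L v → IsUnitAt (center g v) (s0 * D.eqn (center g v)) →
      y ∈ v ∧ ordAt v (evalAt g (s0 * D.eqn (center g v))) = 0 := by
    intro v hv hu
    have := isDVR hg.ff hv
    have hc := hg.isCenter hv
    constructor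
    · apply hc.mem
      rw [div_eq_of_eqn D s0 s1 (center g v), div_eq_mul_inv]
      exact (hr1 _).mul hu.inv.isRegularAt
    · apply ordAt_eq_zero v (hc.mem hu.isRegularAt)
      obtain ⟨hsp, -⟩ := id hc
      rw [← evalAt_inv g (hu.specializes hsp)]
      exact hc.mem hu.inv.isRegularAt
  have hterm2 : ∀ v, IsPlace L v → ¬ IsUnitAt (center g v) (s0 * D.eqn (center g v)) →
      y ∉ v ∧ ordAt v (evalAt g (s0 * D.eqn (center g v))) = - ordAt v y := by
    intro v hv hnu
    have := isDVR hg.ff hv
    have hc := hg.isCenter hv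
    have hu := hbp v hv hnu
    obtain ⟨hsp, -⟩ := id hc
    have h0 : IsUnitAt x (s0 * D.eqn (center g v)) := by
      have h1 : s0 * D.eqn (center g v) = (s0 * D.eqn x) * (D.eqn (center g v) / D.eqn x) := by
        have := D.ne_zero x
        field_simp
      rw [h1]
      exact hs0.mul (D.isUnitAt_div hsp)
    have h1 : IsUnitAt x (s1 * D.eqn (center g v)) := hu.specializes hsp
    have h2 : y = evalAt g (s1 * D.eqn (center g v)) * (evalAt g (s0 * D.eqn (center g v)))⁻¹ := by
      rw [hy, div_eq_of_eqn D s0 s1 (center g v), evalAt_div g h1.isRegularAt h0, div_eq_mul_inv]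
    have h3 := evalAt_ne_zero g h0
    have h4 := evalAt_ne_zero g h1
    have h5 : ordAt v (evalAt g (s1 * D.eqn (center g v))) = 0 := by
      apply ordAt_eq_zero v (hc.mem hu.isRegularAt)
      rw [← evalAt_inv g h1]
      exact hc.mem hu.inv.isRegularAt
    have h6 : ordAt v (evalAt g (s0 * D.eqn (center g v))) = - ordAt v y := by
      rw [h2, ordAt_mul v h4 (inv_ne_zero h3), ordAt_inv, h5]
      ring
    refine ⟨?_, h6⟩
    intro hyv
    have h7 := ordAt_nonneg v hyv
    have h8 := ordAt_pos v (hc.mem (hr0 _)) h3 (hc.inv_notMem (hr0 _) hnu h3)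
    omega
  rw [wdegree_eq hg D hs0]
  constructor
  · intro htr
    rw [← sum_poles hg.ff htr]
    have h1 : ∑ᶠ v ∈ {v : ValuationSubring F | IsPlace L v},
        ordAt v (evalAt g (s0 * D.eqn (center g v))) * (resDeg L v : ℤ) =
        ∑ᶠ v ∈ {v : ValuationSubring F | IsPlace L v ∧ y ∉ v},
        ordAt v (evalAt g (s0 * D.eqn (center g v))) * (resDeg L v : ℤ) := by
      apply finsum_mem_inter_support_eq'
      intro v hv
      rw [Function.mem_support] at hv
      refine ⟨fun h => ⟨h, fun hyv => ?_⟩, fun h => h.1⟩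
      by_cases hu : IsUnitAt (center g v) (s0 * D.eqn (center g v))
      · rw [(hterm1 v h hu).2, zero_mul] at hv
        exact hv rfl
      · exact (hterm2 v h hu).1 hyv
    rw [h1]
    apply finsum_mem_congr rfl
    rintro v ⟨hv, hyv⟩
    rw [(hterm2 v hv fun hu => hyv (hterm1 v hv hu).1).2]
  · intro halg
    apply finsum_mem_eq_zero_of_forall_eq_zero
    intro v hv
    by_cases hu : IsUnitAt (center g v) (s0 * D.eqn (center g v))
    · rw [(hterm1 v hv hu).2, zero_mul]
    · exact absurd (mem_of_isAlgebraic hv.1 halg) (hterm2 v hv hu).1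

end

end Pool.Agent.Lib.MP_cc17a8_ag.Gen
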