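import Mathlib
import Pool.Agent.Lib.MP_cc17a8_ag.CurveOfHom
import Pool.Agent.Lib.MP_cc17a8_ag.Gen.Pencil

open AlgebraicGeometry CategoryTheory IntermediateField

universe u

namespace Pool.Agent.Lib.MP_cc17a8_ag.Gen

section

variable {k : Type u} [Field k] {X : Scheme.{u}} [IsIntegral X] (f : X ⟶ Spec (.of k))

theorem algebraMap_constants (y : X) (a : k) :
    algebraMap (X.presheaf.stalk y) X.functionField (constants f y a) =
      constants f (genericPoint X) a := by
  have : Nonempty (⊤ : X.Opens) := ⟨⟨y, trivial⟩⟩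
  rw [← germ_constSec f (U := ⊤) (x := y) trivial, ← germ_constSec f (U := ⊤) (x := genericPoint X)
    trivial]
  exact Scheme.algebraMap_germ_eq_germToFunctionField X (U := ⊤) (x := y) trivial _

/-- The sections `σ j` of the line bundle of `D` generate it. -/
structure Generates (D : CartierDivisor X) {N : ℕ} (σ : Fin N → X.functionField) : Prop where
  regular : ∀ j y, IsRegularAt y (σ j * D.eqn y)
  exists_unit : ∀ y, ∃ j, IsUnitAt y (σ j * D.eqn y)

/-- The combination of the sections `σ j` with coefficients `s ^ j`. -/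
noncomputable def powSec {N : ℕ} (σ : Fin N → X.functionField) (s : k) : X.functionField :=
  ∑ j : Fin N, constants f (genericPoint X) s ^ (j : ℕ) * σ j

variable {f}

theorem powSec_aux {D : CartierDivisor X} {N : ℕ} {σ : Fin N → X.functionField}
    (h : Generates D σ) (y : X) : ∃ a : Fin N → X.presheaf.stalk y, (∃ j, IsUnit (a j)) ∧
      ∀ s : k, algebraMap (X.presheaf.stalk y) X.functionField
        (∑ j : Fin N, constants f y s ^ (j : ℕ) * a j) = powSec f σ s * D.eqn y := by
  choose a ha using fun j => h.regular j y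
  refine ⟨a, ?_, fun s => ?_⟩
  · obtain ⟨j, b, hb, hbj⟩ := h.exists_unit y
    refine ⟨j, ?_⟩
    rw [← ha j] at hbj
    rw [← stalk_injective y hbj]
    exact hb
  · rw [map_sum, powSec, Finset.sum_mul]
    refine Finset.sum_congr rfl fun j _ => ?_
    rw [map_mul, map_pow, algebraMap_constants, ha, mul_assoc]

theorem powSec_regular {D : CartierDivisor X} {N : ℕ} {σ : Fin N → X.functionField}
    (h : Generates D σ) (s : k) (y : X) : IsRegularAt y (powSec f σ s * D.eqn y) := by
  obtain ⟨a, -, ha⟩ := powSec_aux (f := f) h y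
  exact ⟨_, ha s⟩

/-- A general section does not vanish at a given point. -/
theorem powSec_finite {D : CartierDivisor X} {N : ℕ} {σ : Fin N → X.functionField}
    (h : Generates D σ) (y : X) : {s : k | ¬ IsUnitAt y (powSec f σ s * D.eqn y)}.Finite := by
  obtain ⟨a, ⟨j0, hj0⟩, ha⟩ := powSec_aux (f := f) h y
  let π := (X.residue y).hom
  let P : Polynomial (X.residueField y) :=
    ∑ j : Fin N, Polynomial.C (π (a j)) * Polynomial.X ^ (j : ℕ)
  have hP : P ≠ 0 := by
    intro h0
    have h1 : P.coeff j0 = π (a j0) := by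
      rw [Polynomial.finsetSum_coeff, Finset.sum_eq_single j0]
      · rw [Polynomial.coeff_C_mul_X_pow, if_pos rfl]
      · intro j _ hj
        rw [Polynomial.coeff_C_mul_X_pow, if_neg]
        intro h
        exact hj (Fin.ext h.symm)
      · intro h
        exact absurd (Finset.mem_univ _) h
    rw [h0, Polynomial.coeff_zero] at h1
    exact (hj0.map π).ne_zero h1.symm
  have hinj : Function.Injective (π.comp (constants f y)) := RingHom.injective _
  classical
  refine Set.Finite.subset (Set.Finite.preimage hinj.injOn (P.roots.toFinset.finite_toSet)) ?_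
  intro s hs
  rw [Set.mem_preimage, Finset.mem_coe, Multiset.mem_toFinset, Polynomial.mem_roots hP,
    Polynomial.IsRoot.def]
  have h1 : ¬ IsUnit (∑ j : Fin N, constants f y s ^ (j : ℕ) * a j) := by
    intro hu
    exact hs ⟨_, hu, ha s⟩
  have h2 : π (∑ j : Fin N, constants f y s ^ (j : ℕ) * a j) = 0 := by
    by_contra h3
    exact h1 (isUnit_of_map_unit π _ (isUnit_iff_ne_zero.mpr h3))
  rw [← h2, map_sum, Polynomial.eval_finsetSum]
  refine Finset.sum_congr rfl fun j _ => ?_
  rw [Polynomial.eval_mul, Polynomial.eval_C, Polynomial.eval_pow, Polynomial.eval_X, map_mul,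
    map_pow, mul_comm]
  rfl

/-- Large multiples of an ample divisor plus `D` are generated by global sections. -/
theorem exists_generates [CompactSpace X] {A : CartierDivisor X} (hA : A.IsAmple)
    (D : CartierDivisor X) : ∃ n0 : ℕ, 0 < n0 ∧ ∃ N0 : ℕ, ∀ j ≥ N0,
      ∃ (N : ℕ) (σ : Fin N → X.functionField), Generates ((n0 * j) • A + D) σ := by
  have hloc : ∀ x : X, ∃ V : X.Opens, x ∈ V ∧ ∃ n : ℕ, 0 < n ∧ ∃ N : ℕ, ∀ j ≥ N,
      ∃ τ : X.functionField, (∀ y, IsRegularAt y (τ * ((n * j) • A + D).eqn y)) ∧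
        ∀ y ∈ V, IsUnitAt y (τ * ((n * j) • A + D).eqn y) := by
    intro x
    obtain ⟨W, hxW, hW⟩ := D.compat x
    obtain ⟨n, hn, s, hs, hsx, hsW⟩ := hA.exists_section hxW
    have hD : ∀ y, IsUnitAt y (s * A.eqn y ^ n) → IsUnitAt y ((D.eqn x)⁻¹ * D.eqn y) := by
      intro y hy
      have h1 := (hW y (hsW y hy)).inv
      rw [inv_div, div_eq_mul_inv, mul_comm] at h1
      exact h1
    obtain ⟨N, hN⟩ := exists_extend (n • A) D s (D.eqn x)⁻¹
      (fun y => by rw [CartierDivisor.nsmul_eqn]; exact hs y) (fun y hy => by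
        rw [CartierDivisor.nsmul_eqn] at hy
        exact (hD y hy).isRegularAt)
    simp only [CartierDivisor.nsmul_eqn] at hN
    obtain ⟨V, hxV, hV⟩ := (n • A).exists_nhd_isUnitAt (x := x) (t := s) (by
      rw [CartierDivisor.nsmul_eqn]; exact hsx)
    simp only [CartierDivisor.nsmul_eqn] at hV
    refine ⟨V, hxV, n, hn, N, fun j hj => ?_⟩
    have hform : ∀ y, s ^ j * (D.eqn x)⁻¹ * ((n * j) • A + D).eqn y =
        (s * A.eqn y ^ n) ^ j * ((D.eqn x)⁻¹ * D.eqn y) := by
      intro y
      rw [CartierDivisor.add_eqn, CartierDivisor.nsmul_eqn]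
      ring
    refine ⟨s ^ j * (D.eqn x)⁻¹, fun y => ?_, fun y hy => ?_⟩
    · rw [hform]; exact hN j hj y
    · rw [hform]; exact ((hV y hy).pow j).mul (hD y (hV y hy))
  choose V hxV n hn N hN using hloc
  obtain ⟨t, ht⟩ := CompactSpace.elim_nhds_subcover (fun y => (V y : Set X))
    (fun y => (V y).2.mem_nhds (hxV y))
  refine ⟨∏ x ∈ t, n x, Finset.prod_pos fun x _ => hn x, t.sup N, fun j hj => ?_⟩
  have hsec : ∀ x : t, ∃ τ : X.functionField,
      (∀ y, IsRegularAt y (τ * (((∏ x ∈ t, n x) * j) • A + D).eqn y)) ∧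
        ∀ y ∈ V x, IsUnitAt y (τ * (((∏ x ∈ t, n x) * j) • A + D).eqn y) := by
    rintro ⟨x, hx⟩
    obtain ⟨c, hc⟩ := Finset.dvd_prod_of_mem n hx
    have hc0 : 0 < c := by
      rcases Nat.eq_zero_or_pos c with h | h
      · exfalso
        have h2 : 0 < ∏ x ∈ t, n x := Finset.prod_pos fun x _ => hn x
        rw [hc, h, mul_zero] at h2
        exact lt_irrefl _ h2
      · exact h
    have h1 : N x ≤ c * j := by
      have h2 : N x ≤ t.sup N := Finset.le_sup hx
      calc N x ≤ j := h2.trans hj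
        _ ≤ c * j := Nat.le_mul_of_pos_left j hc0
    have h2 := hN x (c * j) h1
    rw [← mul_assoc, ← hc] at h2
    exact h2
  choose τ hτ1 hτ2 using hsec
  refine ⟨t.card, fun i => τ (t.equivFin.symm i), ⟨fun i y => hτ1 _ y, fun y => ?_⟩⟩
  have h2 : y ∈ ⋃ y ∈ t, (V y : Set X) := by rw [ht]; trivial
  rw [Set.mem_iUnion₂] at h2
  obtain ⟨z, hzt, hz⟩ := h2
  refine ⟨t.equivFin ⟨z, hzt⟩, ?_⟩
  rw [Equiv.symm_apply_apply]
  exact hτ2 ⟨z, hzt⟩ y hz

/-- Every divisor is the difference of two divisors generated by global sections. -/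
theorem exists_generates_sub [CompactSpace X] {A : CartierDivisor X} (hA : A.IsAmple)
    (D : CartierDivisor X) : ∃ m : ℕ,
      (∃ (N : ℕ) (σ : Fin N → X.functionField), Generates (m • A + D) σ) ∧
      ∃ (N : ℕ) (σ : Fin N → X.functionField), Generates (m • A) σ := by
  obtain ⟨n0, hn0, N0, h0⟩ := exists_generates hA D
  obtain ⟨n1, hn1, N1, h1⟩ := exists_generates hA 0
  have h2 := h0 (n1 * (N0 + N1)) (by nlinarith)
  have h3 := h1 (n0 * (N0 + N1)) (by nlinarith)
  refine ⟨n0 * (n1 * (N0 + N1)), h2, ?_⟩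
  have h4 : n1 * (n0 * (N0 + N1)) = n0 * (n1 * (N0 + N1)) := by ring
  rw [h4, add_zero] at h3
  exact h3

end

end Pool.Agent.Lib.MP_cc17a8_ag.Gen
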