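import Mathlib
import Pool.Agent.Lib.MP_cc17a8_ag.Gen.Sections

open IntermediateField Polynomial

universe u

namespace Pool.Agent.Lib.MP_cc17a8_ag.Gen

section

variable {L K : Type u} [Field L] [Field K] [Algebra L K]

theorem trdeg_adjoin_simple {t : K} (ht : Transcendental L t) : Algebra.trdeg L L⟮t⟯ = 1 := by
  let t' : L⟮t⟯ := ⟨t, mem_adjoin_simple_self L t⟩
  apply le_antisymm
  · have h1 : Algebra.IsAlgebraic (Algebra.adjoin L {t'}) L⟮t⟯ := by
      refine ⟨fun z => IntermediateField.isAlgebraic_adjoin_iff.mp ?_⟩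
      have hz : z ∈ IntermediateField.adjoin L {t'} := by
        rw [← IntermediateField.mem_lift, IntermediateField.lift_adjoin_simple]
        exact z.2
      exact isAlgebraic_algebraMap (⟨z, hz⟩ : IntermediateField.adjoin L {t'})
    have h2 := Algebra.IsAlgebraic.trdeg_le_cardinalMk (R := L) (s := {t'}) (A := L⟮t⟯)
    simpa using h2
  · rw [Cardinal.one_le_iff_ne_zero, trdeg_ne_zero_iff]
    refine ⟨t', fun h => ht ?_⟩
    exact h.algHom (IntermediateField.val _)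

theorem trdeg_adjoin_simple_le (t : K) : Algebra.trdeg L L⟮t⟯ ≤ 1 := by
  let t' : L⟮t⟯ := ⟨t, mem_adjoin_simple_self L t⟩
  have h1 : Algebra.IsAlgebraic (Algebra.adjoin L {t'}) L⟮t⟯ := by
    refine ⟨fun z => IntermediateField.isAlgebraic_adjoin_iff.mp ?_⟩
    have hz : z ∈ IntermediateField.adjoin L {t'} := by
      rw [← IntermediateField.mem_lift, IntermediateField.lift_adjoin_simple]
      exact z.2
    exact isAlgebraic_algebraMap (⟨z, hz⟩ : IntermediateField.adjoin L {t'})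
  have h2 := Algebra.IsAlgebraic.trdeg_le_cardinalMk (R := L) (s := {t'}) (A := L⟮t⟯)
  simpa using h2

theorem isFunctionField_adjoin_simple [hess : Algebra.EssFiniteType L K]
    (htr : Algebra.trdeg L K = 2) {t : K} (ht : Transcendental L t) : IsFunctionField L⟮t⟯ K := by
  refine ⟨?_, Algebra.EssFiniteType.of_comp L L⟮t⟯ K⟩
  have h1 := trdeg_add_eq (R := L) (S := L⟮t⟯) (A := K)
  rw [trdeg_adjoin_simple ht, htr] at h1
  have h2 : (1 : Cardinal) + Algebra.trdeg L⟮t⟯ K = 1 + 1 := by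
    rw [h1]; exact one_add_one_eq_two.symm
  exact Cardinal.eq_of_add_eq_add_left h2 Cardinal.one_lt_aleph0

/-- The exchange property. -/
theorem exchange {t y : K} (hy : Transcendental L y) (h : IsAlgebraic L⟮t⟯ y) :
    IsAlgebraic L⟮y⟯ t := by
  by_contra hcon
  let E : IntermediateField L K := L⟮t⟯⟮y⟯.restrictScalars L
  have hE : E = L⟮y⟯⟮t⟯.restrictScalars L := adjoin_simple_comm L t y
  have h1 : Algebra.trdeg L L⟮t⟯⟮y⟯ ≤ 1 := by
    rw [← trdeg_add_eq (R := L) (S := L⟮t⟯) (A := L⟮t⟯⟮y⟯)]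
    have h2 : Algebra.IsAlgebraic L⟮t⟯ L⟮t⟯⟮y⟯ :=
      (IntermediateField.isAlgebraic_adjoin_simple h.isIntegral)
    rw [trdeg_eq_zero (R := L⟮t⟯) (A := L⟮t⟯⟮y⟯), add_zero]
    exact trdeg_adjoin_simple_le t
  have h3 : Algebra.trdeg L L⟮y⟯⟮t⟯ = 2 := by
    rw [← trdeg_add_eq (R := L) (S := L⟮y⟯) (A := L⟮y⟯⟮t⟯), trdeg_adjoin_simple hy,
      trdeg_adjoin_simple hcon]
    exact one_add_one_eq_two
  have h4 : Algebra.trdeg L L⟮t⟯⟮y⟯ = Algebra.trdeg L L⟮y⟯⟮t⟯ := by
    change Algebra.trdeg L E = Algebra.trdeg L (L⟮y⟯⟮t⟯.restrictScalars L : IntermediateField L K)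
    rw [hE]
  rw [h4, h3] at h1
  have h5 : (2 : Cardinal) ≤ 1 := h1
  exact absurd h5 (by norm_num)

theorem finrank_comm (t y : K) : Module.finrank L⟮t⟯⟮y⟯ K = Module.finrank L⟮y⟯⟮t⟯ K := by
  change Module.finrank (L⟮t⟯⟮y⟯.restrictScalars L : IntermediateField L K) K =
    Module.finrank (L⟮y⟯⟮t⟯.restrictScalars L : IntermediateField L K) K
  rw [adjoin_simple_comm L t y]

end

section Val

variable {L K : Type u} [Field L] [Field K] [Algebra L K] {Q : ValuationSubring K}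

theorem aeval_residue (hL : ∀ a : L, algebraMap L K a ∈ Q) (y : K) (hy : y ∈ Q) (p : L[X])
    (hp : aeval y p ∈ Q) :
    letI := algVal hL
    aeval (IsLocalRing.residue Q ⟨y, hy⟩) p = IsLocalRing.residue Q ⟨aeval y p, hp⟩ := by
  let _ := algVal hL
  let φ : Q →ₐ[L] IsLocalRing.ResidueField Q := IsScalarTower.toAlgHom L Q _
  have h1 : IsLocalRing.residue Q ⟨y, hy⟩ = φ ⟨y, hy⟩ := rfl
  have h2 : IsLocalRing.residue Q ⟨aeval y p, hp⟩ = φ ⟨aeval y p, hp⟩ := rfl
  rw [h1, h2, aeval_algHom_apply]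
  congr 1
  apply Subtype.ext
  have h3 : IsScalarTower L Q K := IsScalarTower.of_algebraMap_eq fun _ => rfl
  let ψ : Q →ₐ[L] K := IsScalarTower.toAlgHom L Q K
  have h4 : ψ (aeval ⟨y, hy⟩ p) = aeval (ψ ⟨y, hy⟩) p := (aeval_algHom_apply ψ _ p).symm
  exact h4

theorem aeval_mem (hL : ∀ a : L, algebraMap L K a ∈ Q) {y : K} (hy : y ∈ Q) (p : L[X]) :
    aeval y p ∈ Q := by
  let _ := algVal hL
  have h3 : IsScalarTower L Q K := IsScalarTower.of_algebraMap_eq fun _ => rfl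
  let ψ : Q →ₐ[L] K := IsScalarTower.toAlgHom L Q K
  have h4 : ψ (aeval ⟨y, hy⟩ p) = aeval (ψ ⟨y, hy⟩) p := (aeval_algHom_apply ψ _ p).symm
  have h5 : aeval y p = ((aeval (⟨y, hy⟩ : Q) p : Q) : K) := h4.symm
  rw [h5]
  exact Subtype.prop _

theorem isAlgebraic_residue_iff (hL : ∀ a : L, algebraMap L K a ∈ Q) {y : K} (hy : y ∈ Q) :
    (letI := algVal hL
    IsAlgebraic L (IsLocalRing.residue Q ⟨y, hy⟩)) ↔
      ∃ p : L[X], p ≠ 0 ∧ Q.valuation (aeval y p) < 1 := by
  let _ := algVal hL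
  constructor
  · rintro ⟨p, hp, h⟩
    refine ⟨p, hp, ?_⟩
    rw [aeval_residue hL y hy p (aeval_mem hL hy p), residue_eq_zero_iff_val] at h
    exact h
  · rintro ⟨p, hp, h⟩
    refine ⟨p, hp, ?_⟩
    rw [aeval_residue hL y hy p (aeval_mem hL hy p), residue_eq_zero_iff_val]
    exact h

/-- If `L(y)` is contained in a valuation ring, the residue of `y` is transcendental over `L`. -/
theorem transcendental_residue {y : K} (hy : Transcendental L y)
    (hL : ∀ a : L, algebraMap L K a ∈ Q) (hQ : ∀ a : L⟮y⟯, algebraMap L⟮y⟯ K a ∈ Q) :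
    letI := algVal hL
    Transcendental L (IsLocalRing.residue Q ⟨y, hQ ⟨y, mem_adjoin_simple_self L y⟩⟩) := by
  let _ := algVal hL
  intro h
  rw [isAlgebraic_residue_iff hL] at h
  obtain ⟨p, hp, h⟩ := h
  have h1 : aeval y p ≠ 0 := fun h0 => hp (transcendental_iff.mp hy p h0)
  have h2 : (aeval y p)⁻¹ ∈ Q := by
    have : (aeval y p)⁻¹ ∈ L⟮y⟯ := by
      apply inv_mem
      exact (mem_adjoin_simple_iff L _).mpr ⟨p, 1, by simp⟩
    exact hQ ⟨_, this⟩
  rw [← Q.valuation_le_one_iff, map_inv₀] at h2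
  have h3 : Q.valuation (aeval y p) ≠ 0 := (Valuation.ne_zero_iff _).mpr h1
  have h4 : 1 < (Q.valuation (aeval y p))⁻¹ := (one_lt_inv₀ (zero_lt_iff.mpr h3)).mpr h
  exact absurd h2 (not_le.mpr h4)

/-- If the residue of `y` is transcendental over `L`, then `L(y)` is contained in the valuation
ring. -/
theorem adjoin_mem_of_transcendental_residue (hL : ∀ a : L, algebraMap L K a ∈ Q) {y : K}
    (hyQ : y ∈ Q)
    (h : letI := algVal hL
      Transcendental L (IsLocalRing.residue Q ⟨y, hyQ⟩)) :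
    Transcendental L y ∧ ∀ a : L⟮y⟯, algebraMap L⟮y⟯ K a ∈ Q := by
  let _ := algVal hL
  have key : ∀ p : L[X], p ≠ 0 → aeval y p ≠ 0 ∧ (aeval y p)⁻¹ ∈ Q := by
    intro p hp
    have h1 : ¬ Q.valuation (aeval y p) < 1 := fun h1 =>
      h ((isAlgebraic_residue_iff hL hyQ).mpr ⟨p, hp, h1⟩)
    have h2 : aeval y p ≠ 0 := by
      intro h0
      rw [h0, map_zero] at h1
      exact h1 zero_lt_one
    refine ⟨h2, ?_⟩
    rw [← Q.valuation_le_one_iff, map_inv₀]
    exact inv_le_one_of_one_le₀ (not_lt.mp h1)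
  refine ⟨?_, ?_⟩
  · rw [transcendental_iff]
    intro p hp
    by_contra hp0
    exact (key p hp0).1 hp
  · rintro ⟨a, ha⟩
    rw [mem_adjoin_simple_iff] at ha
    obtain ⟨r, s, rfl⟩ := ha
    change aeval y r / aeval y s ∈ Q
    by_cases hs : s = 0
    · rw [hs, map_zero, div_zero]; exact Q.zero_mem
    · rw [div_eq_mul_inv]
      exact Q.mul_mem _ _ (aeval_mem hL hyQ r) (key s hs).2

/-- A valuation ring of `K` which contains `L`, is discrete and whose residue field is a function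
field of one variable over `L`. -/
structure IsDivisorial (L : Type u) {K : Type u} [Field L] [Field K] [Algebra L K]
    (Q : ValuationSubring K) : Prop where
  mem : ∀ a : L, algebraMap L K a ∈ Q
  dvr : IsDiscreteValuationRing Q
  ff : letI := algVal mem; IsFunctionField L (IsLocalRing.ResidueField Q)

theorem mem_of_adjoin_mem {y : K} (hQ : ∀ a : L⟮y⟯, algebraMap L⟮y⟯ K a ∈ Q) (a : L) :
    algebraMap L K a ∈ Q :=
  hQ (algebraMap L L⟮y⟯ a)

theorem isDivisorial_of_isPlace [CharZero L] {y : K} (hy : Transcendental L y)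
    (hF : IsFunctionField L⟮y⟯ K) (hQ : IsPlace L⟮y⟯ Q) : IsDivisorial L Q := by
  have hcz : CharZero L⟮y⟯ := charZero_of_injective_algebraMap (algebraMap L L⟮y⟯).injective
  have hL := mem_of_adjoin_mem hQ.1
  refine ⟨hL, isDVR hF hQ, ?_⟩
  let _ := algVal hL
  let _ := algVal hQ.1
  have hfin := finite_residueField hF hQ
  have htow : IsScalarTower L L⟮y⟯ (IsLocalRing.ResidueField Q) :=
    IsScalarTower.of_algebraMap_eq fun _ => rfl
  have hess : Algebra.EssFiniteType L L⟮y⟯ :=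
    IntermediateField.essFiniteType_iff.mpr (fg_adjoin_of_finite (Set.finite_singleton y))
  refine ⟨?_, Algebra.EssFiniteType.comp L L⟮y⟯ _⟩
  have h1 := trdeg_add_eq (R := L) (S := L⟮y⟯) (A := IsLocalRing.ResidueField Q)
  rw [trdeg_adjoin_simple hy, trdeg_eq_zero (R := L⟮y⟯) (A := IsLocalRing.ResidueField Q),
    add_zero] at h1
  exact h1.symm

theorem resDeg_eq_finrank {y : K} (hL : ∀ a : L, algebraMap L K a ∈ Q)
    (hQ : ∀ a : L⟮y⟯, algebraMap L⟮y⟯ K a ∈ Q) :
    resDeg L⟮y⟯ Q = (letI := algVal hL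
      Module.finrank
        L⟮IsLocalRing.residue Q ⟨y, hQ ⟨y, mem_adjoin_simple_self L y⟩⟩⟯
        (IsLocalRing.ResidueField Q)) := by
  rw [resDeg_eq hQ]
  let _ := algVal hL
  let _ := algVal hQ
  have htow : IsScalarTower L L⟮y⟯ (IsLocalRing.ResidueField Q) :=
    IsScalarTower.of_algebraMap_eq fun _ => rfl
  set ybar := IsLocalRing.residue Q ⟨y, hQ ⟨y, mem_adjoin_simple_self L y⟩⟩ with hybar
  let φ : L⟮y⟯ →ₐ[L] IsLocalRing.ResidueField Q := IsScalarTower.toAlgHom L L⟮y⟯ _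
  have hφ : φ ⟨y, mem_adjoin_simple_self L y⟩ = ybar := rfl
  have hrange : φ.fieldRange = L⟮ybar⟯ := by
    have h1 : (⊤ : IntermediateField L L⟮y⟯) = IntermediateField.adjoin L
        {(⟨y, mem_adjoin_simple_self L y⟩ : L⟮y⟯)} := by
      rw [eq_comm, eq_top_iff]
      intro z _
      rw [← IntermediateField.mem_lift, IntermediateField.lift_adjoin_simple]
      exact z.2
    rw [AlgHom.fieldRange_eq_map, h1, IntermediateField.adjoin_map, Set.image_singleton, hφ]
  let e : L⟮y⟯ ≃ₐ[L] φ.fieldRange := AlgEquiv.ofInjectiveField φ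
  have h2 : Module.finrank L⟮y⟯ (IsLocalRing.ResidueField Q) =
      Module.finrank φ.fieldRange (IsLocalRing.ResidueField Q) :=
    Algebra.finrank_eq_of_equiv_equiv e.toRingEquiv (RingEquiv.refl _) (by
      ext a
      rfl)
  rw [h2, hrange]

end Val

end Pool.Agent.Lib.MP_cc17a8_ag.Gen
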