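import Mathlib
import Pool.Agent.Lib.MP_cc17a8_ag.Gen.Transc2
import Pool.Agent.Lib.MP_cc17a8_ag.Gen.Model

open AlgebraicGeometry CategoryTheory IntermediateField Polynomial

universe u

namespace Pool.Agent.Lib.MP_cc17a8_ag.Gen

section

variable {k L K : Type u} [Field k] [Field L] [Field K] [Algebra L K] [CharZero L]
  {X : Scheme.{u}} [IsIntegral X] {f : X ⟶ Spec (.of k)} {x : X}
  {g : X.presheaf.stalk x →+* K} [IsLocalHom g]

omit [CharZero L] [IsLocalHom g] in
/-- The values at the point `g` of the functions on an affine open subset generate a finitely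
generated algebra. -/
theorem fg_chart [LocallyOfFiniteType f] {U : X.Opens} (hU : IsAffineOpen U) [Nonempty U]
    (hx : x ∈ U) (hconst : ∀ a : k, g (constants f x a) ∈ (algebraMap L K).range) :
    (Algebra.adjoin L (Set.range fun b : Γ(X, U) =>
      evalAt g (algebraMap Γ(X, U) X.functionField b))).FG := by
  let _ : Algebra k Γ(X, U) := (constSec f U).toAlgebra
  have hft : Algebra.FiniteType k Γ(X, U) := finiteType_constSec f hU
  obtain ⟨G, hG⟩ := hft.out
  let φ : Γ(X, U) →+* K := g.comp (X.presheaf.germ U x hx).hom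
  have hφ : ∀ b, evalAt g (algebraMap Γ(X, U) X.functionField b) = φ b := by
    intro b
    have h3 : algebraMap Γ(X, U) X.functionField b =
        algebraMap (X.presheaf.stalk x) X.functionField (X.presheaf.germ U x hx b) :=
      (Scheme.algebraMap_germ_eq_germToFunctionField X hx b).symm
    rw [h3, evalAt_algebraMap]
    rfl
  classical
  refine Subalgebra.fg_def.mpr ⟨φ '' G, G.finite_toSet.image φ, ?_⟩
  apply le_antisymm
  · apply Algebra.adjoin_mono
    rintro _ ⟨b, -, rfl⟩
    exact ⟨b, hφ b⟩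
  · rw [Algebra.adjoin_le_iff]
    rintro _ ⟨b, rfl⟩
    change evalAt g (algebraMap Γ(X, U) X.functionField b) ∈ _
    rw [hφ]
    have hb : b ∈ Algebra.adjoin k (G : Set Γ(X, U)) := by rw [hG]; trivial
    induction hb using Algebra.adjoin_induction with
    | mem b hb => exact Algebra.subset_adjoin ⟨b, hb, rfl⟩
    | algebraMap a =>
      obtain ⟨c, hc⟩ := hconst a
      have h1 : φ (algebraMap k Γ(X, U) a) = algebraMap L K c := by
        rw [hc]
        change g (X.presheaf.germ U x hx (constSec f U a)) = _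
        rw [germ_constSec]
      rw [h1]
      exact Subalgebra.algebraMap_mem _ c
    | add b c _ _ hb hc => rw [map_add]; exact add_mem hb hc
    | mul b c _ _ hb hc => rw [map_mul]; exact mul_mem hb hc

omit [CharZero L] [IsIntegral X] [IsLocalHom g] in
theorem goodPoint_resPt {Q : ValuationSubring K} {c : X} (hc : IsCenter g Q c)
    (hQ : IsDivisorial L Q) (hconst : ∀ a : k, g (constants f x a) ∈ (algebraMap L K).range) :
    letI := algVal hQ.mem
    GoodPoint f (resPt hc) L := by
  let _ := algVal hQ.mem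
  refine ⟨hQ.ff, fun a => ?_⟩
  obtain ⟨b, hb⟩ := hconst a
  refine ⟨b, ?_⟩
  have h1 : X.presheaf.stalkSpecializes hc.choose (constants f c a) = constants f x a := by
    have := germ_constSec f (U := ⊤) (x := c) trivial a
    rw [← this, ← germ_constSec f (U := ⊤) (x := x) trivial a]
    exact TopCat.Presheaf.germ_stalkSpecializes_apply X.presheaf _ _ _
  have h2 : g (X.presheaf.stalkSpecializes hc.choose (constants f c a)) = algebraMap L K b := by
    rw [h1, hb]
  have h3 : g (X.presheaf.stalkSpecializes hc.choose (constants f c a)) ∈ Q := by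
    rw [h2]; exact hQ.mem b
  rw [resPt_apply hc _ h3]
  change IsLocalRing.residue Q ⟨algebraMap L K b, hQ.mem b⟩ = _
  congr 1
  exact Subtype.ext h2.symm

/-- The geometric form of `exists_model`, for an affine chart of `X`. -/
theorem exists_chart [IsProper f] [hess : Algebra.EssFiniteType L K] (htr : Algebra.trdeg L K = 2)
    {t : K} (ht : t ≠ 0) (hconst : ∀ a : k, g (constants f x a) ∈ (algebraMap L K).range)
    {U : X.Opens} (hU : IsAffineOpen U) [Nonempty U] :
    ∃ 𝒬 : Set (ValuationSubring K), 𝒬.Finite ∧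
      (∀ Q ∈ 𝒬, (∀ a : L, algebraMap L K a ∈ Q) ∧ t ∈ Q ∧ t⁻¹ ∉ Q ∧
        IsDiscreteValuationRing Q) ∧
      ∀ Q' : ValuationSubring K, (∀ a : L, algebraMap L K a ∈ Q') → t ∈ Q' → t⁻¹ ∉ Q' →
        center g Q' ∈ U → Q' ∉ 𝒬 →
        (∀ (hL : ∀ a : L, algebraMap L K a ∈ Q') (r : X.functionField)
          (hr : evalAt g r ∈ Q'), IsRegularAt (center g Q') r →
          letI := algVal hL
          IsAlgebraic L (IsLocalRing.residue Q' ⟨evalAt g r, hr⟩)) ∧
        ∃ Q ∈ 𝒬, ∃ (hQ : IsDivisorial L Q) (hc : IsCenter g Q (center g Q))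
          (v : ValuationSubring (IsLocalRing.ResidueField Q)),
          (letI := algVal hQ.mem; IsPlace L v) ∧ center (resPt hc) v = center g Q' := by
  by_cases hx : x ∈ U
  swap
  · refine ⟨∅, Set.finite_empty, by simp, ?_⟩
    intro Q' hL' ht1 ht2 hcU
    exfalso
    have hc : IsCenter g Q' (center g Q') := by
      apply isCenter_center f
      intro a
      obtain ⟨b, hb⟩ := hconst a
      rw [← hb]; exact hL' b
    obtain ⟨hsp, -⟩ := hc
    exact hx (hsp.mem_open U.2 hcU)
  set φ : Γ(X, U) → K := fun b => evalAt g (algebraMap Γ(X, U) X.functionField b) with hφ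
  obtain ⟨𝒬, hfin, h𝒬, h𝒬2⟩ := exists_model hess htr ht (Algebra.adjoin L (Set.range φ))
    (fg_chart hU hx hconst)
  have hcen : ∀ Q : ValuationSubring K, (∀ a : L, algebraMap L K a ∈ Q) →
      IsCenter g Q (center g Q) := by
    intro Q hL
    apply isCenter_center f
    intro a
    obtain ⟨b, hb⟩ := hconst a
    rw [← hb]; exact hL b
  have hLB : ∀ Q : ValuationSubring K, (∀ b ∈ Algebra.adjoin L (Set.range φ), b ∈ Q) →
      ∀ a : L, algebraMap L K a ∈ Q := fun Q h a => h _ (Subalgebra.algebraMap_mem _ a)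
  have hφB : ∀ b, φ b ∈ Algebra.adjoin L (Set.range φ) := fun b => Algebra.subset_adjoin ⟨b, rfl⟩
  refine ⟨𝒬, hfin, fun Q hQ => ?_, ?_⟩
  · obtain ⟨h1, h2, h3, h4, -⟩ := h𝒬 Q hQ
    exact ⟨hLB Q h1, h2, h3, h4⟩
  intro Q' hL' ht1 ht2 hcU hQ'
  have hc' := hcen Q' hL'
  have hBQ' : ∀ b ∈ Algebra.adjoin L (Set.range φ), b ∈ Q' := by
    intro b hb
    induction hb using Algebra.adjoin_induction with
    | mem b hb =>
      obtain ⟨b, rfl⟩ := hb
      exact hc'.mem (isRegularAt_section hcU b)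
    | algebraMap a => exact hL' a
    | add b c _ _ hb hc => exact Q'.add_mem _ _ hb hc
    | mul b c _ _ hb hc => exact Q'.mul_mem _ _ hb hc
  obtain ⟨halg, Q, hQ, hLQ, v, hv, hvb⟩ := h𝒬2 Q' hBQ' ht1 ht2 hQ'
  obtain ⟨h1, h2, h3, h4, h5⟩ := h𝒬 Q hQ
  constructor
  · intro hL r hr hreg
    obtain ⟨b, s, hs, hbs⟩ := exists_frac_of_isRegularAt hU hcU hreg
    obtain ⟨hsp, -⟩ := id hc'
    have h6 : evalAt g r = φ b * (φ s)⁻¹ := by
      have h7 := congrArg (evalAt g) hbs
      rw [evalAt_mul g (hreg.specializes hsp) (hs.specializes hsp).isRegularAt] at h7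
      rw [← div_eq_mul_inv, eq_div_iff (evalAt_ne_zero g (hs.specializes hsp))]
      exact h7
    have hbm : φ b ∈ Q' := hBQ' _ (hφB b)
    have hsm : φ s ∈ Q' := hBQ' _ (hφB s)
    have hsm' : (φ s)⁻¹ ∈ Q' := by
      rw [← evalAt_inv g (hs.specializes hsp)]
      exact hc'.mem hs.inv.isRegularAt
    let _ := algVal hL
    have hb1 : IsAlgebraic L (IsLocalRing.residue Q' ⟨φ b, hbm⟩) :=
      (isAlgebraic_residue_iff hL hbm).mpr (halg _ (hφB b))
    have hs1 : IsAlgebraic L (IsLocalRing.residue Q' ⟨φ s, hsm⟩) :=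
      (isAlgebraic_residue_iff hL hsm).mpr (halg _ (hφB s))
    have hs2 : IsLocalRing.residue Q' ⟨(φ s)⁻¹, hsm'⟩ = (IsLocalRing.residue Q' ⟨φ s, hsm⟩)⁻¹ := by
      apply eq_inv_of_mul_eq_one_left
      rw [← map_mul, ← map_one (IsLocalRing.residue Q')]
      congr 1
      apply Subtype.ext
      exact inv_mul_cancel₀ (evalAt_ne_zero g (hs.specializes hsp))
    have h8 : (⟨evalAt g r, hr⟩ : Q') = ⟨φ b, hbm⟩ * ⟨(φ s)⁻¹, hsm'⟩ := Subtype.ext h6
    rw [h8, map_mul, hs2]
    exact hb1.mul hs1.inv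
  · have hQd : IsDivisorial L Q := by
      refine ⟨hLQ, h4, ?_⟩
      let _ := algVal hLQ
      obtain ⟨hess', htr'⟩ := h5 hLQ
      refine ⟨le_antisymm htr' ?_, hess'⟩
      rw [Cardinal.one_le_iff_ne_zero, trdeg_ne_zero_iff]
      obtain ⟨z, hz, -⟩ := exists_transcendental_of_isPlace hv
      exact ⟨z, hz⟩
    have hc := hcen Q hLQ
    have hevB : ∀ b, φ b ∈ Q := fun b => h1 _ (hφB b)
    obtain ⟨c1, hc1U, hc1, hc1b⟩ := exists_isCenter_chart hU hx (v := Q) (g := g) hevB
    have hcc : c1 = center g Q := (hc1.center_eq f).symm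
    subst hcc
    refine ⟨Q, hQ, hQd, hc, v, hv, ?_⟩
    apply IsCenter.center_eq f
    apply isCenter_of_chart hU hc1U hcU
    · intro b
      rw [evalAt_resPt hc (isRegularAt_section hc1U b)]
      exact (hvb _ _ (hφB b)).1
    · intro b
      rw [evalAt_resPt hc (isRegularAt_section hc1U b), (hvb _ _ (hφB b)).2]
      constructor
      · intro hnu
        obtain ⟨a, ha⟩ := isRegularAt_section hcU b
        rw [← ha] at hnu
        have hna : ¬ IsUnit a := fun hu => hnu ⟨a, hu, rfl⟩
        obtain ⟨hsp, h9⟩ := hc'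
        have h10 := (h9 a).2 hna
        change Q'.valuation (evalAt g (algebraMap Γ(X, U) X.functionField b)) < 1
        rw [← ha, ← algebraMap_stalkSpecializes hsp, evalAt_algebraMap]
        exact h10
      · intro hlt hu
        obtain ⟨hsp, -⟩ := id hc'
        have h9 := hc'.mem hu.inv.isRegularAt
        rw [evalAt_inv g (hu.specializes hsp), ← Q'.valuation_le_one_iff, map_inv₀] at h9
        have h10 : Q'.valuation (φ b) ≠ 0 :=
          (Valuation.ne_zero_iff _).mpr (evalAt_ne_zero g (hu.specializes hsp))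
        have h11 : 1 < (Q'.valuation (φ b))⁻¹ := (one_lt_inv₀ (zero_lt_iff.mpr h10)).mpr hlt
        exact absurd h9 (not_le.mpr h11)

end

end Pool.Agent.Lib.MP_cc17a8_ag.Gen
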