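import Mathlib
import Pool.Agent.Lib.MP_cc17a8_ag.Transc
import Pool.Agent.Lib.MP_cc17a8_ag.Subfield

open TensorProduct Polynomial

universe u v

namespace Pool.Agent.Lib.MP_cc17a8_ag.Gen

section

variable {k Ω : Type u} [Field k] [Field Ω] [Algebra k Ω]

theorem trdeg_eq_one_of {W : IntermediateField k Ω} {t : Ω} (ht : Transcendental W t)
    (h : Algebra.IsAlgebraic (IntermediateField.adjoin W {t}) Ω) : Algebra.trdeg W Ω = 1 := by
  apply le_antisymm
  · have h1 : Algebra.IsAlgebraic (Algebra.adjoin W {t}) Ω :=
      ⟨fun y => IntermediateField.isAlgebraic_adjoin_iff.mp (h.isAlgebraic y)⟩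
    have h2 := Algebra.IsAlgebraic.trdeg_le_cardinalMk (R := W) (s := {t}) (A := Ω)
    simpa using h2
  · rw [Cardinal.one_le_iff_ne_zero, trdeg_ne_zero_iff]
    exact ⟨t, ht⟩

/-- A large algebraically closed subfield over which `t` is transcendental. -/
theorem exists_large_subfield (M : IntermediateField k Ω) (t : Ω)
    (ht : Transcendental M t) :
    ∃ W : IntermediateField k Ω, M ≤ W ∧ (∀ x, IsAlgebraic W x → x ∈ W) ∧ Transcendental W t ∧
      Algebra.trdeg W Ω = 1 := by
  have h1 : AlgebraicIndepOn M id {t} := by
    change AlgebraicIndependent M (fun i : ({t} : Set Ω) => (i : Ω))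
    exact algebraicIndependent_unique_type_iff.mpr ht
  obtain ⟨s, hs, hb⟩ := exists_isTranscendenceBasis_superset h1
  have hts : t ∈ s := hs rfl
  let N : IntermediateField M Ω := IntermediateField.adjoin M (s \ {t})
  have htN : Transcendental N t := by
    rw [IntermediateField.transcendental_adjoin_iff]
    have := hb.1.transcendental_adjoin (s := {i : s | (i : Ω) ≠ t}) (i := ⟨t, hts⟩) (by simp)
    have hset : (Subtype.val '' {i : s | (i : Ω) ≠ t} : Set Ω) = s \ {t} := by
      ext x
      simp [and_comm]
    rw [hset] at this
    exact this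
  let W0 : IntermediateField N Ω := algebraicClosure N Ω
  have htW : Transcendental W0 t := by
    intro h
    apply htN
    exact h.restrictScalars N
  have hmem : ∀ x : M, (x : Ω) ∈ W0 := by
    intro x
    rw [mem_algebraicClosure_iff]
    exact isAlgebraic_algebraMap (algebraMap M N x)
  let W : IntermediateField k Ω := (W0.restrictScalars M).restrictScalars k
  refine ⟨W, ?_, ?_, htW, trdeg_eq_one_of (W := W) htW ?_⟩
  · intro x hx
    exact hmem ⟨x, hx⟩
  · intro x hx
    have h1 : IsAlgebraic W0 x := hx
    change x ∈ W0
    rw [mem_algebraicClosure_iff]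
    exact h1.restrictScalars N
  · have h2 : Algebra.IsAlgebraic (IntermediateField.adjoin M s) Ω := by
      have := hb.isAlgebraic_field
      rwa [Subtype.range_coe] at this
    have h3 : ∀ x ∈ IntermediateField.adjoin M s, x ∈ IntermediateField.adjoin W {t} := by
      intro x hx
      induction hx using IntermediateField.adjoin_induction with
      | mem x hx =>
        by_cases hxt : x = t
        · rw [hxt]; exact IntermediateField.mem_adjoin_simple_self W t
        · have h4 : x ∈ N := IntermediateField.subset_adjoin _ _ ⟨hx, hxt⟩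
          have h5 : x ∈ W := by
            change x ∈ W0
            rw [mem_algebraicClosure_iff]
            exact isAlgebraic_algebraMap (⟨x, h4⟩ : N)
          exact (IntermediateField.adjoin W {t}).algebraMap_mem ⟨x, h5⟩
      | algebraMap x =>
        exact (IntermediateField.adjoin W {t}).algebraMap_mem (⟨x, hmem x⟩ : W)
      | add x y _ _ hx hy => exact add_mem hx hy
      | inv x _ hx => exact inv_mem hx
      | mul x y _ _ hx hy => exact mul_mem hx hy
    let j : IntermediateField.adjoin M s →+* IntermediateField.adjoin W {t} :=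
      (algebraMap (IntermediateField.adjoin M s) Ω).codRestrict
        (IntermediateField.adjoin W {t}).toSubring (fun x => h3 x x.2)
    let _ : Algebra (IntermediateField.adjoin M s) (IntermediateField.adjoin W {t}) := j.toAlgebra
    have : IsScalarTower (IntermediateField.adjoin M s) (IntermediateField.adjoin W {t}) Ω :=
      IsScalarTower.of_algebraMap_eq fun _ => rfl
    exact Algebra.IsAlgebraic.tower_top (K := IntermediateField.adjoin M s)
      (IntermediateField.adjoin W {t})

theorem isAlgebraic_of_adjoin {M N Ω : Type u} [Field M] [Field N] [Field Ω] [Algebra M Ω]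
    [Algebra N Ω] {s : Set Ω} (h : Algebra.IsAlgebraic (IntermediateField.adjoin M s) Ω)
    (hM : ∀ x : M, IsAlgebraic N (algebraMap M Ω x)) (hs : ∀ x ∈ s, IsAlgebraic N x) :
    Algebra.IsAlgebraic N Ω := by
  have hsalg : ∀ x ∈ IntermediateField.adjoin M s, x ∈ algebraicClosure N Ω := by
    intro x hx
    induction hx using IntermediateField.adjoin_induction with
    | mem x hx => exact mem_algebraicClosure_iff.mpr (hs x hx)
    | algebraMap x => exact mem_algebraicClosure_iff.mpr (hM x)
    | add x y _ _ hx hy => exact add_mem hx hy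
    | inv x _ hx => exact inv_mem hx
    | mul x y _ _ hx hy => exact mul_mem hx hy
  let j : IntermediateField.adjoin M s →+* algebraicClosure N Ω :=
    (algebraMap (IntermediateField.adjoin M s) Ω).codRestrict
      (algebraicClosure N Ω).toSubring (fun x => hsalg x x.2)
  let _ : Algebra (IntermediateField.adjoin M s) (algebraicClosure N Ω) := j.toAlgebra
  have : IsScalarTower (IntermediateField.adjoin M s) (algebraicClosure N Ω) Ω :=
    IsScalarTower.of_algebraMap_eq fun _ => rfl
  have h3 : Algebra.IsAlgebraic (algebraicClosure N Ω) Ω :=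
    Algebra.IsAlgebraic.tower_top (K := IntermediateField.adjoin M s) _
  exact Algebra.IsAlgebraic.trans N (algebraicClosure N Ω) Ω

/-- A finitely generated field of constants over which `t` is transcendental. -/
theorem exists_ess_subfield [Algebra.EssFiniteType k Ω] (M : IntermediateField k Ω) (t : Ω)
    (ht : Transcendental M t) {T : Set Ω} (hT : T.Finite) (hTM : T ⊆ M)
    (halg : ∀ x ∈ M, IsAlgebraic (IntermediateField.adjoin k T) x) :
    ∃ W : IntermediateField k Ω, Algebra.EssFiniteType k W ∧ T ⊆ W ∧ Transcendental W t ∧
      IsFunctionField W Ω := by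
  have h1 : AlgebraicIndepOn M id {t} := by
    change AlgebraicIndependent M (fun i : ({t} : Set Ω) => (i : Ω))
    exact algebraicIndependent_unique_type_iff.mpr ht
  obtain ⟨s, hs, hb⟩ := exists_isTranscendenceBasis_superset h1
  have hts : t ∈ s := hs rfl
  have hessM : Algebra.EssFiniteType M Ω := Algebra.EssFiniteType.of_comp k M Ω
  have hsfin : s.Finite := by
    have := finite_of_isTranscendenceBasis hb
    exact Set.toFinite s
  let N : IntermediateField M Ω := IntermediateField.adjoin M (s \ {t})
  have htN : Transcendental N t := by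
    rw [IntermediateField.transcendental_adjoin_iff]
    have := hb.1.transcendental_adjoin (s := {i : s | (i : Ω) ≠ t}) (i := ⟨t, hts⟩) (by simp)
    have hset : (Subtype.val '' {i : s | (i : Ω) ≠ t} : Set Ω) = s \ {t} := by
      ext x
      simp [and_comm]
    rw [hset] at this
    exact this
  let W : IntermediateField k Ω := IntermediateField.adjoin k (T ∪ (s \ {t}))
  have hess : Algebra.EssFiniteType k W :=
    IntermediateField.essFiniteType_iff.mpr
      (IntermediateField.fg_adjoin_of_finite (hT.union hsfin.sdiff))
  have hWN : W ≤ N.restrictScalars k := by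
    rw [IntermediateField.adjoin_le_iff]
    rintro x (hx | hx)
    · exact N.algebraMap_mem ⟨x, hTM hx⟩
    · have h2 : x ∈ N := IntermediateField.subset_adjoin _ _ hx
      exact h2
  have htW : Transcendental W t := by
    intro h
    apply htN
    let i : W →+* N := (IntermediateField.inclusion hWN).toRingHom
    let _ : Algebra W N := i.toAlgebra
    have : IsScalarTower W N Ω := IsScalarTower.of_algebraMap_eq fun _ => rfl
    exact h.tower_top N
  have hMalg : ∀ x ∈ M, IsAlgebraic (IntermediateField.adjoin W {t}) x := by
    intro x hx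
    have h2 : IntermediateField.adjoin k T ≤
        (IntermediateField.adjoin W {t}).restrictScalars k := by
      rw [IntermediateField.adjoin_le_iff]
      intro y hy
      exact (IntermediateField.adjoin W {t}).algebraMap_mem
        ⟨y, IntermediateField.subset_adjoin _ _ (Or.inl hy)⟩
    let i : IntermediateField.adjoin k T →+* IntermediateField.adjoin W {t} :=
      (IntermediateField.inclusion h2).toRingHom
    let _ : Algebra (IntermediateField.adjoin k T) (IntermediateField.adjoin W {t}) := i.toAlgebra
    have : IsScalarTower (IntermediateField.adjoin k T) (IntermediateField.adjoin W {t}) Ω :=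
      IsScalarTower.of_algebraMap_eq fun _ => rfl
    exact (halg x hx).tower_top (IntermediateField.adjoin W {t})
  have halgΩ : Algebra.IsAlgebraic (IntermediateField.adjoin W {t}) Ω := by
    have h2 : Algebra.IsAlgebraic (IntermediateField.adjoin M s) Ω := by
      have := hb.isAlgebraic_field
      rwa [Subtype.range_coe] at this
    refine isAlgebraic_of_adjoin h2 (fun x => hMalg x x.2) fun x hx => ?_
    by_cases hxt : x = t
    · rw [hxt]
      exact isAlgebraic_algebraMap (⟨t, IntermediateField.mem_adjoin_simple_self W t⟩ :
        IntermediateField.adjoin W {t})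
    · have h4 : x ∈ W := IntermediateField.subset_adjoin _ _ (Or.inr ⟨hx, hxt⟩)
      exact isAlgebraic_algebraMap (algebraMap W (IntermediateField.adjoin W {t}) ⟨x, h4⟩)
  refine ⟨W, hess, fun x hx => IntermediateField.subset_adjoin _ _ (Or.inl hx), htW,
    trdeg_eq_one_of htW halgΩ, ?_⟩
  exact Algebra.EssFiniteType.of_comp k W Ω

end

theorem chain_core2 {k K : Type u} [Field k] [CharZero k] [Field K] [Algebra k K]
    [Algebra.EssFiniteType k K] {ι : Type v}
    (L : ι → IntermediateField k K) (hL : ⨅ j, L j = ⊥) (hac : ∀ j x, IsAlgebraic (L j) x → x ∈ L j)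
    (Lp : IntermediateField k K) (t : K) (ht : Transcendental Lp t) :
    ∃ (W F : Type u) (_ : Field W) (_ : Field F) (_ : Algebra k W) (_ : Algebra W F)
      (_ : Algebra k F) (_ : IsScalarTower k W F) (a b : K →ₐ[k] F),
      Algebra.EssFiniteType k W ∧ Linked L a b ∧
      IsFunctionField W F ∧ (∀ x, a x ∈ (algebraMap W F).range) ∧
      (∀ x ∈ Lp, IsAlgebraic W (b x)) ∧ Transcendental W (b t) := by
  obtain ⟨F0, _, _, a0, b0, hl0, hinj0⟩ := exists_generic_chain hL hac
  obtain ⟨S, hS⟩ := hl0.exists_finset
  let Ω := IntermediateField.adjoin k (S : Set F0)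
  obtain ⟨a, b, ha, hb, hl⟩ := hS Ω Ω.val (by
    intro y hy
    exact ⟨⟨y, IntermediateField.subset_adjoin _ _ hy⟩, rfl⟩)
  have hessΩ : Algebra.EssFiniteType k Ω :=
    IntermediateField.essFiniteType_iff.mpr (IntermediateField.fg_adjoin_finset S)
  have hinj : Function.Injective (Algebra.TensorProduct.lift a b (fun _ _ => Commute.all _ _)) := by
    have h1 : Algebra.TensorProduct.lift a0 b0 (fun _ _ => Commute.all _ _) =
        Ω.val.comp (Algebra.TensorProduct.lift a b (fun _ _ => Commute.all _ _)) := by
      rw [← ha, ← hb]
      ext <;> simp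
    rw [h1] at hinj0
    exact fun y z hyz => hinj0 (congrArg Ω.val hyz)
  have htr := transcendental_of_injective a b hinj Lp t ht
  obtain ⟨T0, hT0⟩ := IntermediateField.fg_top k K
  obtain ⟨s', hs'⟩ := exists_isTranscendenceBasis k Lp
  have hfinLp : s'.Finite := by
    have h1 : Algebra.trdeg k Lp < Cardinal.aleph0 :=
      (trdeg_le_of_injective Lp.val Lp.val.toRingHom.injective).trans_lt
        (trdeg_lt_aleph0 k K)
    rw [← hs'.cardinalMk_eq_trdeg] at h1
    exact Cardinal.lt_aleph0_iff_set_finite.mp h1
  let T : Set Ω := a '' (T0 : Set K) ∪ (fun y : Lp => b y) '' s'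
  have hTfin : T.Finite := (T0.finite_toSet.image a).union (hfinLp.image _)
  have hTM : T ⊆ IntermediateField.adjoin k (Set.range a ∪ b '' Lp) := by
    rintro _ (⟨y, -, rfl⟩ | ⟨y, -, rfl⟩)
    · exact IntermediateField.subset_adjoin _ _ (Or.inl ⟨y, rfl⟩)
    · exact IntermediateField.subset_adjoin _ _ (Or.inr ⟨y, y.2, rfl⟩)
  have haT : ∀ y, a y ∈ IntermediateField.adjoin k T := by
    intro y
    have h1 : (⊤ : IntermediateField k K) ≤ (IntermediateField.adjoin k T).comap a := by
      rw [← hT0, IntermediateField.adjoin_le_iff]
      intro y hy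
      exact IntermediateField.subset_adjoin _ _ (Or.inl ⟨y, hy, rfl⟩)
    exact h1 (IntermediateField.mem_top (x := y))
  have hbT : ∀ y ∈ Lp, IsAlgebraic (IntermediateField.adjoin k T) (b y) := by
    intro y hy
    have h1 : Algebra.IsAlgebraic (IntermediateField.adjoin k s') Lp := by
      have := hs'.isAlgebraic_field
      rwa [Subtype.range_coe] at this
    have h2 := h1.isAlgebraic (⟨y, hy⟩ : Lp)
    have h3 : ∀ z ∈ IntermediateField.adjoin k s', b (z : K) ∈ IntermediateField.adjoin k T := by
      intro z hz
      have h4 : IntermediateField.adjoin k s' ≤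
          (IntermediateField.adjoin k T).comap (b.comp Lp.val) := by
        rw [IntermediateField.adjoin_le_iff]
        intro w hw
        exact IntermediateField.subset_adjoin _ _ (Or.inr ⟨w, hw, rfl⟩)
      exact h4 hz
    let i : IntermediateField.adjoin k s' →+* IntermediateField.adjoin k T :=
      ((b.comp Lp.val).toRingHom.comp (algebraMap (IntermediateField.adjoin k s') Lp)).codRestrict
        (IntermediateField.adjoin k T).toSubring (fun z => h3 z z.2)
    obtain ⟨p, hp, hpy⟩ := h2
    refine ⟨p.map i, ?_, ?_⟩
    · rw [Ne, Polynomial.map_eq_zero]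
      exact hp
    · rw [aeval_def, eval₂_map]
      have h5 : (algebraMap (IntermediateField.adjoin k T) Ω).comp i =
          (b.comp Lp.val).toRingHom.comp (algebraMap (IntermediateField.adjoin k s') Lp) := rfl
      rw [h5]
      have h6 := congrArg (b.comp Lp.val).toRingHom hpy
      rw [aeval_def, hom_eval₂, map_zero] at h6
      exact h6
  have halg : ∀ x ∈ IntermediateField.adjoin k (Set.range a ∪ b '' Lp),
      IsAlgebraic (IntermediateField.adjoin k T) x := by
    intro x hx
    rw [← mem_algebraicClosure_iff]
    induction hx using IntermediateField.adjoin_induction with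
    | mem x hx =>
      rw [mem_algebraicClosure_iff]
      rcases hx with ⟨y, rfl⟩ | ⟨y, hy, rfl⟩
      · exact isAlgebraic_algebraMap (⟨a y, haT y⟩ : IntermediateField.adjoin k T)
      · exact hbT y hy
    | algebraMap x =>
      rw [mem_algebraicClosure_iff]
      exact isAlgebraic_algebraMap (algebraMap k (IntermediateField.adjoin k T) x)
    | add x y _ _ hx hy => exact add_mem hx hy
    | inv x _ hx => exact inv_mem hx
    | mul x y _ _ hx hy => exact mul_mem hx hy
  obtain ⟨W, hessW, hTW, htW, hFF⟩ := exists_ess_subfield _ _ htr hTfin hTM halg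
  have hTW' : IntermediateField.adjoin k T ≤ W := by
    rw [IntermediateField.adjoin_le_iff]; exact hTW
  refine ⟨W, Ω, inferInstance, inferInstance, inferInstance, inferInstance, inferInstance,
    inferInstance, a, b, hessW, hl, hFF, ?_, ?_, htW⟩
  · intro x
    exact ⟨⟨a x, hTW' (haT x)⟩, rfl⟩
  · intro x hx
    let i : IntermediateField.adjoin k T →+* W := (IntermediateField.inclusion hTW').toRingHom
    let _ : Algebra (IntermediateField.adjoin k T) W := i.toAlgebra
    have : IsScalarTower (IntermediateField.adjoin k T) W Ω :=
      IsScalarTower.of_algebraMap_eq fun _ => rfl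
    exact (hbT x hx).tower_top W

/-- The subfields over which `K` has transcendence degree one and which contain a field which is
algebraically closed in `K`. -/
theorem mem_of_forall_large {k K : Type u} [Field k] [Field K] [Algebra k K]
    (L : IntermediateField k K) (hL : ∀ x, IsAlgebraic L x → x ∈ L) {h : K}
    (hh : ∀ M : IntermediateField k K, L ≤ M → (∀ x, IsAlgebraic M x → x ∈ M) →
      Algebra.trdeg M K = 1 → h ∈ M) : h ∈ L := by
  by_contra hcon
  have ht : Transcendental L h := fun h' => hcon (hL h h')
  obtain ⟨W, hW1, hW2, hW3, hW4⟩ := exists_large_subfield L h ht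
  have h1 := hh W hW1 hW2 hW4
  exact hW3 (isAlgebraic_algebraMap (⟨h, h1⟩ : W))

end Pool.Agent.Lib.MP_cc17a8_ag.Gen
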