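import Mathlib
import Pool.Agent.Lib.MP_cc17a8_ag.Tensor
import Pool.Agent.Lib.MP_cc17a8_ag.PlacesFF

open TensorProduct Polynomial IntermediateField

universe u v

namespace Pool.Agent.Lib.MP_cc17a8_ag.Gen

theorem linearIndependent_pow_transc {L K : Type u} [Field L] [Field K] [Algebra L K]
    {t : K} (ht : Transcendental L t) : LinearIndependent L (fun n : ℕ => t ^ n) := by
  have h2 := transcendental_iff_injective.mp ht
  have h3 := (Polynomial.basisMonomials L).linearIndependent.map'
    (aeval t : L[X] →ₐ[L] K).toLinearMap (LinearMap.ker_eq_bot.mpr h2)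
  have h4 : (⇑(aeval t : L[X] →ₐ[L] K).toLinearMap ∘ ⇑(Polynomial.basisMonomials L)) =
      fun n : ℕ => t ^ n := by
    ext n
    simp
  rw [h4] at h3
  exact h3

/-- The places of `Frac (F ⊗ K)` defined by a homomorphism `K → F`. -/
theorem exists_place_of_hom {F R K2 : Type u} [Field F] [CommRing R] [IsDomain R] [Field K2]
    [Algebra F R] [Algebra R K2] [Algebra F K2] [IsScalarTower F R K2] [IsFractionRing R K2]
    (τ : R →ₐ[F] F) {r : R} (hr0 : r ≠ 0) (hr : τ r = 0) :
    ∃ P : ValuationSubring K2, IsPlace F P ∧ ∀ s : R, τ s = 0 → P.valuation (algebraMap R K2 s) < 1 := by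
  let A : Subring K2 := (algebraMap R K2).range
  let e : R ≃+* A := RingEquiv.ofBijective (algebraMap R K2).rangeRestrict
    ⟨fun a b h => IsFractionRing.injective R K2 (congrArg Subtype.val h),
      RingHom.rangeRestrict_surjective _⟩
  have he : ∀ s, ((e s : A) : K2) = algebraMap R K2 s := fun s => rfl
  let I : Ideal A := (RingHom.ker τ.toRingHom).comap e.symm.toRingHom
  have hI : I ≠ ⊤ := by
    intro h
    have h1 : (1 : A) ∈ I := by rw [h]; trivial
    rw [Ideal.mem_comap, RingHom.mem_ker] at h1
    rw [map_one, map_one] at h1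
    exact one_ne_zero h1
  obtain ⟨P, hAP, hIP⟩ := Ideal.image_subset_nonunits_valuationSubring I hI
  have hR : ∀ s : R, algebraMap R K2 s ∈ P := fun s => hAP ⟨s, rfl⟩
  have hker : ∀ s : R, τ s = 0 → P.valuation (algebraMap R K2 s) < 1 := by
    intro s hs
    have h1 : algebraMap R K2 s ∈ P.nonunits := by
      apply hIP
      refine ⟨e s, ?_, rfl⟩
      rw [SetLike.mem_coe, Ideal.mem_comap, RingHom.mem_ker]
      change τ (e.symm (e s)) = 0
      rw [e.symm_apply_apply]
      exact hs
    exact (P.mem_nonunits_iff).mp h1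
  refine ⟨P, ⟨fun a => ?_, ?_⟩, hker⟩
  · rw [IsScalarTower.algebraMap_apply F R K2]
    exact hR _
  · rintro rfl
    have h1 := hker r hr
    have h2 : algebraMap R K2 r ≠ 0 := by
      rw [Ne, IsFractionRing.to_map_eq_zero_iff]
      exact hr0
    have h3 : (⊤ : ValuationSubring K2).valuation (algebraMap R K2 r)⁻¹ ≤ 1 :=
      (ValuationSubring.valuation_le_one_iff _ _).mpr trivial
    rw [map_inv₀] at h3
    have h4 : (⊤ : ValuationSubring K2).valuation (algebraMap R K2 r) ≠ 0 :=
      (Valuation.ne_zero_iff _).mpr h2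
    have h5 := (one_lt_inv₀ (zero_lt_iff.mpr h4)).mpr h1
    exact absurd h3 (not_le.mpr h5)

theorem exists_fibre_field {k K F : Type u} [Field k] [CharZero k] [Field K] [Field F]
    [Algebra k K] [Algebra.EssFiniteType k K] [Algebra k F]
    (M : IntermediateField k K) (hM : ∀ x : K, IsAlgebraic M x → x ∈ M)
    (htr : Algebra.trdeg M K = 1) (x x' : K →ₐ[k] F) (hx : ∀ m ∈ M, x m = x' m) :
    ∃ (K2 : Type u) (_ : Field K2) (_ : Algebra F K2) (j : K →+* K2),
      IsFunctionField F K2 ∧ (∀ m ∈ M, j m = algebraMap F K2 (x m)) ∧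
      (∃ P : ValuationSubring K2, IsPlace F P ∧
        ∀ h, P.valuation (j h - algebraMap F K2 (x h)) < 1) ∧
      ∃ P : ValuationSubring K2, IsPlace F P ∧
        ∀ h, P.valuation (j h - algebraMap F K2 (x' h)) < 1 := by
  let algF : Algebra M F := (x.toRingHom.comp (algebraMap M K)).toAlgebra
  have hmap : ∀ m : M, algebraMap M F m = x m := fun m => rfl
  have hM' : ∀ y : K, IsAlgebraic M y → y ∈ (algebraMap M K).range :=
    fun y hy => ⟨⟨y, hM y hy⟩, rfl⟩
  have hcz : CharZero M := charZero_of_injective_algebraMap (algebraMap k M).injective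
  have hdom' : IsDomain (K ⊗[M] F) := isDomain_tensor_of_algClosedIn hM'
  let R := F ⊗[M] K
  have hdom : IsDomain R := (Algebra.TensorProduct.comm M F K).toMulEquiv.isDomain
  let K2 := FractionRing R
  have hessM : Algebra.EssFiniteType M K := Algebra.EssFiniteType.of_comp k M K
  have hessR : Algebra.EssFiniteType F R := inferInstance
  have hess2 : Algebra.EssFiniteType F K2 := by
    have : Algebra.EssFiniteType R K2 := Algebra.EssFiniteType.of_isLocalization K2 (nonZeroDivisors R)
    exact Algebra.EssFiniteType.comp F R K2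
  let jR : K →+* R := (Algebra.TensorProduct.includeRight : K →ₐ[M] F ⊗[M] K).toRingHom
  let j : K →+* K2 := (algebraMap R K2).comp jR
  have hjR : ∀ h, jR h = (1 : F) ⊗ₜ[M] h := fun h => rfl
  have hj : ∀ h, j h = algebraMap R K2 (jR h) := fun h => rfl
  have hFR : ∀ a : F, algebraMap F R a = a ⊗ₜ[M] (1 : K) := fun a => rfl
  have hjM : ∀ m : M, jR m = algebraMap F R (x m) := by
    intro m
    rw [hjR, hFR, ← hmap, Algebra.algebraMap_eq_smul_one, TensorProduct.smul_tmul,
      Algebra.smul_def, mul_one]
    rfl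
  -- a transcendental element
  obtain ⟨t, ht⟩ : ∃ t : K, Transcendental M t := by
    have h1 : Algebra.trdeg M K ≠ 0 := by rw [htr]; exact one_ne_zero
    exact (trdeg_ne_zero_iff.mp h1).transcendental
  have hKt : Algebra.IsAlgebraic M⟮t⟯ K := by
    have := (IsFunctionField.mk htr hessM).finiteDimensional ht
    infer_instance
  have htF : Transcendental F (j t) := by
    have h1 : LinearIndependent M (fun n : ℕ => t ^ n) :=
      linearIndependent_pow_transc ht
    have h2 : LinearIndependent F (fun n : ℕ => (1 : F) ⊗ₜ[M] (t ^ n)) :=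
      Module.Flat.linearIndependent_one_tmul h1
    rw [transcendental_iff]
    intro p hp
    have h3 : aeval (jR t) p = 0 := by
      apply IsFractionRing.injective R K2
      rw [map_zero, ← hp, hj, ← aeval_algebraMap_apply]
    rw [aeval_eq_sum_range] at h3
    have h4 : ∑ n ∈ Finset.range (p.natDegree + 1), p.coeff n • ((1 : F) ⊗ₜ[M] (t ^ n)) = 0 := by
      rw [← h3]
      apply Finset.sum_congr rfl
      intro n _
      rw [← map_pow, hjR]
    rw [linearIndependent_iff'] at h2
    have h5 := h2 _ _ h4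
    ext n
    rw [coeff_zero]
    by_cases hn : n ∈ Finset.range (p.natDegree + 1)
    · exact h5 n hn
    · apply coeff_eq_zero_of_natDegree_lt
      rw [Finset.mem_range, not_lt] at hn
      omega
  have halg : Algebra.IsAlgebraic F⟮j t⟯ K2 := by
    let S : Subalgebra F⟮j t⟯ K2 := (integralClosure F⟮j t⟯ K2)
    have hF : ∀ a : F, algebraMap F K2 a ∈ S := fun a =>
      S.algebraMap_mem (algebraMap F F⟮j t⟯ a)
    have hMt : ∀ y ∈ M⟮t⟯, j y ∈ F⟮j t⟯ := by
      intro y hy
      induction hy using IntermediateField.adjoin_induction with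
      | mem y hy => rw [Set.mem_singleton_iff.mp hy]; exact mem_adjoin_simple_self F _
      | algebraMap m =>
        have h1 : j (algebraMap M K m) = algebraMap F K2 (x m) := by
          rw [hj]
          change algebraMap R K2 (jR m) = _
          rw [hjM, ← IsScalarTower.algebraMap_apply]
        rw [h1]
        exact F⟮j t⟯.algebraMap_mem _
      | add y z _ _ hy hz => rw [map_add]; exact add_mem hy hz
      | inv y _ hy => rw [map_inv₀]; exact inv_mem hy
      | mul y z _ _ hy hz => rw [map_mul]; exact mul_mem hy hz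
    have hK : ∀ y : K, j y ∈ S := by
      intro y
      obtain ⟨p, hp, hpy⟩ := (hKt.isAlgebraic y).isIntegral
      let i0 : M⟮t⟯ →+* F⟮j t⟯ := (j.comp (algebraMap M⟮t⟯ K)).codRestrict F⟮j t⟯.toSubring
        (fun y => hMt y y.2)
      refine ⟨p.map i0, hp.map _, ?_⟩
      rw [eval₂_map]
      have h1 : (algebraMap F⟮j t⟯ K2).comp i0 = j.comp (algebraMap M⟮t⟯ K) := rfl
      rw [h1, ← hom_eval₂, hpy, map_zero]
    have hRS : ∀ r : R, algebraMap R K2 r ∈ S := by
      intro r
      induction r using TensorProduct.induction_on with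
      | zero => rw [map_zero]; exact S.zero_mem
      | add r s hr hs => rw [map_add]; exact S.add_mem hr hs
      | tmul a b =>
        have h1 : (a ⊗ₜ[M] b : R) = algebraMap F R a * jR b := by
          rw [hFR, hjR, Algebra.TensorProduct.tmul_mul_tmul, mul_one, one_mul]
        rw [h1, map_mul, ← IsScalarTower.algebraMap_apply]
        exact S.mul_mem (hF a) (hK b)
    constructor
    intro z
    obtain ⟨a, b, hb, rfl⟩ := IsFractionRing.div_surjective (A := R) z
    have h1 : IsAlgebraic F⟮j t⟯ (algebraMap R K2 a) := (hRS a).isAlgebraic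
    have h2 : IsAlgebraic F⟮j t⟯ (algebraMap R K2 b) := (hRS b).isAlgebraic
    rw [div_eq_mul_inv]
    exact h1.mul h2.inv
  have hff : IsFunctionField F K2 := by
    refine ⟨le_antisymm ?_ ?_, hess2⟩
    · have h1 : Algebra.IsAlgebraic (Algebra.adjoin F {j t}) K2 :=
        ⟨fun y => IntermediateField.isAlgebraic_adjoin_iff.mp (halg.isAlgebraic y)⟩
      have h2 := Algebra.IsAlgebraic.trdeg_le_cardinalMk (R := F) (s := {j t}) (A := K2)
      simpa using h2
    · rw [Cardinal.one_le_iff_ne_zero, trdeg_ne_zero_iff]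
      exact ⟨j t, htF⟩
  -- the places
  have key : ∀ y : K →ₐ[k] F, (∀ m ∈ M, x m = y m) → ∃ P : ValuationSubring K2, IsPlace F P ∧
      ∀ h, P.valuation (j h - algebraMap F K2 (y h)) < 1 := by
    intro y hy
    let yM : K →ₐ[M] F := { y.toRingHom with commutes' := fun m => (hy m m.2).symm }
    let τ : R →ₐ[F] F := Algebra.TensorProduct.lift (AlgHom.id F F) yM (fun _ _ => Commute.all _ _)
    have hτ : ∀ h : K, τ (jR h - algebraMap F R (y h)) = 0 := by
      intro h
      rw [map_sub, τ.commutes, hjR]
      change (Algebra.TensorProduct.lift _ _ _) _ - _ = 0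
      rw [Algebra.TensorProduct.lift_tmul, map_one, one_mul]
      change y h - y h = 0
      exact sub_self _
    have hne : jR t - algebraMap F R (y t) ≠ 0 := by
      intro h0
      apply htF
      rw [sub_eq_zero] at h0
      rw [hj, h0, ← IsScalarTower.algebraMap_apply]
      exact isAlgebraic_algebraMap _
    obtain ⟨P, hP, hPτ⟩ := exists_place_of_hom (K2 := K2) τ hne (hτ t)
    refine ⟨P, hP, fun h => ?_⟩
    have h1 := hPτ _ (hτ h)
    rw [map_sub, ← IsScalarTower.algebraMap_apply] at h1
    exact h1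
  refine ⟨K2, inferInstance, inferInstance, j, hff, fun m hm => ?_, key x fun m _ => rfl, key x' hx⟩
  rw [hj]
  have h1 := hjM ⟨m, hm⟩
  change jR m = _ at h1
  rw [h1, ← IsScalarTower.algebraMap_apply]

end Pool.Agent.Lib.MP_cc17a8_ag.Gen
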