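import Mathlib
import Pool.Agent.Lib.MP_cc17a8_ag.Gen.Chart

open AlgebraicGeometry CategoryTheory IntermediateField Polynomial

universe u

namespace Pool.Agent.Lib.MP_cc17a8_ag.Gen

section

variable {k L F : Type u} [Field k] [Field L] [Field F] [Algebra L F] [CharZero L]
  {X : Scheme.{u}} [IsIntegral X] {f : X ⟶ Spec (.of k)} [IsProper f] {x : X}
  {g : X.presheaf.stalk x →+* F} [IsLocalHom g]

theorem finite_nonunit (hg : GoodPoint f g L) (D : CartierDivisor X) {s : X.functionField}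
    (hs : IsUnitAt x (s * D.eqn x)) (hreg : ∀ y, IsRegularAt y (s * D.eqn y)) :
    {v : ValuationSubring F | IsPlace L v ∧
      ¬ IsUnitAt (center g v) (s * D.eqn (center g v))}.Finite := by
  refine (finite_support_section hg D hs).subset ?_
  rintro v ⟨hv, hnu⟩
  refine ⟨hv, ?_⟩
  have := isDVR hg.ff hv
  have hc := hg.isCenter hv
  obtain ⟨hsp, -⟩ := id hc
  have hne : evalAt g (s * D.eqn (center g v)) ≠ 0 := by
    have h1 : s * D.eqn (center g v) = (s * D.eqn x) * (D.eqn (center g v) / D.eqn x) := by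
      have := D.ne_zero x
      field_simp
    rw [h1]
    exact evalAt_ne_zero g (hs.mul (D.isUnitAt_div hsp))
  exact (ordAt_pos v (hc.mem (hreg _)) hne (hc.inv_notMem (hreg _) hnu hne)).ne'

end

section

variable {k L K : Type u} [Field k] [Field L] [Field K] [Algebra L K] [CharZero L]
  {X : Scheme.{u}} [IsIntegral X] {f : X ⟶ Spec (.of k)} {x : X}
  {g : X.presheaf.stalk x →+* K} [IsLocalHom g]

/-- The degree of `D` along the point with values in the residue field of `Q` defined by `g`. -/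
noncomputable def rdeg (L : Type u) {K : Type u} [Field L] [Field K] [Algebra L K]
    {X : Scheme.{u}} [IsIntegral X] {x : X} (g : X.presheaf.stalk x →+* K)
    (Q : ValuationSubring K) (D : CartierDivisor X) : ℤ :=
  open Classical in
  if h : (∀ a : L, algebraMap L K a ∈ Q) ∧ IsCenter g Q (center g Q) then
    (letI := algVal h.1; wdegree L (resPt h.2) D) else 0

omit [CharZero L] [IsLocalHom g] in
theorem rdeg_eq {Q : ValuationSubring K} (hL : ∀ a : L, algebraMap L K a ∈ Q)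
    (hc : IsCenter g Q (center g Q)) (D : CartierDivisor X) :
    rdeg L g Q D = (letI := algVal hL; wdegree L (resPt hc) D) :=
  dif_pos ⟨hL, hc⟩

omit [CharZero L] [IsIntegral X] in
theorem isCenter_of_const [IsProper f] (hconst : ∀ a : k, g (constants f x a) ∈ (algebraMap L K).range)
    {Q : ValuationSubring K} (hL : ∀ a : L, algebraMap L K a ∈ Q) :
    IsCenter g Q (center g Q) := by
  apply isCenter_center f
  intro a
  obtain ⟨b, hb⟩ := hconst a
  rw [← hb]; exact hL b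

theorem GL_aux [Infinite k] [IsProper f] [hess : Algebra.EssFiniteType L K]
    (htr : Algebra.trdeg L K = 2)
    (hconst : ∀ a : k, g (constants f x a) ∈ (algebraMap L K).range)
    {t : K} (ht : Transcendental L t) {D : CartierDivisor X} {N : ℕ}
    {σ : Fin N → X.functionField} (hσ : Generates D σ) :
    {Q : ValuationSubring K | IsDivisorial L Q ∧ t ∈ Q ∧ t⁻¹ ∉ Q ∧ rdeg L g Q D ≠ 0}.Finite ∧
    wdegree L⟮t⟯ g D = ∑ᶠ Q ∈ {Q : ValuationSubring K | IsDivisorial L Q ∧ t ∈ Q ∧ t⁻¹ ∉ Q},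
      ordAt Q t * rdeg L g Q D := by
  have ht0 : t ≠ 0 := by
    rintro rfl
    exact ht isAlgebraic_zero
  have hcomp : CompactSpace X := by
    have : QuasiCompact f := inferInstance
    exact QuasiCompact.compactSpace_of_compactSpace f
  have hcz : CharZero L⟮t⟯ := charZero_of_injective_algebraMap (algebraMap L L⟮t⟯).injective
  have hgt : GoodPoint f g L⟮t⟯ := by
    refine ⟨isFunctionField_adjoin_simple htr ht, fun a => ?_⟩
    obtain ⟨b, hb⟩ := hconst a
    exact ⟨algebraMap L L⟮t⟯ b, hb⟩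
  have hcen : ∀ Q : ValuationSubring K, (∀ a : L, algebraMap L K a ∈ Q) →
      IsCenter g Q (center g Q) := fun Q hL => isCenter_of_const hconst hL
  -- charts
  choose U hUaff hyU _hU using fun y : X => exists_affine_nhd (x := y) (W := ⊤) trivial
  have hUne : ∀ y, Nonempty (U y) := fun y => ⟨⟨y, hyU y⟩⟩
  obtain ⟨t0, ht0cov⟩ := CompactSpace.elim_nhds_subcover (fun y => (U y : Set X))
    (fun y => (U y).2.mem_nhds (hyU y))
  choose 𝒬' hfin' h𝒬1' h𝒬2' using fun y : X =>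
    exists_chart (f := f) (g := g) (L := L) htr ht0 hconst (hUaff y)
  set 𝒬 : Set (ValuationSubring K) := ⋃ y ∈ t0, 𝒬' y with h𝒬def
  have h𝒬fin : 𝒬.Finite := Set.Finite.biUnion t0.finite_toSet fun y _ => hfin' y
  have h𝒬1 : ∀ Q ∈ 𝒬, (∀ a : L, algebraMap L K a ∈ Q) ∧ t ∈ Q ∧ t⁻¹ ∉ Q ∧
      IsDiscreteValuationRing Q := by
    intro Q hQ
    rw [h𝒬def, Set.mem_iUnion₂] at hQ
    obtain ⟨y, -, hy⟩ := hQ
    exact h𝒬1' y Q hy
  have h𝒬2 : ∀ Q' : ValuationSubring K, (∀ a : L, algebraMap L K a ∈ Q') → t ∈ Q' → t⁻¹ ∉ Q' →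
      Q' ∉ 𝒬 →
        (∀ (hL : ∀ a : L, algebraMap L K a ∈ Q') (r : X.functionField)
          (hr : evalAt g r ∈ Q'), IsRegularAt (center g Q') r →
          letI := algVal hL
          IsAlgebraic L (IsLocalRing.residue Q' ⟨evalAt g r, hr⟩)) ∧
        ∃ Q ∈ 𝒬, ∃ (hQ : IsDivisorial L Q) (hc : IsCenter g Q (center g Q))
          (v : ValuationSubring (IsLocalRing.ResidueField Q)),
          (letI := algVal hQ.mem; IsPlace L v) ∧ center (resPt hc) v = center g Q' := by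
    intro Q' hL ht1 ht2 hQ'
    have h2 : center g Q' ∈ ⋃ y ∈ t0, (U y : Set X) := by rw [ht0cov]; trivial
    rw [Set.mem_iUnion₂] at h2
    obtain ⟨z, hzt, hz⟩ := h2
    have hQz : Q' ∉ 𝒬' z := fun h => hQ' (Set.mem_iUnion₂.mpr ⟨z, hzt, h⟩)
    obtain ⟨h3, Q, hQ, h4⟩ := h𝒬2' z Q' hL ht1 ht2 hz hQz
    exact ⟨h3, Q, Set.mem_iUnion₂.mpr ⟨z, hzt, hQ⟩, h4⟩
  -- the first section
  obtain ⟨a0, ha0⟩ : ∃ a0 : k, a0 ∉ {s : k | ¬ IsUnitAt x (powSec f σ s * D.eqn x)} ∪
      ⋃ Q ∈ 𝒬, {s : k | ¬ IsUnitAt (center g Q) (powSec f σ s * D.eqn (center g Q))} :=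
    Set.Finite.exists_notMem ((powSec_finite hσ x).union
      (h𝒬fin.biUnion fun Q _ => powSec_finite hσ (center g Q)))
  simp only [Set.mem_union, Set.mem_ofPred_eq, Set.mem_iUnion, not_or, not_not, not_exists]
    at ha0
  obtain ⟨ha0x, ha0Q⟩ := ha0
  set s0 := powSec f σ a0 with hs0
  have hr0 : ∀ y, IsRegularAt y (s0 * D.eqn y) := fun y => powSec_regular hσ a0 y
  -- the second section
  have hV : ∀ Q ∈ 𝒬, {s : k | ∃ (hQ : IsDivisorial L Q) (hc : IsCenter g Q (center g Q))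
      (v : ValuationSubring (IsLocalRing.ResidueField Q)),
        (letI := algVal hQ.mem; IsPlace L v) ∧
        ¬ IsUnitAt (center (resPt hc) v) (s0 * D.eqn (center (resPt hc) v)) ∧
        ¬ IsUnitAt (center (resPt hc) v) (powSec f σ s * D.eqn (center (resPt hc) v))}.Finite := by
    intro Q hQ
    by_cases hQd : IsDivisorial L Q
    · have hc := hcen Q hQd.mem
      let _ := algVal hQd.mem
      have hgp := goodPoint_resPt (f := f) hc hQd hconst
      refine ((finite_nonunit hgp D (s := s0) (ha0Q Q hQ) hr0).biUnion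
        fun v _ => powSec_finite (f := f) hσ (center (resPt hc) v)).subset ?_
      rintro s ⟨_, _, v, hv, h1, h2⟩
      exact Set.mem_iUnion₂.mpr ⟨v, ⟨hv, h1⟩, h2⟩
    · convert Set.finite_empty
      ext s
      simp only [Set.mem_ofPred_eq, Set.mem_empty_iff_false, iff_false]
      rintro ⟨h, -⟩
      exact hQd h
  obtain ⟨a1, ha1⟩ : ∃ a1 : k, a1 ∉
      (⋃ v ∈ {v : ValuationSubring K | IsPlace L⟮t⟯ v ∧
        ¬ IsUnitAt (center g v) (s0 * D.eqn (center g v))},
        {s : k | ¬ IsUnitAt (center g v) (powSec f σ s * D.eqn (center g v))}) ∪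
      ⋃ Q ∈ 𝒬, {s : k | ∃ (hQ : IsDivisorial L Q) (hc : IsCenter g Q (center g Q))
      (v : ValuationSubring (IsLocalRing.ResidueField Q)),
        (letI := algVal hQ.mem; IsPlace L v) ∧
        ¬ IsUnitAt (center (resPt hc) v) (s0 * D.eqn (center (resPt hc) v)) ∧
        ¬ IsUnitAt (center (resPt hc) v) (powSec f σ s * D.eqn (center (resPt hc) v))} :=
    Set.Finite.exists_notMem (((finite_nonunit hgt D (s := s0) ha0x hr0).biUnion
      fun v _ => powSec_finite (f := f) hσ (center g v)).union (h𝒬fin.biUnion hV))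
  simp only [Set.mem_union, Set.mem_ofPred_eq, Set.mem_iUnion, not_or, not_not, not_exists,
    not_and] at ha1
  obtain ⟨ha1t, ha1Q⟩ := ha1
  set s1 := powSec f σ a1 with hs1
  have hr1 : ∀ y, IsRegularAt y (s1 * D.eqn y) := fun y => powSec_regular hσ a1 y
  set y := evalAt g (s1 / s0) with hy
  -- the degree over `L(t)`
  have hLt := wdegree_pencil hgt D (s0 := s0) (s1 := s1) ha0x hr0 hr1
    (fun v hv hnu => ha1t v ⟨hv, hnu⟩)
  rw [← hy] at hLt
  -- regularity of `s1 / s0`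
  have hreg : ∀ c : X, IsUnitAt c (s0 * D.eqn c) → IsRegularAt c (s1 / s0) := by
    intro c hc
    rw [div_eq_of_eqn D s0 s1 c, div_eq_mul_inv]
    exact (hr1 c).mul hc.inv.isRegularAt
  have hreg' : ∀ c : X, IsUnitAt c (s1 * D.eqn c) → IsRegularAt c (s0 / s1) := by
    intro c hc
    rw [div_eq_of_eqn D s1 s0 c, div_eq_mul_inv]
    exact (hr0 c).mul hc.inv.isRegularAt
  -- the elements of `𝒬`
  have hB : ∀ Q ∈ 𝒬, ∀ hQ : IsDivisorial L Q, ∃ hyQ : y ∈ Q,
      (letI := algVal hQ.mem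
      (Transcendental L (IsLocalRing.residue Q ⟨y, hyQ⟩) →
        rdeg L g Q D = Module.finrank L⟮IsLocalRing.residue Q ⟨y, hyQ⟩⟯
          (IsLocalRing.ResidueField Q)) ∧
      (IsAlgebraic L (IsLocalRing.residue Q ⟨y, hyQ⟩) → rdeg L g Q D = 0)) := by
    intro Q hQ hQd
    have hc := hcen Q hQd.mem
    have hyQ : y ∈ Q := hc.mem (hreg _ (ha0Q Q hQ))
    refine ⟨hyQ, ?_⟩
    let _ := algVal hQd.mem
    have hgp := goodPoint_resPt (f := f) hc hQd hconst
    have h1 := wdegree_pencil hgp D (s0 := s0) (s1 := s1) (ha0Q Q hQ) hr0 hr1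
      (by
        intro v hv hnu
        exact ha1Q Q hQ hQd hc v hv hnu)
    rw [evalAt_resPt hc (hreg _ (ha0Q Q hQ))] at h1
    rw [rdeg_eq hQd.mem hc]
    exact h1
  -- valuation rings which are not in `𝒬`
  have hC : ∀ Q : ValuationSubring K, IsDivisorial L Q → t ∈ Q → t⁻¹ ∉ Q → Q ∉ 𝒬 →
      rdeg L g Q D = 0 := by
    intro Q hQd ht1 ht2 hQ
    have hc := hcen Q hQd.mem
    have h1 := (h𝒬2 Q hQd.mem ht1 ht2 hQ).1
    rw [rdeg_eq hQd.mem hc]
    let _ := algVal hQd.mem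
    apply wdegree_const (goodPoint_resPt (f := f) hc hQd hconst)
    intro a
    have h2 := h1 hQd.mem (algebraMap (X.presheaf.stalk (center g Q)) X.functionField a)
      (hc.mem ⟨a, rfl⟩) ⟨a, rfl⟩
    rw [← evalAt_resPt hc ⟨a, rfl⟩, evalAt_algebraMap] at h2
    exact h2
  have hA : ∀ Q : ValuationSubring K, Transcendental L y →
      (∀ a : L⟮y⟯, algebraMap L⟮y⟯ K a ∈ Q) → t ∈ Q → t⁻¹ ∉ Q → Q ∈ 𝒬 := by
    intro Q hytr hyQ ht1 ht2
    by_contra hQ
    have hL := mem_of_adjoin_mem hyQ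
    have hc := hcen Q hL
    obtain ⟨h1, Q1, hQ1, hQd1, hc1, v, hv, hcv⟩ := h𝒬2 Q hL ht1 ht2 hQ
    by_cases hu0 : IsUnitAt (center g Q) (s0 * D.eqn (center g Q))
    · have h2 := h1 hL (s1 / s0) (hc.mem (hreg _ hu0)) (hreg _ hu0)
      exact transcendental_residue hytr hL hyQ h2
    · have hu1 : IsUnitAt (center g Q) (s1 * D.eqn (center g Q)) := by
        rw [← hcv] at hu0 ⊢
        exact ha1Q Q1 hQ1 hQd1 hc1 v hv hu0
      obtain ⟨hsp, -⟩ := id hc
      have hu1x : IsUnitAt x (s1 / s0) := by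
        rw [div_eq_of_eqn D s0 s1 x, div_eq_mul_inv]
        have h3 : IsUnitAt x (s1 * D.eqn x) := by
          have h4 : s1 * D.eqn x = (s1 * D.eqn (center g Q)) *
              (D.eqn (center g Q) / D.eqn x)⁻¹ := by
            have := D.ne_zero x
            have := D.ne_zero (center g Q)
            field_simp
          rw [h4]
          exact (hu1.specializes hsp).mul (D.isUnitAt_div hsp).inv
        exact h3.mul ha0x.inv
      have h5 : evalAt g (s0 / s1) = y⁻¹ := by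
        rw [hy, ← evalAt_inv g hu1x, inv_div]
      have h6 := h1 hL (s0 / s1) (hc.mem (hreg' _ hu1)) (hreg' _ hu1)
      let _ := algVal hL
      have h7 := transcendental_residue hytr hL hyQ
      apply h7
      have hyiQ : y⁻¹ ∈ Q := by rw [← h5]; exact hc.mem (hreg' _ hu1)
      have h8 : IsAlgebraic L (IsLocalRing.residue Q ⟨y⁻¹, hyiQ⟩) := by
        have h9 : (⟨y⁻¹, hyiQ⟩ : Q) = ⟨evalAt g (s0 / s1), hc.mem (hreg' _ hu1)⟩ :=
          Subtype.ext h5.symm
        rw [h9]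
        exact h6
      have h10 : IsLocalRing.residue Q ⟨y, hyQ ⟨y, mem_adjoin_simple_self L y⟩⟩ =
          (IsLocalRing.residue Q ⟨y⁻¹, hyiQ⟩)⁻¹ := by
        apply eq_inv_of_mul_eq_one_left
        rw [← map_mul, ← map_one (IsLocalRing.residue Q)]
        congr 1
        apply Subtype.ext
        exact mul_inv_cancel₀ (evalAt_ne_zero g hu1x)
      rw [h10]
      exact h8.inv
  -- nonzero terms
  have hnz : ∀ Q : ValuationSubring K, IsDivisorial L Q → t ∈ Q → t⁻¹ ∉ Q → rdeg L g Q D ≠ 0 →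
      Q ∈ 𝒬 ∧ Transcendental L y ∧ ∀ a : L⟮y⟯, algebraMap L⟮y⟯ K a ∈ Q := by
    intro Q hQd ht1 ht2 hne
    have hQ : Q ∈ 𝒬 := by
      by_contra hQ
      exact hne (hC Q hQd ht1 ht2 hQ)
    refine ⟨hQ, ?_⟩
    obtain ⟨hyQ, -, h2⟩ := hB Q hQ hQd
    exact adjoin_mem_of_transcendental_residue hQd.mem hyQ (fun h => hne (h2 h))
  have hval : ∀ Q : ValuationSubring K, IsDivisorial L Q → t ∈ Q → t⁻¹ ∉ Q →
      Transcendental L y → (∀ a : L⟮y⟯, algebraMap L⟮y⟯ K a ∈ Q) →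
      rdeg L g Q D = resDeg L⟮y⟯ Q := by
    intro Q hQd ht1 ht2 hytr hyQ'
    have hQ := hA Q hytr hyQ' ht1 ht2
    obtain ⟨hyQ, h1, -⟩ := hB Q hQ hQd
    rw [resDeg_eq_finrank hQd.mem hyQ']
    exact h1 (transcendental_residue hytr hQd.mem hyQ')
  refine ⟨h𝒬fin.subset fun Q hQ => (hnz Q hQ.1 hQ.2.1 hQ.2.2.1 hQ.2.2.2).1, ?_⟩
  by_cases hyt : Transcendental L⟮t⟯ y
  · have hytr : Transcendental L y := hyt.restrictScalars (algebraMap L L⟮t⟯).injective
    have htytr : Transcendental L⟮y⟯ t := fun h => hyt (exchange ht h)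
    have hFy : IsFunctionField L⟮y⟯ K := isFunctionField_adjoin_simple htr hytr
    have hczy : CharZero L⟮y⟯ := charZero_of_injective_algebraMap (algebraMap L L⟮y⟯).injective
    rw [hLt.1 hyt, finrank_comm, ← sum_zeros hFy htytr]
    have h1 : ∑ᶠ Q ∈ {Q : ValuationSubring K | IsDivisorial L Q ∧ t ∈ Q ∧ t⁻¹ ∉ Q},
        ordAt Q t * rdeg L g Q D =
        ∑ᶠ Q ∈ {Q : ValuationSubring K | IsPlace L⟮y⟯ Q ∧ t ∈ Q ∧ t⁻¹ ∉ Q},
        ordAt Q t * rdeg L g Q D := by
      apply finsum_mem_inter_support_eq'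
      intro Q hQ
      rw [Function.mem_support] at hQ
      constructor
      · rintro ⟨h1, h2, h3⟩
        obtain ⟨-, -, h4⟩ := hnz Q h1 h2 h3 (right_ne_zero_of_mul hQ)
        exact ⟨isPlace_of_zero h4 h3, h2, h3⟩
      · rintro ⟨h1, h2, h3⟩
        exact ⟨isDivisorial_of_isPlace hytr hFy h1, h2, h3⟩
    rw [h1]
    apply finsum_mem_congr rfl
    rintro Q ⟨h1, h2, h3⟩
    rw [hval Q (isDivisorial_of_isPlace hytr hFy h1) h2 h3 hytr h1.1]
  · rw [hLt.2 (not_not.mp hyt), eq_comm]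
    apply finsum_mem_eq_zero_of_forall_eq_zero
    rintro Q ⟨h1, h2, h3⟩
    by_contra hne
    obtain ⟨-, hytr, hyQ⟩ := hnz Q h1 h2 h3 (right_ne_zero_of_mul hne)
    have h4 := exchange hytr (not_not.mp hyt)
    exact h3 (mem_of_isAlgebraic hyQ h4.inv)

theorem rdeg_sub [IsProper f] (hconst : ∀ a : k, g (constants f x a) ∈ (algebraMap L K).range)
    {Q : ValuationSubring K} (hQ : IsDivisorial L Q) (D E : CartierDivisor X) :
    rdeg L g Q (D - E) = rdeg L g Q D - rdeg L g Q E := by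
  have hc : IsCenter g Q (center g Q) := isCenter_of_const hconst hQ.mem
  rw [rdeg_eq hQ.mem hc, rdeg_eq hQ.mem hc, rdeg_eq hQ.mem hc]
  let _ := algVal hQ.mem
  exact wdegree_sub (goodPoint_resPt (f := f) hc hQ hconst) D E

/-- The degree of a divisor on the generic fibre of the pencil defined by the function `t` on a
surface is the intersection number with the divisor of zeros of `t`. -/
theorem pencil_formula [Infinite k] [IsProper f] [hess : Algebra.EssFiniteType L K]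
    (htr : Algebra.trdeg L K = 2)
    (hconst : ∀ a : k, g (constants f x a) ∈ (algebraMap L K).range)
    {t : K} (ht : Transcendental L t) {A : CartierDivisor X} (hA : A.IsAmple)
    (D : CartierDivisor X) :
    {Q : ValuationSubring K | IsDivisorial L Q ∧ t ∈ Q ∧ t⁻¹ ∉ Q ∧ rdeg L g Q D ≠ 0}.Finite ∧
    wdegree L⟮t⟯ g D = ∑ᶠ Q ∈ {Q : ValuationSubring K | IsDivisorial L Q ∧ t ∈ Q ∧ t⁻¹ ∉ Q},
      ordAt Q t * rdeg L g Q D := by
  have hcomp : CompactSpace X := by
    have : QuasiCompact f := inferInstance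
    exact QuasiCompact.compactSpace_of_compactSpace f
  have hcz : CharZero L⟮t⟯ := charZero_of_injective_algebraMap (algebraMap L L⟮t⟯).injective
  have hgt : GoodPoint f g L⟮t⟯ := by
    refine ⟨isFunctionField_adjoin_simple htr ht, fun a => ?_⟩
    obtain ⟨b, hb⟩ := hconst a
    exact ⟨algebraMap L L⟮t⟯ b, hb⟩
  obtain ⟨m, ⟨N1, σ1, hσ1⟩, ⟨N2, σ2, hσ2⟩⟩ := exists_generates_sub hA D
  obtain ⟨hf1, h1⟩ := GL_aux (f := f) htr hconst ht hσ1
  obtain ⟨hf2, h2⟩ := GL_aux (f := f) htr hconst ht hσ2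
  have hD : D = (m • A + D) - m • A := by abel
  have hr : ∀ Q : ValuationSubring K, IsDivisorial L Q →
      rdeg L g Q D = rdeg L g Q (m • A + D) - rdeg L g Q (m • A) := by
    intro Q hQ
    conv_lhs => rw [hD]
    exact rdeg_sub (f := f) hconst hQ _ _
  have hf : {Q : ValuationSubring K | IsDivisorial L Q ∧ t ∈ Q ∧ t⁻¹ ∉ Q ∧
      rdeg L g Q D ≠ 0}.Finite := by
    refine (hf1.union hf2).subset ?_
    rintro Q ⟨h3, h4, h5, h6⟩
    by_contra hcon
    rw [Set.mem_union, not_or] at hcon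
    obtain ⟨h7, h8⟩ := hcon
    have h7' : rdeg L g Q (m • A + D) = 0 := by
      by_contra h; exact h7 ⟨h3, h4, h5, h⟩
    have h8' : rdeg L g Q (m • A) = 0 := by
      by_contra h; exact h8 ⟨h3, h4, h5, h⟩
    rw [hr Q h3, h7', h8', sub_zero] at h6
    exact h6 rfl
  refine ⟨hf, ?_⟩
  have h3 : wdegree L⟮t⟯ g D = wdegree L⟮t⟯ g (m • A + D) - wdegree L⟮t⟯ g (m • A) := by
    conv_lhs => rw [hD]
    exact wdegree_sub hgt _ _
  have h4 : ∑ᶠ Q ∈ {Q : ValuationSubring K | IsDivisorial L Q ∧ t ∈ Q ∧ t⁻¹ ∉ Q},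
      ordAt Q t * rdeg L g Q (m • A + D) =
      ∑ᶠ Q ∈ {Q : ValuationSubring K | IsDivisorial L Q ∧ t ∈ Q ∧ t⁻¹ ∉ Q},
      (ordAt Q t * rdeg L g Q D + ordAt Q t * rdeg L g Q (m • A)) := by
    apply finsum_mem_congr rfl
    rintro Q ⟨hQ, -⟩
    rw [hr Q hQ]
    ring
  rw [finsum_mem_add_distrib'] at h4
  · rw [h3, h1, h2, h4]
    ring
  · refine hf.subset ?_
    rintro Q ⟨⟨h4, h5, h6⟩, h7⟩
    exact ⟨h4, h5, h6, right_ne_zero_of_mul h7⟩
  · refine hf2.subset ?_
    rintro Q ⟨⟨h4, h5, h6⟩, h7⟩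
    exact ⟨h4, h5, h6, right_ne_zero_of_mul h7⟩

end

end Pool.Agent.Lib.MP_cc17a8_ag.Gen
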