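import Mathlib
import Pool.Agent.Lib.MP_cc17a8_ag.Gen.PencilFormula

open AlgebraicGeometry CategoryTheory IntermediateField Polynomial

universe u

namespace Pool.Agent.Lib.MP_cc17a8_ag.Gen

section Congr

variable {L₁ L₂ F : Type u} [Field L₁] [Field L₂] [Field F] [Algebra L₁ F] [Algebra L₂ F]

theorem exists_equiv_of_range_eq (h : (algebraMap L₁ F).range = (algebraMap L₂ F).range) :
    ∃ e : L₁ ≃+* L₂, ∀ a, algebraMap L₂ F (e a) = algebraMap L₁ F a := by
  let e1 : L₁ ≃+* (algebraMap L₁ F).range :=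
    RingEquiv.ofBijective (algebraMap L₁ F).rangeRestrict
      ⟨RingHom.injective _, RingHom.rangeRestrict_surjective _⟩
  let e2 : L₂ ≃+* (algebraMap L₂ F).range :=
    RingEquiv.ofBijective (algebraMap L₂ F).rangeRestrict
      ⟨RingHom.injective _, RingHom.rangeRestrict_surjective _⟩
  let e3 : (algebraMap L₁ F).range ≃+* (algebraMap L₂ F).range := RingEquiv.subringCongr h
  refine ⟨(e1.trans e3).trans e2.symm, fun a => ?_⟩
  have h1 : e2 (e2.symm (e3 (e1 a))) = e3 (e1 a) := e2.apply_symm_apply _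
  exact congrArg Subtype.val h1

theorem mem_iff_of_range_eq (h : (algebraMap L₁ F).range = (algebraMap L₂ F).range)
    (v : ValuationSubring F) :
    (∀ a : L₁, algebraMap L₁ F a ∈ v) ↔ ∀ a : L₂, algebraMap L₂ F a ∈ v := by
  constructor
  · intro h1 b
    have : algebraMap L₂ F b ∈ (algebraMap L₁ F).range := by rw [h]; exact ⟨b, rfl⟩
    obtain ⟨a, ha⟩ := this
    rw [← ha]; exact h1 a
  · intro h1 b
    have : algebraMap L₁ F b ∈ (algebraMap L₂ F).range := by rw [← h]; exact ⟨b, rfl⟩
    obtain ⟨a, ha⟩ := this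
    rw [← ha]; exact h1 a

theorem resDeg_congr (h : (algebraMap L₁ F).range = (algebraMap L₂ F).range)
    (v : ValuationSubring F) : resDeg L₁ v = resDeg L₂ v := by
  by_cases h1 : ∀ a : L₁, algebraMap L₁ F a ∈ v
  · have h2 := (mem_iff_of_range_eq h v).mp h1
    rw [resDeg_eq h1, resDeg_eq h2]
    obtain ⟨e, he⟩ := exists_equiv_of_range_eq h
    let _ := algVal h1
    let _ := algVal h2
    refine Algebra.finrank_eq_of_equiv_equiv e (RingEquiv.refl _) ?_
    ext a
    change IsLocalRing.residue v ⟨algebraMap L₂ F (e a), _⟩ =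
      IsLocalRing.residue v ⟨algebraMap L₁ F a, _⟩
    congr 1
    exact Subtype.ext (he a)
  · have h2 := mt (mem_iff_of_range_eq h v).mpr h1
    rw [resDeg, dif_neg h1, resDeg, dif_neg h2]

theorem wdegree_congr {X : Scheme.{u}} [IsIntegral X] {x : X} (g : X.presheaf.stalk x →+* F)
    (D : CartierDivisor X) (h : (algebraMap L₁ F).range = (algebraMap L₂ F).range) :
    wdegree L₁ g D = wdegree L₂ g D := by
  rw [wdegree, wdegree]
  apply finsum_mem_congr
  · ext v
    exact and_congr (mem_iff_of_range_eq h v) Iff.rfl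
  · intro v _
    rw [resDeg_congr h]

end Congr

section Finite

variable {L₁ L₂ F : Type u} [Field L₁] [Field L₂] [Field F] [Algebra L₁ L₂] [Algebra L₁ F]
  [Algebra L₂ F] [IsScalarTower L₁ L₂ F] [FiniteDimensional L₁ L₂]

theorem mem_iff_of_finite (v : ValuationSubring F) :
    (∀ a : L₁, algebraMap L₁ F a ∈ v) ↔ ∀ a : L₂, algebraMap L₂ F a ∈ v := by
  constructor
  · intro h b
    apply mem_of_isAlgebraic h
    have h1 : IsAlgebraic L₁ b := Algebra.IsAlgebraic.isAlgebraic b
    exact h1.algHom (IsScalarTower.toAlgHom L₁ L₂ F)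
  · intro h a
    rw [IsScalarTower.algebraMap_apply L₁ L₂ F]
    exact h _

theorem resDeg_finite (v : ValuationSubring F) :
    resDeg L₁ v = Module.finrank L₁ L₂ * resDeg L₂ v := by
  by_cases h1 : ∀ a : L₁, algebraMap L₁ F a ∈ v
  · have h2 := (mem_iff_of_finite (L₂ := L₂) v).mp h1
    rw [resDeg_eq h1, resDeg_eq h2]
    let _ := algVal h1
    let _ := algVal h2
    have : IsScalarTower L₁ L₂ (IsLocalRing.ResidueField v) := by
      apply IsScalarTower.of_algebraMap_eq
      intro a
      change IsLocalRing.residue v ⟨algebraMap L₁ F a, _⟩ =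
        IsLocalRing.residue v ⟨algebraMap L₂ F (algebraMap L₁ L₂ a), _⟩
      congr 1
      exact Subtype.ext (IsScalarTower.algebraMap_apply L₁ L₂ F a)
    exact (Module.finrank_mul_finrank L₁ L₂ (IsLocalRing.ResidueField v)).symm
  · have h2 := mt (mem_iff_of_finite (L₂ := L₂) v).mpr h1
    rw [resDeg, dif_neg h1, resDeg, dif_neg h2, mul_zero]

theorem wdegree_finite {X : Scheme.{u}} [IsIntegral X] {x : X} (g : X.presheaf.stalk x →+* F)
    (D : CartierDivisor X) : wdegree L₁ g D = Module.finrank L₁ L₂ * wdegree L₂ g D := by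
  rw [wdegree, wdegree, mul_finsum_mem]
  apply finsum_mem_congr
  · ext v
    exact and_congr (mem_iff_of_finite v) Iff.rfl
  · intro v _
    rw [resDeg_finite (L₂ := L₂)]
    push_cast
    ring

end Finite

section Comp

theorem val_lt_one_iff_inv {K : Type u} [Field K] (v : ValuationSubring K) {z : K} (hz : z ≠ 0) :
    v.valuation z < 1 ↔ z⁻¹ ∉ v := by
  rw [← v.valuation_le_one_iff, map_inv₀, not_le,
    one_lt_inv₀ (zero_lt_iff.mpr ((Valuation.ne_zero_iff _).mpr hz))]

theorem comap_val_lt_one_iff {E F : Type u} [Field E] [Field F] (i : E →+* F)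
    (w : ValuationSubring F) (z : E) :
    (w.comap i).valuation z < 1 ↔ w.valuation (i z) < 1 := by
  by_cases hz : z = 0
  · rw [hz, map_zero, map_zero, map_zero]
    exact ⟨fun _ => zero_lt_one, fun _ => zero_lt_one⟩
  · rw [val_lt_one_iff_inv _ hz, val_lt_one_iff_inv _ ((map_ne_zero i).mpr hz),
      ValuationSubring.mem_comap, map_inv₀]

variable {k L E F : Type u} [Field k] [Field L] [Field E] [Field F] [Algebra L E] [Algebra E F]
  [Algebra L F] [IsScalarTower L E F] [CharZero L]
  {X : Scheme.{u}} {f : X ⟶ Spec (.of k)} {x : X}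
  {g : X.presheaf.stalk x →+* E} [IsLocalHom g]

omit [CharZero L] [IsLocalHom g] [Algebra E F] [IsScalarTower L E F] in
theorem isCenter_comp (i : E →+* F) {w : ValuationSubring F} {c : X}
    (hc : IsCenter g (w.comap i) c) : IsCenter (i.comp g) w c := by
  obtain ⟨h, hs⟩ := hc
  refine ⟨h, fun s => ?_⟩
  obtain ⟨h1, h2⟩ := hs s
  constructor
  · rw [ValuationSubring.valuation_le_one_iff, ValuationSubring.mem_comap] at h1
    rw [ValuationSubring.valuation_le_one_iff]
    exact h1
  · intro hs'
    exact (comap_val_lt_one_iff i w _).mp (h2 hs')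

omit [CharZero L] in
theorem isPlace_comap [FiniteDimensional E F] {w : ValuationSubring F} (hw : IsPlace L w) :
    IsPlace L (w.comap (algebraMap E F)) := by
  refine ⟨fun a => ?_, ?_⟩
  · rw [ValuationSubring.mem_comap, ← IsScalarTower.algebraMap_apply]
    exact hw.1 a
  · intro htop
    apply hw.2
    rw [eq_top_iff]
    intro z _
    have h1 : ∀ a : E, algebraMap E F a ∈ w := fun a => by
      rw [← ValuationSubring.mem_comap, htop]; trivial
    exact mem_of_isAlgebraic h1 (Algebra.IsAlgebraic.isAlgebraic z)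

omit [CharZero L] in
theorem finrank_adjoin_map (y : E) :
    Module.finrank L⟮algebraMap E F y⟯ F = Module.finrank L⟮y⟯ E * Module.finrank E F := by
  have hst : IsScalarTower L⟮y⟯ E F := inferInstance
  rw [Module.finrank_mul_finrank L⟮y⟯ E F]
  let φ : E →ₐ[L] F := IsScalarTower.toAlgHom L E F
  have h1 : L⟮algebraMap E F y⟯ = L⟮y⟯.map φ := by
    rw [IntermediateField.adjoin_map, Set.image_singleton]
    rfl
  have h2 : (algebraMap L⟮y⟯ F).range = (algebraMap L⟮algebraMap E F y⟯ F).range := by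
    rw [h1]
    ext z
    constructor
    · rintro ⟨a, rfl⟩
      exact ⟨⟨φ a, ⟨a, a.2, rfl⟩⟩, rfl⟩
    · rintro ⟨⟨_, ⟨a, ha, rfl⟩⟩, rfl⟩
      exact ⟨⟨a, ha⟩, rfl⟩
  obtain ⟨e, he⟩ := exists_equiv_of_range_eq h2
  exact (Algebra.finrank_eq_of_equiv_equiv e (RingEquiv.refl F) (by ext a; exact he a)).symm

omit [CharZero L] in
theorem isFunctionField_ext [FiniteDimensional E F] (hE : IsFunctionField L E) :
    IsFunctionField L F := by
  have := hE.ess
  refine ⟨?_, Algebra.EssFiniteType.comp L E F⟩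
  have h1 := trdeg_add_eq (R := L) (S := E) (A := F)
  rw [trdeg_eq_zero (R := E) (A := F), add_zero, hE.trdeg_eq] at h1
  exact h1.symm

variable [IsIntegral X] [IsProper f]

omit [CharZero L] [IsProper f] in
theorem goodPoint_comp [FiniteDimensional E F] (hg : GoodPoint f g L) :
    GoodPoint f ((algebraMap E F).comp g) L := by
  refine ⟨isFunctionField_ext hg.ff, fun a => ?_⟩
  obtain ⟨b, hb⟩ := hg.const a
  refine ⟨b, ?_⟩
  rw [RingHom.comp_apply, ← hb, ← IsScalarTower.algebraMap_apply]

omit [IsLocalHom g] [Algebra E F] [IsScalarTower L E F] in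
theorem evalAt_comp (i : E →+* F) (r : X.functionField) :
    evalAt (i.comp g) r = i (evalAt g r) := by
  by_cases h : IsRegularAt x r
  · obtain ⟨a, rfl⟩ := h
    rw [evalAt_algebraMap, evalAt_algebraMap, RingHom.comp_apply]
  · rw [evalAt, dif_neg h, evalAt, dif_neg h, map_zero]

/-- The degree along a point with values in a finite extension. -/
theorem wdegree_comp_aux [Infinite k] [FiniteDimensional E F] (hg : GoodPoint f g L)
    {D : CartierDivisor X} {N : ℕ} {σ : Fin N → X.functionField} (hσ : Generates D σ) :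
    wdegree L ((algebraMap E F).comp g) D = Module.finrank E F * wdegree L g D := by
  have hg' := goodPoint_comp (F := F) hg
  obtain ⟨a0, ha0⟩ : ∃ a0 : k, a0 ∉ {s : k | ¬ IsUnitAt x (powSec f σ s * D.eqn x)} :=
    Set.Finite.exists_notMem (powSec_finite hσ x)
  rw [Set.mem_ofPred_eq, not_not] at ha0
  set s0 := powSec f σ a0 with hs0
  have hr0 : ∀ y, IsRegularAt y (s0 * D.eqn y) := fun y => powSec_regular hσ a0 y
  obtain ⟨a1, ha1⟩ : ∃ a1 : k, a1 ∉
      (⋃ v ∈ {v : ValuationSubring E | IsPlace L v ∧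
        ¬ IsUnitAt (center g v) (s0 * D.eqn (center g v))},
        {s : k | ¬ IsUnitAt (center g v) (powSec f σ s * D.eqn (center g v))}) :=
    Set.Finite.exists_notMem ((finite_nonunit hg D (s := s0) ha0 hr0).biUnion
      fun v _ => powSec_finite (f := f) hσ (center g v))
  simp only [Set.mem_ofPred_eq, Set.mem_iUnion, not_not, not_exists] at ha1
  set s1 := powSec f σ a1 with hs1
  have hr1 : ∀ y, IsRegularAt y (s1 * D.eqn y) := fun y => powSec_regular hσ a1 y
  have h1 := wdegree_pencil hg D (s0 := s0) (s1 := s1) ha0 hr0 hr1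
    (fun v hv hnu => ha1 v ⟨hv, hnu⟩)
  have h2 := wdegree_pencil hg' D (s0 := s0) (s1 := s1) ha0 hr0 hr1
    (by
      intro w hw hnu
      have hw' := isPlace_comap (E := E) hw
      have hcc : center ((algebraMap E F).comp g) w = center g (w.comap (algebraMap E F)) :=
        (isCenter_comp (algebraMap E F) (hg.isCenter hw')).center_eq f
      rw [hcc] at hnu ⊢
      exact ha1 _ ⟨hw', hnu⟩)
  rw [evalAt_comp] at h2
  by_cases hy : Transcendental L (evalAt g (s1 / s0))
  · have hy' : Transcendental L (algebraMap E F (evalAt g (s1 / s0))) := by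
      rwa [transcendental_algebraMap_iff (algebraMap E F).injective]
    rw [h1.1 hy, h2.1 hy', finrank_adjoin_map]
    push_cast
    ring
  · have hy' : IsAlgebraic L (algebraMap E F (evalAt g (s1 / s0))) :=
      (not_not.mp hy).algebraMap
    rw [h1.2 (not_not.mp hy), h2.2 hy', mul_zero]

theorem wdegree_comp [Infinite k] [FiniteDimensional E F] (hg : GoodPoint f g L)
    {A : CartierDivisor X} (hA : A.IsAmple) (D : CartierDivisor X) :
    wdegree L ((algebraMap E F).comp g) D = Module.finrank E F * wdegree L g D := by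
  have hcomp : CompactSpace X := by
    have : QuasiCompact f := inferInstance
    exact QuasiCompact.compactSpace_of_compactSpace f
  have hg' := goodPoint_comp (F := F) hg
  obtain ⟨m, ⟨N1, σ1, hσ1⟩, ⟨N2, σ2, hσ2⟩⟩ := exists_generates_sub hA D
  have h1 := wdegree_comp_aux (F := F) hg hσ1
  have h2 := wdegree_comp_aux (F := F) hg hσ2
  rw [wdegree_add hg', wdegree_add hg, h2] at h1
  linarith

end Comp

end Pool.Agent.Lib.MP_cc17a8_ag.Gen
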