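import Mathlib
import Pool.Agent.Lib.MP_cc17a8_ag.Gen.Transport

open AlgebraicGeometry CategoryTheory IntermediateField Polynomial

universe u

namespace Pool.Agent.Lib.MP_cc17a8_ag.Gen

theorem finiteDimensional_of_ess (L K : Type u) [Field L] [Field K] [Algebra L K]
    [Algebra.IsAlgebraic L K] [Algebra.EssFiniteType L K] : FiniteDimensional L K := by
  obtain ⟨s, hs⟩ := IntermediateField.fg_top L K
  have h6 : FiniteDimensional L (adjoin L (s : Set K)) :=
    IntermediateField.finiteDimensional_adjoin fun x _ => (Algebra.IsIntegral.isIntegral x)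
  rw [hs] at h6
  exact Module.Finite.equiv (IntermediateField.topEquiv (F := L) (E := K)).toLinearEquiv

theorem stalkSpecializes_constants {k : Type u} [Field k] {X : Scheme.{u}}
    (f : X ⟶ Spec (.of k)) {x c : X} (h : x ⤳ c) (a : k) :
    X.presheaf.stalkSpecializes h (constants f c a) = constants f x a := by
  have := germ_constSec f (U := ⊤) (x := c) trivial a
  rw [← this, ← germ_constSec f (U := ⊤) (x := x) trivial a]
  exact TopCat.Presheaf.germ_stalkSpecializes_apply X.presheaf _ _ _

section Base

variable {k F : Type u} [Field k] [CharZero k] [IsAlgClosed k] [Field F] [Algebra k F]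
  {X : Scheme.{u}} [IsIntegral X] {f : X ⟶ Spec (.of k)}

theorem resDeg_eq_one (hF : IsFunctionField k F) {v : ValuationSubring F} (hv : IsPlace k v) :
    resDeg k v = 1 := by
  rw [resDeg_eq hv.1]
  let _ := algVal hv.1
  have hfin := finite_residueField hF hv
  have hbij : Function.Bijective (algebraMap k (IsLocalRing.ResidueField v)) :=
    IsAlgClosed.algebraMap_bijective_of_isIntegral
  have e : k ≃ₗ[k] IsLocalRing.ResidueField v :=
    LinearEquiv.ofBijective (Algebra.linearMap k _) hbij
  rw [← e.finrank_eq, Module.finrank_self]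

theorem wdegree_eq_degree (hF : IsFunctionField k F) {x : X} (g : X.presheaf.stalk x →+* F)
    (D : CartierDivisor X) : wdegree k g D = degree {v | IsPlace k v} g D := by
  rw [wdegree, degree]
  apply finsum_mem_congr rfl
  intro v hv
  rw [resDeg_eq_one hF hv, Nat.cast_one, mul_one]

variable [IsProper f]

theorem inter_eq_wdegree (C : Curve f) (D : CartierDivisor X) :
    inter D C = (letI := resAlg f C.pt; wdegree k (X.residue C.pt).hom D) := by
  let _ := resAlg f C.pt
  rw [inter, C.places_eq, wdegree_eq_degree C.goodPoint.ff]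

/-- Degree along a point with values in a function field over the ground field. -/
theorem exists_wdegree_eq {A : CartierDivisor X} (hA : A.IsAmple) {x : X}
    (g : X.presheaf.stalk x →+* F) [IsLocalHom g] (hF : IsFunctionField k F)
    (hg : ∀ a, g (constants f x a) = algebraMap k F a) (hnc : ∃ a, Transcendental k (g a)) :
    ∃ (C : Curve f) (n : ℕ), C.pt = x ∧ ∀ D : CartierDivisor X, wdegree k g D = n * inter D C := by
  let _ := resAlg f x
  let i : X.residueField x →+* F := IsLocalRing.ResidueField.lift g
  have hi : ∀ a : X.presheaf.stalk x, i (X.residue x a) = g a := fun a => rfl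
  let _ : Algebra (X.residueField x) F := i.toAlgebra
  have htow : IsScalarTower k (X.residueField x) F := by
    apply IsScalarTower.of_algebraMap_eq
    intro a
    rw [← hg a]
    exact (hi _).symm
  have hgi : g = (algebraMap (X.residueField x) F).comp (X.residue x).hom := by
    ext a
    exact (hi a).symm
  obtain ⟨a, ha⟩ := hnc
  have htra : Transcendental k (X.residue x a) := by
    intro h
    apply ha
    rw [← hi a]
    exact h.algebraMap (A := F)
  have h1 := trdeg_add_eq (R := k) (S := X.residueField x) (A := F)
  have hge : 1 ≤ Algebra.trdeg k (X.residueField x) := by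
    rw [Cardinal.one_le_iff_ne_zero, trdeg_ne_zero_iff]
    exact ⟨X.residue x a, htra⟩
  rw [hF.trdeg_eq] at h1
  have htr : Algebra.trdeg k (X.residueField x) = 1 := by
    apply le_antisymm _ hge
    rw [← h1]
    exact self_le_add_right _ _
  have h2 : Algebra.trdeg (X.residueField x) F = 0 := by
    rw [htr] at h1
    have h3 : (1 : Cardinal) + Algebra.trdeg (X.residueField x) F = 1 + 0 := by
      rw [h1, add_zero]
    exact Cardinal.eq_of_add_eq_add_left h3 Cardinal.one_lt_aleph0
  have halg : Algebra.IsAlgebraic (X.residueField x) F := trdeg_eq_zero_iff.mp h2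
  have hess : Algebra.EssFiniteType (X.residueField x) F := by
    have := hF.ess
    exact Algebra.EssFiniteType.of_comp k (X.residueField x) F
  have hfd := finiteDimensional_of_ess (X.residueField x) F
  let C : Curve f := ⟨x, htr⟩
  refine ⟨C, Module.finrank (X.residueField x) F, rfl, fun D => ?_⟩
  rw [inter_eq_wdegree]
  have hloc : IsLocalHom (X.residue x).hom :=
    inferInstanceAs (IsLocalHom (IsLocalRing.residue (X.presheaf.stalk x)))
  have h4 := wdegree_comp (F := F) C.goodPoint hA D
  rw [← h4, ← hgi]

end Base

section Step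

variable {k W : Type u} [Field k] [Field W] [Algebra k W]

/-- A subfield of transcendence degree one less. -/
theorem exists_sub_field [Algebra.EssFiniteType k W] {n : ℕ} (htr : Algebra.trdeg k W = (n + 1 : ℕ)) :
    ∃ k1 : IntermediateField k W, Algebra.EssFiniteType k k1 ∧ Algebra.trdeg k k1 = n ∧
      IsFunctionField k1 W := by
  obtain ⟨s, hs⟩ := exists_isTranscendenceBasis k W
  have hcard := hs.cardinalMk_eq_trdeg
  rw [htr] at hcard
  have hfin : s.Finite := by
    rw [← Cardinal.lt_aleph0_iff_set_finite, hcard]
    exact Cardinal.natCast_lt_aleph0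
  obtain ⟨t, ht⟩ : s.Nonempty := by
    rw [Set.nonempty_iff_ne_empty]
    rintro rfl
    rw [Cardinal.mk_emptyCollection] at hcard
    exact absurd hcard.symm (by exact_mod_cast Nat.succ_ne_zero n)
  let k1 : IntermediateField k W := adjoin k (s \ {t})
  have hfin1 : (s \ {t}).Finite := hfin.sdiff
  have hess : Algebra.EssFiniteType k k1 :=
    IntermediateField.essFiniteType_iff.mpr (fg_adjoin_of_finite hfin1)
  have hle : Algebra.trdeg k k1 ≤ n := by
    have h1 : Algebra.IsAlgebraic (Algebra.adjoin k {z : k1 | (z : W) ∈ s \ {t}}) k1 := by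
      refine ⟨fun z => IntermediateField.isAlgebraic_adjoin_iff.mp ?_⟩
      have hz : z ∈ IntermediateField.adjoin k {z : k1 | (z : W) ∈ s \ {t}} := by
        obtain ⟨z, hz⟩ := z
        have h2 : (IntermediateField.adjoin k {z : k1 | (z : W) ∈ s \ {t}}).map k1.val = k1 := by
          rw [IntermediateField.adjoin_map]
          congr 1
          ext w
          constructor
          · rintro ⟨w', hw', rfl⟩
            exact hw'
          · intro hw
            exact ⟨⟨w, IntermediateField.subset_adjoin _ _ hw⟩, hw, rfl⟩
        have h3 : z ∈ (IntermediateField.adjoin k {z : k1 | (z : W) ∈ s \ {t}}).map k1.val := by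
          rw [h2]; exact hz
        obtain ⟨w, hw, hwz⟩ := h3
        have h4 : w = ⟨z, hz⟩ := Subtype.ext hwz
        rw [← h4]
        exact hw
      exact isAlgebraic_algebraMap (⟨z, hz⟩ : IntermediateField.adjoin k {z : k1 | (z : W) ∈ s \ {t}})
    refine (Algebra.IsAlgebraic.trdeg_le_cardinalMk (R := k)
      (s := {z : k1 | (z : W) ∈ s \ {t}}) (A := k1)).trans ?_
    have h2 : Cardinal.mk {z : k1 | (z : W) ∈ s \ {t}} ≤ Cardinal.mk (s \ {t} : Set W) := by
      refine Cardinal.mk_le_of_injective (f := fun z => ⟨(z.1 : W), z.2⟩) ?_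
      intro a b h
      apply Subtype.ext
      apply Subtype.ext
      exact congrArg (fun z : (s \ {t} : Set W) => (z : W)) h
    refine h2.trans ?_
    have h3 : Cardinal.mk (s \ {t} : Set W) + 1 = Cardinal.mk s := by
      have := Cardinal.mk_insert (s := s \ {t}) (a := t) (by simp)
      rw [Set.insert_sdiff_singleton, Set.insert_eq_of_mem ht] at this
      exact this.symm
    rw [hcard] at h3
    have h4 : Cardinal.mk (s \ {t} : Set W) + 1 = (n : Cardinal) + 1 := by
      rw [h3]; push_cast; rfl
    have h5 := Cardinal.eq_of_add_eq_add_right h4 Cardinal.one_lt_aleph0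
    rw [h5]
  have hle2 : Algebra.trdeg k1 W ≤ 1 := by
    have h1 : Algebra.IsAlgebraic (Algebra.adjoin k1 {t}) W := by
      constructor
      intro y
      rw [← IntermediateField.isAlgebraic_adjoin_iff]
      have h2 := hs.isAlgebraic_field
      rw [Subtype.range_coe] at h2
      have h3 : ∀ x ∈ IntermediateField.adjoin k s, x ∈ IntermediateField.adjoin k1 {t} := by
        intro x hx
        induction hx using IntermediateField.adjoin_induction with
        | mem x hx =>
          by_cases hxt : x = t
          · rw [hxt]; exact IntermediateField.mem_adjoin_simple_self k1 t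
          · exact (IntermediateField.adjoin k1 {t}).algebraMap_mem
              (⟨x, IntermediateField.subset_adjoin _ _ ⟨hx, hxt⟩⟩ : k1)
        | algebraMap x =>
          exact (IntermediateField.adjoin k1 {t}).algebraMap_mem (algebraMap k k1 x)
        | add x y _ _ hx hy => exact add_mem hx hy
        | inv x _ hx => exact inv_mem hx
        | mul x y _ _ hx hy => exact mul_mem hx hy
      let j : IntermediateField.adjoin k s →+* IntermediateField.adjoin k1 {t} :=
        (algebraMap (IntermediateField.adjoin k s) W).codRestrict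
          (IntermediateField.adjoin k1 {t}).toSubring (fun x => h3 x x.2)
      let _ : Algebra (IntermediateField.adjoin k s) (IntermediateField.adjoin k1 {t}) := j.toAlgebra
      have : IsScalarTower (IntermediateField.adjoin k s) (IntermediateField.adjoin k1 {t}) W :=
        IsScalarTower.of_algebraMap_eq fun _ => rfl
      exact (h2.isAlgebraic y).tower_top (IntermediateField.adjoin k1 {t})
    have h2 := Algebra.IsAlgebraic.trdeg_le_cardinalMk (R := k1) (s := {t}) (A := W)
    simpa using h2
  have hadd := trdeg_add_eq (R := k) (S := k1) (A := W)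
  obtain ⟨a, ha⟩ := Cardinal.lt_aleph0.mp (hle.trans_lt Cardinal.natCast_lt_aleph0)
  obtain ⟨b, hb⟩ := Cardinal.lt_aleph0.mp (hle2.trans_lt Cardinal.one_lt_aleph0)
  rw [ha] at hle hadd
  rw [hb] at hle2 hadd
  rw [htr] at hadd
  have hle' : a ≤ n := by exact_mod_cast hle
  have hle2' : b ≤ 1 := by exact_mod_cast hle2
  have hadd' : a + b = n + 1 := by exact_mod_cast hadd
  have hb1 : b = 1 := by omega
  have ha1 : a = n := by omega
  refine ⟨k1, hess, by rw [ha, ha1], ⟨by rw [hb, hb1, Nat.cast_one], ?_⟩⟩
  exact Algebra.EssFiniteType.of_comp k k1 W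

theorem range_adjoin_map {k1 W F : Type u} [Field k1] [Field W] [Field F] [Algebra k1 W]
    [Algebra W F] [Algebra k1 F] [IsScalarTower k1 W F] (t : W) :
    (algebraMap k1⟮t⟯ F).range = (algebraMap k1⟮algebraMap W F t⟯ F).range := by
  let φ : W →ₐ[k1] F := IsScalarTower.toAlgHom k1 W F
  have h1 : k1⟮algebraMap W F t⟯ = k1⟮t⟯.map φ := by
    rw [IntermediateField.adjoin_map, Set.image_singleton]
    rfl
  rw [h1]
  ext z
  constructor
  · rintro ⟨a, rfl⟩
    exact ⟨⟨φ a, ⟨a, a.2, rfl⟩⟩, rfl⟩
  · rintro ⟨⟨_, ⟨a, ha, rfl⟩⟩, rfl⟩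
    exact ⟨⟨a, ha⟩, rfl⟩

end Step

section Nef

variable {k : Type u} [Field k] [CharZero k] [IsAlgClosed k] {X : Scheme.{u}} [IsIntegral X]
  {f : X ⟶ Spec (.of k)} [IsProper f]

/-- A nef divisor has nonnegative degree along all points with values in function fields of one
variable over extensions of the ground field. -/
theorem wdegree_nonneg_of_nef {A : CartierDivisor X} (hA : A.IsAmple) {D : CartierDivisor X}
    (hD : ∀ C : Curve f, 0 ≤ inter D C) (n : ℕ) :
    ∀ (W F : Type u) [Field W] [Field F] [Algebra k W] [Algebra W F]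
      (_ : Algebra.EssFiniteType k W) (_ : Algebra.trdeg k W = n) (_ : IsFunctionField W F)
      (x : X) (g : X.presheaf.stalk x →+* F) [IsLocalHom g]
      (_ : ∀ a, g (constants f x a) = algebraMap W F (algebraMap k W a)),
      0 ≤ wdegree W g D := by
  induction n with
  | zero =>
    intro W F _ _ _ _ hess htr hF x g _ hg
    rw [Nat.cast_zero] at htr
    have halg : Algebra.IsAlgebraic k W := trdeg_eq_zero_iff.mp htr
    have hbij : Function.Bijective (algebraMap k W) :=
      IsAlgClosed.algebraMap_bijective_of_isIntegral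
    let _ : Algebra k F := ((algebraMap W F).comp (algebraMap k W)).toAlgebra
    have htow : IsScalarTower k W F := IsScalarTower.of_algebraMap_eq fun _ => rfl
    have hrange : (algebraMap W F).range = (algebraMap k F).range := by
      ext z
      constructor
      · rintro ⟨w, rfl⟩
        obtain ⟨a, rfl⟩ := hbij.2 w
        exact ⟨a, rfl⟩
      · rintro ⟨a, rfl⟩
        exact ⟨algebraMap k W a, rfl⟩
    have hFk : IsFunctionField k F := by
      have := hF.ess
      refine ⟨?_, Algebra.EssFiniteType.comp k W F⟩
      have h1 := trdeg_add_eq (R := k) (S := W) (A := F)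
      rw [htr, zero_add, hF.trdeg_eq] at h1
      exact h1.symm
    rw [wdegree_congr g D hrange]
    by_cases hnc : ∃ a, Transcendental k (g a)
    · obtain ⟨C, m, -, hC⟩ := exists_wdegree_eq (f := f) hA g hFk hg hnc
      rw [hC]
      exact mul_nonneg (Nat.cast_nonneg _) (hD C)
    · have hgp : GoodPoint f g k := ⟨hFk, fun a => ⟨a, (hg a).symm⟩⟩
      rw [wdegree_const hgp]
      intro a
      by_contra h
      exact hnc ⟨a, h⟩
  | succ n ih =>
    intro W F _ _ _ _ hess htr hF x g _ hg
    obtain ⟨k1, hess1, htr1, hk1⟩ := exists_sub_field htr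
    obtain ⟨t, ht⟩ : ∃ t : W, Transcendental k1 t := by
      have h1 : Algebra.trdeg k1 W ≠ 0 := by rw [hk1.trdeg_eq]; exact one_ne_zero
      exact (trdeg_ne_zero_iff.mp h1).transcendental
    have hfd : FiniteDimensional k1⟮t⟯ W := hk1.finiteDimensional ht
    have hcz : CharZero k1 := charZero_of_injective_algebraMap (algebraMap k k1).injective
    have hessWF := hF.ess
    have hessk1W := hk1.ess
    have hessF : Algebra.EssFiniteType k1 F := Algebra.EssFiniteType.comp k1 W F
    have htrF : Algebra.trdeg k1 F = 2 := by
      have h1 := trdeg_add_eq (R := k1) (S := W) (A := F)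
      rw [hk1.trdeg_eq, hF.trdeg_eq, one_add_one_eq_two] at h1
      exact h1.symm
    have htF : Transcendental k1 (algebraMap W F t) := by
      rwa [transcendental_algebraMap_iff (algebraMap W F).injective]
    have hg1 : ∀ a, g (constants f x a) = algebraMap k1 F (algebraMap k k1 a) := by
      intro a
      rw [hg]
      rfl
    have hconst : ∀ a : k, g (constants f x a) ∈ (algebraMap k1 F).range :=
      fun a => ⟨_, (hg1 a).symm⟩
    obtain ⟨-, hpf⟩ := pencil_formula (f := f) htrF hconst htF hA D
    have h1 : wdegree k1⟮algebraMap W F t⟯ g D = wdegree k1⟮t⟯ g D :=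
      (wdegree_congr g D (range_adjoin_map (k1 := k1) (F := F) t)).symm
    have h2 : wdegree k1⟮t⟯ g D = Module.finrank k1⟮t⟯ W * wdegree W g D :=
      wdegree_finite g D
    have h3 : 0 ≤ wdegree k1⟮algebraMap W F t⟯ g D := by
      rw [hpf]
      refine finsum_mem_induction (fun z => 0 ≤ z) le_rfl (fun _ _ => add_nonneg) ?_
      rintro Q ⟨hQ, htQ, htQ'⟩
      have := hQ.dvr
      refine mul_nonneg (ordAt_nonneg Q htQ) ?_
      have hc : IsCenter g Q (center g Q) := isCenter_of_const hconst hQ.mem
      rw [rdeg_eq hQ.mem hc]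
      let _ := algVal hQ.mem
      refine ih k1 (IsLocalRing.ResidueField Q) hess1 htr1 hQ.ff (center g Q) (resPt hc) ?_
      intro a
      have h5 : g (X.presheaf.stalkSpecializes hc.choose (constants f (center g Q) a)) =
          algebraMap k1 F (algebraMap k k1 a) := by
        rw [← hg1]
        congr 1
        exact stalkSpecializes_constants f hc.choose a
      rw [resPt_apply hc (constants f (center g Q) a) (by rw [h5]; exact hQ.mem _)]
      change _ = IsLocalRing.residue Q ⟨algebraMap k1 F (algebraMap k k1 a), hQ.mem _⟩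
      congr 1
      exact Subtype.ext h5
    rw [h1, h2] at h3
    have h4 : 0 < Module.finrank k1⟮t⟯ W := Module.finrank_pos
    exact (mul_nonneg_iff_of_pos_left (by exact_mod_cast h4)).mp h3

end Nef

end Pool.Agent.Lib.MP_cc17a8_ag.Gen
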