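import Mathlib
import Pool.Agent.Lib.MP_cc17a8_ag.Pullback
import Pool.Agent.Lib.MP_cc17a8_ag.Gen.NefW

open AlgebraicGeometry CategoryTheory

universe u

namespace Pool.Agent.Lib.MP_cc17a8_ag.Gen

theorem exists_eq_of_isAlgebraic {k F : Type u} [Field k] [Field F] [Algebra k F] [IsAlgClosed k]
    {y : F} (hy : IsAlgebraic k y) : ∃ c : k, algebraMap k F c = y := by
  have h1 : Algebra.IsAlgebraic k (IntermediateField.adjoin k {y}) :=
    IntermediateField.isAlgebraic_adjoin_simple hy.isIntegral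
  have hbij : Function.Bijective (algebraMap k (IntermediateField.adjoin k {y})) :=
    IsAlgClosed.algebraMap_bijective_of_isIntegral
  obtain ⟨c, hc⟩ := hbij.2 ⟨y, IntermediateField.mem_adjoin_simple_self k y⟩
  exact ⟨c, congrArg Subtype.val hc⟩

section Closed

variable {k F : Type u} [Field k] [Field F] {X : Scheme.{u}} [IsIntegral X]
  (f : X ⟶ Spec (.of k))

theorem mem_primeIdealOf_iff {U : X.Opens} (hU : IsAffineOpen U) {x : X} (hx : x ∈ U)
    (h : X.presheaf.stalk x →+* F) [IsLocalHom h] (b : Γ(X, U)) :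
    b ∈ (hU.primeIdealOf ⟨x, hx⟩).asIdeal ↔ h (X.presheaf.germ U x hx b) = 0 := by
  let _ := X.presheaf.algebra_section_stalk ⟨x, hx⟩
  have hloc := hU.isLocalization_stalk ⟨x, hx⟩
  have h1 := IsLocalization.AtPrime.isUnit_to_map_iff (X.presheaf.stalk x)
    (hU.primeIdealOf ⟨x, hx⟩).asIdeal b
  rw [Ideal.mem_primeCompl_iff] at h1
  rw [← not_iff_not, ← h1]
  change IsUnit (X.presheaf.germ U x hx b) ↔ _
  constructor
  · intro h2
    exact (h2.map h).ne_zero
  · intro h2
    exact isUnit_of_map_unit h _ (isUnit_iff_ne_zero.mpr h2)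

theorem isClosed_of_isAlgebraic [IsAlgClosed k] [LocallyOfFiniteType f] [Algebra k F] {x : X}
    (h : X.presheaf.stalk x →+* F) [IsLocalHom h]
    (hc : ∀ a, h (constants f x a) = algebraMap k F a) (halg : ∀ s, IsAlgebraic k (h s)) :
    IsClosed {x} := by
  obtain ⟨U, hU, hx, -⟩ := exists_affine_nhd (x := x) (W := ⊤) trivial
  apply isClosed_singleton_of_isMaximal hU hx _ f
  have hJ := mem_primeIdealOf_iff hU hx h
  have hA : ∀ b : Γ(X, U), ∃ c : k, algebraMap k F c = h (X.presheaf.germ U x hx b) := by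
    intro b
    exact exists_eq_of_isAlgebraic (halg (X.presheaf.germ U x hx b))
  rw [Ideal.isMaximal_iff]
  refine ⟨?_, fun J b hIJ hb hbJ => ?_⟩
  · rw [hJ, map_one, map_one]
    exact one_ne_zero
  · rw [hJ] at hb
    obtain ⟨c, hc1⟩ := hA b
    have hcs : h (X.presheaf.germ U x hx (constSec f U c)) = algebraMap k F c := by
      rw [germ_constSec, hc]
    have h3 : b - constSec f U c ∈ J := by
      apply hIJ
      rw [hJ, map_sub, map_sub, hcs, hc1, sub_self]
    have h4 : constSec f U c ∈ J := by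
      have := J.sub_mem hbJ h3
      rwa [sub_sub_cancel] at this
    have hc0 : c ≠ 0 := by
      rintro rfl
      rw [map_zero] at hc1
      exact hb hc1.symm
    have h5 := J.mul_mem_left (constSec f U c⁻¹) h4
    rwa [← map_mul, inv_mul_cancel₀ hc0, map_one] at h5

omit [IsIntegral X] in
theorem const_of_isClosed [IsAlgClosed k] [IsIntegral X] [LocallyOfFiniteType f] {x : X}
    (hcl : IsClosed {x}) (h : X.presheaf.stalk x →+* F) [IsLocalHom h] (s : X.presheaf.stalk x) :
    ∃ c : k, h s = h (constants f x c) := by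
  obtain ⟨U, hU, hx, -⟩ := exists_affine_nhd (x := x) (W := ⊤) trivial
  have hmax := hU.primeIdealOf_isMaximal_of_isClosed ⟨x, hx⟩ hcl
  have hJ := mem_primeIdealOf_iff hU hx h
  set m := (hU.primeIdealOf ⟨x, hx⟩).asIdeal with hm
  let _ : Field (Γ(X, U) ⧸ m) := Ideal.Quotient.field m
  let _ : Algebra k Γ(X, U) := (constSec f U).toAlgebra
  have hft : Algebra.FiniteType k Γ(X, U) := finiteType_constSec f hU
  have hfin : Module.Finite k (Γ(X, U) ⧸ m) := finite_of_finite_type_of_isJacobsonRing k _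
  have hbij : Function.Bijective (algebraMap k (Γ(X, U) ⧸ m)) :=
    IsAlgClosed.algebraMap_bijective_of_isIntegral
  have hA : ∀ b : Γ(X, U), ∃ c : k, h (X.presheaf.germ U x hx b) = h (constants f x c) := by
    intro b
    obtain ⟨c, hc⟩ := hbij.2 (Ideal.Quotient.mk m b)
    have hmem : constSec f U c - b ∈ m := by
      rw [← Ideal.Quotient.eq, ← hc]
      rfl
    rw [hJ, map_sub, map_sub, sub_eq_zero, germ_constSec] at hmem
    exact ⟨c, hmem.symm⟩
  let _ := X.presheaf.algebra_section_stalk ⟨x, hx⟩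
  have hloc := hU.isLocalization_stalk ⟨x, hx⟩
  obtain ⟨⟨b, r⟩, hbs⟩ := IsLocalization.surj (hU.primeIdealOf ⟨x, hx⟩).asIdeal.primeCompl s
  have h1 := IsLocalization.map_units (X.presheaf.stalk x) r
  change IsUnit (X.presheaf.germ U x hx (r : Γ(X, U))) at h1
  change s * X.presheaf.germ U x hx (r : Γ(X, U)) = X.presheaf.germ U x hx b at hbs
  obtain ⟨c, hc⟩ := hA b
  obtain ⟨d, hd⟩ := hA r
  have h2 : h (X.presheaf.germ U x hx (r : Γ(X, U))) ≠ 0 := (h1.map h).ne_zero
  refine ⟨c * d⁻¹, ?_⟩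
  have h3 := congrArg h hbs
  rw [map_mul, hc] at h3
  have h4 : d ≠ 0 := by
    rintro rfl
    rw [hd, map_zero, map_zero] at h2
    exact h2 rfl
  apply mul_right_cancel₀ h2
  rw [h3, hd, ← map_mul, ← map_mul, mul_assoc, inv_mul_cancel₀ h4, mul_one]

end Closed

section Pull

variable {k L F : Type u} [Field k] [Field L] [Field F] [Algebra L F] [CharZero L]
  {X Y : Scheme.{u}} [IsIntegral X] [IsIntegral Y] {f : X ⟶ Spec (.of k)} [IsProper f]
  {gY : Y ⟶ Spec (.of k)} [IsProper gY] {φ : X ⟶ Y}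

omit [IsIntegral X] [IsIntegral Y] [IsProper f] [IsProper gY] in
theorem stalkMap_constants (hφg : φ ≫ gY = f) (x : X) (a : k) :
    φ.stalkMap x (constants gY (φ x) a) = constants f x a := by
  rw [← germ_constSec gY (U := ⊤) (x := φ x) trivial,
    ← germ_constSec f (U := φ ⁻¹ᵁ ⊤) (x := x) trivial]
  have h3 : Y.presheaf.germ ⊤ (φ x) trivial ≫ φ.stalkMap x =
      φ.appLE ⊤ (φ ⁻¹ᵁ ⊤) le_rfl ≫ X.presheaf.germ (φ ⁻¹ᵁ ⊤) x trivial := by
    rw [Scheme.Hom.germ_stalkMap, Scheme.Hom.appLE, Category.assoc, TopCat.Presheaf.germ_res]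
  rw [← constSec_comp hφg (V := ⊤) (U := φ ⁻¹ᵁ ⊤) le_rfl a]
  exact congrArg (fun t => t.hom (constSec gY ⊤ a)) h3

omit [IsProper f] in
theorem isUnitAt_functionFieldMap (hφ : φ (genericPoint X) = genericPoint Y) {x : X}
    {r : Y.functionField} (h : IsUnitAt (φ x) r) : IsUnitAt x (functionFieldMap φ hφ r) := by
  obtain ⟨a, ha, rfl⟩ := h
  exact ⟨φ.stalkMap x a, ha.map (φ.stalkMap x).hom, (functionFieldMap_algebraMap φ hφ x a).symm⟩

/-- The pull-back of a Cartier divisor. -/
noncomputable def pull (φ : X ⟶ Y) (hφ : φ (genericPoint X) = genericPoint Y)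
    (H : CartierDivisor Y) : CartierDivisor X where
  eqn x := functionFieldMap φ hφ (H.eqn (φ x))
  ne_zero x := (map_ne_zero _).mpr (H.ne_zero _)
  compat x := by
    obtain ⟨V, hV, hV'⟩ := H.compat (φ x)
    refine ⟨φ ⁻¹ᵁ V, hV, fun y hy => ?_⟩
    rw [← map_div₀]
    exact isUnitAt_functionFieldMap hφ (hV' (φ y) hy)

theorem evalAt_functionFieldMap (hφ : φ (genericPoint X) = genericPoint Y) {x : X}
    (g : X.presheaf.stalk x →+* F) {r : Y.functionField} (h : IsRegularAt (φ x) r) :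
    evalAt g (functionFieldMap φ hφ r) = evalAt (g.comp (φ.stalkMap x).hom) r := by
  obtain ⟨a, rfl⟩ := h
  rw [functionFieldMap_algebraMap, evalAt_algebraMap, evalAt_algebraMap]
  rfl

variable {x : X} {g : X.presheaf.stalk x →+* F} [IsLocalHom g]

theorem goodPoint_pull (hφg : φ ≫ gY = f) (hg : GoodPoint f g L) :
    GoodPoint gY (g.comp (φ.stalkMap x).hom) L := by
  refine ⟨hg.ff, fun a => ?_⟩
  obtain ⟨b, hb⟩ := hg.const a
  refine ⟨b, ?_⟩
  rw [hb]
  change _ = g (φ.stalkMap x (constants gY (φ x) a))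
  rw [stalkMap_constants hφg]

/-- The degree of a pull-back. -/
theorem wdegree_pull (gY : Y ⟶ Spec (.of k)) [IsProper gY] (hφ : φ (genericPoint X) = genericPoint Y)
    (hg : GoodPoint f g L) (H : CartierDivisor Y) :
    wdegree L g (pull φ hφ H) = wdegree L (g.comp (φ.stalkMap x).hom) H := by
  rw [wdegree, wdegree]
  apply finsum_mem_congr rfl
  intro v hv
  have hc := hg.isCenter hv
  have h1 : center (g.comp (φ.stalkMap x).hom) v = φ (center g v) := (hc.map φ).center_eq gY
  obtain ⟨hsp, -⟩ := id (hc.map φ)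
  rw [h1]
  change ordAt v (evalAt g (functionFieldMap φ hφ (H.eqn (φ (center g v))) /
    functionFieldMap φ hφ (H.eqn (φ x)))) * _ = _
  rw [← map_div₀, evalAt_functionFieldMap hφ g (H.isUnitAt_div hsp).isRegularAt]

end Pull

end Pool.Agent.Lib.MP_cc17a8_ag.Gen
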