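import Mathlib
import Pool.Agent.Lib.MP_cc17a8_ag.Gen.Places

/-!
# Riemann's inequality for function fields of one variable over an arbitrary constant field
-/

open scoped nonZeroDivisors
open IntermediateField algebraAdjoinAdjoin

namespace Pool.Agent.Lib.MP_cc17a8_ag.Gen

universe u

section DVR

variable {F : Type u} [Field F] (v : ValuationSubring F) [IsDiscreteValuationRing v]

theorem mem_of_ordAt_nonneg {x : F} (h : 0 ≤ ordAt v x) : x ∈ v := by
  by_contra hx
  have h0 : x ≠ 0 := by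
    rintro rfl
    exact hx v.zero_mem
  have h1 : x⁻¹ ∈ v := (v.mem_or_inv_mem x).resolve_left hx
  have h2 : 0 < ordAt v x⁻¹ := ordAt_pos v h1 (inv_ne_zero h0) (by rwa [inv_inv])
  rw [ordAt_inv] at h2
  omega

theorem ordAt_pow {x : F} (hx : x ≠ 0) (n : ℕ) : ordAt v (x ^ n) = n * ordAt v x := by
  induction n with
  | zero => simp [ordAt_one]
  | succ n ih => rw [pow_succ, ordAt_mul v (pow_ne_zero n hx) hx, ih]; push_cast; ring

theorem ordAt_zpow {x : F} (hx : x ≠ 0) (n : ℤ) : ordAt v (x ^ n) = n * ordAt v x := by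
  obtain ⟨m, rfl | rfl⟩ := n.eq_nat_or_neg
  · rw [zpow_natCast, ordAt_pow v hx]
  · rw [zpow_neg, zpow_natCast, ordAt_inv, ordAt_pow v hx]; ring

theorem exists_ordAt_eq_one : ∃ t : F, t ≠ 0 ∧ ordAt v t = 1 := by
  obtain ⟨ϖ, hϖ⟩ := IsDiscreteValuationRing.exists_irreducible v
  have h0 : (ϖ : F) ≠ 0 := by
    intro h
    exact hϖ.ne_zero (Subtype.ext h)
  refine ⟨ϖ, h0, ?_⟩
  rw [ordAt_eq_toNat v ϖ.2 h0]
  have : (⟨(ϖ : F), ϖ.2⟩ : v) = ϖ := rfl
  rw [this, Ring.ord_eq_addVal, IsDiscreteValuationRing.addVal_uniformizer hϖ]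
  simp

end DVR

variable {L F : Type u} [Field L] [Field F] [Algebra L F]

/-- one cutting step at a place -/
theorem cut_step {v : ValuationSubring F} [IsDiscreteValuationRing v]
    (hv : ∀ a : L, algebraMap L F a ∈ v)
    (hfin : (letI := algVal hv; Module.Finite L (IsLocalRing.ResidueField v)))
    (a : ℤ) (W : Submodule L F) [FiniteDimensional L W]
    (hW : ∀ g ∈ W, g ≠ 0 → a ≤ ordAt v g) :
    ∃ W' ≤ W, Module.finrank L W ≤ Module.finrank L W' + resDeg L v ∧
      ∀ g ∈ W', g ≠ 0 → a + 1 ≤ ordAt v g := by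
  obtain ⟨t, ht0, ht⟩ := exists_ordAt_eq_one v
  let _ := algVal hv
  have hmem : ∀ g ∈ W, g * t ^ (-a) ∈ v := by
    intro g hg
    by_cases hg0 : g = 0
    · rw [hg0, zero_mul]; exact v.zero_mem
    · apply mem_of_ordAt_nonneg v
      rw [ordAt_mul v hg0 (zpow_ne_zero _ ht0), ordAt_zpow v ht0, ht]
      have := hW g hg hg0
      omega
  let φ : W →ₗ[L] IsLocalRing.ResidueField v :=
    { toFun := fun g => IsLocalRing.residue v ⟨(g : F) * t ^ (-a), hmem g g.2⟩
      map_add' := by
        intro g h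
        rw [← map_add]
        congr 1
        apply Subtype.ext
        simp [add_mul]
      map_smul' := by
        intro c g
        rw [RingHom.id_apply]
        have h1 : c • IsLocalRing.residue v ⟨(g : F) * t ^ (-a), hmem g g.2⟩ =
          IsLocalRing.residue v (algebraMap L v c * ⟨(g : F) * t ^ (-a), hmem g g.2⟩) := by
          rw [map_mul, Algebra.smul_def]
          rfl
        rw [h1]
        congr 1
        apply Subtype.ext
        change (((c • g : W) : F)) * t ^ (-a) = algebraMap L F c * ((g : F) * t ^ (-a))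
        rw [Submodule.coe_smul, Algebra.smul_def, mul_assoc] }
  refine ⟨(LinearMap.ker φ).map W.subtype, Submodule.map_subtype_le _ _, ?_, ?_⟩
  · have h1 := LinearMap.finrank_range_add_finrank_ker φ
    have h2 : Module.finrank L (LinearMap.range φ) ≤ resDeg L v := by
      rw [resDeg_eq hv]
      exact Submodule.finrank_le _
    have h3 : Module.finrank L ((LinearMap.ker φ).map W.subtype) =
        Module.finrank L (LinearMap.ker φ) :=
      Submodule.finrank_map_subtype_eq _ _
    rw [h3]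
    omega
  · rintro _ ⟨g, hg, rfl⟩ hg0
    change (g : F) ≠ 0 at hg0
    have hg' : φ g = 0 := hg
    have h1 : (⟨(g : F) * t ^ (-a), hmem g g.2⟩ : v) ∈ IsLocalRing.maximalIdeal v := by
      rw [← IsLocalRing.residue_eq_zero_iff]
      exact hg'
    have hne : (g : F) * t ^ (-a) ≠ 0 := mul_ne_zero hg0 (zpow_ne_zero _ ht0)
    have h2 : ((g : F) * t ^ (-a))⁻¹ ∉ v := by
      intro hinv
      have : IsUnit (⟨(g : F) * t ^ (-a), hmem g g.2⟩ : v) :=
        IsUnit.of_mul_eq_one ⟨_, hinv⟩ (Subtype.ext (mul_inv_cancel₀ hne))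
      exact (IsLocalRing.mem_maximalIdeal _).mp h1 this
    have h3 := ordAt_pos v (hmem g g.2) hne h2
    rw [ordAt_mul v hg0 (zpow_ne_zero _ ht0), ordAt_zpow v ht0, ht] at h3
    change a + 1 ≤ ordAt v (g : F)
    omega

/-- several cutting steps at a place -/
theorem cut_steps {v : ValuationSubring F} [IsDiscreteValuationRing v]
    (hv : ∀ a : L, algebraMap L F a ∈ v)
    (hfin : (letI := algVal hv; Module.Finite L (IsLocalRing.ResidueField v)))
    (a : ℤ) (n : ℕ) (W : Submodule L F) [FiniteDimensional L W]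
    (hW : ∀ g ∈ W, g ≠ 0 → a ≤ ordAt v g) :
    ∃ W' ≤ W, Module.finrank L W ≤ Module.finrank L W' + n * resDeg L v ∧
      ∀ g ∈ W', g ≠ 0 → a + n ≤ ordAt v g := by
  induction n with
  | zero => exact ⟨W, le_rfl, by simp, by simpa using hW⟩
  | succ n ih =>
    obtain ⟨W1, h1, h2, h3⟩ := ih
    have : FiniteDimensional L W1 := Submodule.finiteDimensional_of_le h1
    obtain ⟨W2, h4, h5, h6⟩ := cut_step hv hfin (a + n) W1 h3
    refine ⟨W2, h4.trans h1, ?_, ?_⟩
    · rw [add_mul, one_mul]; omega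
    · intro g hg hg0
      have := h6 g hg hg0
      push_cast
      omega

variable [CharZero L]

/-- cutting at a finite set of places -/
theorem cut_finset (hF : IsFunctionField L F) (S : Finset (ValuationSubring F))
    (hS : ∀ P ∈ S, IsPlace L P) (a : ValuationSubring F → ℤ) (n : ValuationSubring F → ℕ)
    (W : Submodule L F) [FiniteDimensional L W]
    (hW : ∀ g ∈ W, g ≠ 0 → ∀ P ∈ S, a P ≤ ordAt P g) :
    ∃ W' ≤ W, Module.finrank L W ≤ Module.finrank L W' + ∑ P ∈ S, n P * resDeg L P ∧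
      ∀ g ∈ W', g ≠ 0 → ∀ P ∈ S, a P + n P ≤ ordAt P g := by
  classical
  induction S using Finset.induction_on with
  | empty => exact ⟨W, le_rfl, by simp, by simp⟩
  | insert P S hPS ih =>
    obtain ⟨W1, h1, h2, h3⟩ := ih (fun Q hQ => hS Q (Finset.mem_insert_of_mem hQ))
      (fun g hg hg0 Q hQ => hW g hg hg0 Q (Finset.mem_insert_of_mem hQ))
    have hP := hS P (Finset.mem_insert_self _ _)
    have : FiniteDimensional L W1 := Submodule.finiteDimensional_of_le h1
    have := isDVR hF hP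
    obtain ⟨W2, h4, h5, h6⟩ := cut_steps hP.1 (finite_residueField hF hP) (a P) (n P) W1
      (fun g hg hg0 => hW g (h1 hg) hg0 P (Finset.mem_insert_self _ _))
    refine ⟨W2, h4.trans h1, ?_, ?_⟩
    · rw [Finset.sum_insert hPS]; omega
    · intro g hg hg0 Q hQ
      rcases Finset.mem_insert.mp hQ with rfl | hQ
      · exact h6 g hg hg0
      · exact h3 g (h4 hg) hg0 Q hQ

omit [CharZero L] in
theorem exists_transcendental (hF : IsFunctionField L F) : ∃ x : F, Transcendental L x := by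
  by_contra h
  push Not at h
  have h1 : Algebra.IsAlgebraic L F := ⟨fun x => by
    have := h x
    rwa [Transcendental, not_not] at this⟩
  have h2 := hF.trdeg_eq
  rw [trdeg_eq_zero] at h2
  exact zero_ne_one h2

omit [CharZero L] in
theorem linearIndependent_pow_of_transcendental {K : Type u} [Field K] [Algebra L K] {x : K}
    (hx : Transcendental L x) (m : ℕ) :
    LinearIndependent L (fun i : Fin m => x ^ (i : ℕ)) := by
  have h1 : LinearIndependent L (fun i : ℕ => x ^ i) := by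
    have h2 := (Polynomial.basisMonomials L).linearIndependent.map' (Polynomial.aeval x).toLinearMap
      (by
        rw [LinearMap.ker_eq_bot]
        exact transcendental_iff_injective.mp hx)
    have h3 : (fun i : ℕ => x ^ i) =
        ((Polynomial.aeval (R := L) x).toLinearMap ∘ (Polynomial.basisMonomials L)) := by
      funext i
      simp
    rw [h3]
    exact h2
  exact h1.comp _ Fin.val_injective

omit [CharZero L] in
theorem span_mul_mem {P : ValuationSubring F} (hP : ∀ a : L, algebraMap L F a ∈ P) (c : F)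
    {T : Set F} (hT : ∀ g ∈ T, g * c ∈ P) {g : F} (hg : g ∈ Submodule.span L T) : g * c ∈ P := by
  induction hg using Submodule.span_induction with
  | mem g hg => exact hT g hg
  | zero => rw [zero_mul]; exact P.zero_mem
  | add g h _ _ hg hh => rw [add_mul]; exact P.add_mem _ _ hg hh
  | smul a g _ hg =>
    rw [Algebra.smul_def, mul_assoc]
    exact P.mul_mem _ _ (hP a) hg

theorem exists_spaces (hF : IsFunctionField L F) :
    ∃ (e : ValuationSubring F → ℕ) (N r0 : ℕ), 0 < N ∧
      {P | IsPlace L P ∧ e P ≠ 0}.Finite ∧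
      (∑ᶠ P ∈ {P : ValuationSubring F | IsPlace L P}, (e P : ℤ) * (resDeg L P : ℤ) = N) ∧
      ∀ m : ℕ, ∃ W : Submodule L F, FiniteDimensional L W ∧ Module.finrank L W = (m + 1) * N ∧
        ∀ g ∈ W, g ≠ 0 → ∀ P, IsPlace L P → -((m + r0 : ℕ) : ℤ) * (e P : ℤ) ≤ ordAt P g := by
  classical
  obtain ⟨x, hx⟩ := exists_transcendental hF
  have hx0 : x ≠ 0 := by
    rintro rfl
    exact hx isAlgebraic_zero
  have hxi : Transcendental L x⁻¹ := by
    intro h
    exact hx (by simpa using h.inv)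
  have hfd : FiniteDimensional L⟮x⟯ F := hF.finiteDimensional hx
  have hN : L⟮x⁻¹⟯ = L⟮x⟯ := by
    apply le_antisymm
    · rw [IntermediateField.adjoin_simple_le_iff]
      exact inv_mem (IntermediateField.mem_adjoin_simple_self L x)
    · rw [IntermediateField.adjoin_simple_le_iff]
      have := inv_mem (IntermediateField.mem_adjoin_simple_self L x⁻¹)
      rwa [inv_inv] at this
  let A := Algebra.adjoin L {x}
  obtain ⟨s, b, hb⟩ := FiniteDimensional.exists_is_basis_integral A L⟮x⟯ F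
  set N := Module.finrank L⟮x⟯ F with hNdef
  have hN0 : 0 < N := Module.finrank_pos
  have hcard : Fintype.card s = N := (Module.finrank_eq_card_basis b).symm
  let e : ValuationSubring F → ℕ := fun P => if x ∈ P then 0 else (ordAt P x⁻¹).toNat
  have he0 : ∀ P, x ∈ P → e P = 0 := fun P h => if_pos h
  have he1 : ∀ P, IsPlace L P → x ∉ P → 0 < ordAt P x⁻¹ ∧ (e P : ℤ) = ordAt P x⁻¹ := by
    intro P hP h
    have := isDVR hF hP
    have h1 : x⁻¹ ∈ P := (P.mem_or_inv_mem x).resolve_left h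
    have h2 : 0 < ordAt P x⁻¹ := ordAt_pos P h1 (inv_ne_zero hx0) (by rwa [inv_inv])
    refine ⟨h2, ?_⟩
    simp only [e, if_neg h]
    omega
  have hfinS : {P : ValuationSubring F | IsPlace L P ∧ e P ≠ 0}.Finite := by
    refine (finite_support hF x⁻¹).subset ?_
    rintro P ⟨hP, h⟩
    have hxP : x ∉ P := fun h' => h (he0 P h')
    exact ⟨hP, (he1 P hP hxP).1.ne'⟩
  -- elements of the adjoin
  have hA : ∀ P : ValuationSubring F, (∀ a : L, algebraMap L F a ∈ P) → x ∈ P →
      ∀ y : F, IsIntegral A y → y ∈ P := by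
    intro P hP hxP y hy
    have hAP : ∀ a : A, (a : F) ∈ P := by
      intro a
      let vs : Subalgebra L F := { P.toSubring with algebraMap_mem' := hP }
      have : Algebra.adjoin L {x} ≤ vs := by
        rw [Algebra.adjoin_le_iff, Set.singleton_subset_iff]
        exact hxP
      exact this a.2
    let _ : Algebra A P := (RingHom.codRestrict (algebraMap A F) P.toSubring hAP).toAlgebra
    have : IsScalarTower A P F := IsScalarTower.of_algebraMap_eq fun _ => rfl
    have hs' : IsIntegral P y := hy.tower_top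
    obtain ⟨z, hz⟩ := IsIntegrallyClosed.isIntegral_iff.mp hs'
    rw [← hz]
    exact z.2
  -- the bound at the poles of `x`
  obtain ⟨r0, hr0⟩ : ∃ r0 : ℕ, ∀ j, ∀ P, IsPlace L P → x ∉ P → -(r0 : ℤ) ≤ ordAt P (b j) := by
    let T := hfinS.toFinset
    refine ⟨∑ j, ∑ P ∈ T, (ordAt P (b j)).natAbs, fun j P hP hxP => ?_⟩
    have hPT : P ∈ T := by
      rw [Set.Finite.mem_toFinset]
      refine ⟨hP, ?_⟩
      have := he1 P hP hxP
      omega
    have h1 : (ordAt P (b j)).natAbs ≤ ∑ P ∈ T, (ordAt P (b j)).natAbs :=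
      Finset.single_le_sum (f := fun P => (ordAt P (b j)).natAbs) (fun _ _ => Nat.zero_le _) hPT
    have h2 : ∑ P ∈ T, (ordAt P (b j)).natAbs ≤ ∑ j, ∑ P ∈ T, (ordAt P (b j)).natAbs :=
      Finset.single_le_sum (f := fun j => ∑ P ∈ T, (ordAt P (b j)).natAbs)
        (fun _ _ => Nat.zero_le _) (Finset.mem_univ j)
    omega
  refine ⟨e, N, r0, hN0, hfinS, ?_, fun m => ?_⟩
  · have h1 := sum_zeros hF hxi
    rw [hN] at h1
    rw [hNdef, ← h1]
    have h2 : ∑ᶠ v ∈ {v : ValuationSubring F | IsPlace L v ∧ x⁻¹ ∈ v ∧ (x⁻¹)⁻¹ ∉ v},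
        ordAt v x⁻¹ * (resDeg L v : ℤ) =
        ∑ᶠ v ∈ {v : ValuationSubring F | IsPlace L v ∧ x⁻¹ ∈ v ∧ (x⁻¹)⁻¹ ∉ v},
        (e v : ℤ) * (resDeg L v : ℤ) := by
      refine finsum_mem_congr rfl fun v hv => ?_
      rw [(he1 v hv.1 (by simpa using hv.2.2)).2]
    rw [h2]
    refine finsum_mem_inter_support_eq _ _ _ ?_
    ext P
    simp only [Set.mem_inter_iff, Set.mem_ofPred_eq, Function.mem_support, inv_inv]
    constructor
    · rintro ⟨hP, h⟩
      have hxP : x ∉ P := fun h' => h (by rw [he0 P h']; simp)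
      exact ⟨⟨hP, (P.mem_or_inv_mem x).resolve_left hxP, hxP⟩, h⟩
    · rintro ⟨⟨hP, -, -⟩, h⟩
      exact ⟨hP, h⟩
  · have hKx : Transcendental L (⟨x, IntermediateField.mem_adjoin_simple_self L x⟩ : L⟮x⟯) := by
      intro h
      exact hx (h.algebraMap (A := F))
    have hli := linearIndependent_smul
      (linearIndependent_pow_of_transcendental hKx (m + 1)) b.linearIndependent
    let f : Fin (m + 1) × s → F := fun p => x ^ (p.1 : ℕ) * b p.2
    have hf : LinearIndependent L f := by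
      convert hli using 1
      ext p
      simp [f, Algebra.smul_def, IntermediateField.algebraMap_apply]
    refine ⟨Submodule.span L (Set.range f), ?_, ?_, ?_⟩
    · exact FiniteDimensional.span_of_finite L (Set.finite_range f)
    · rw [finrank_span_eq_card hf, Fintype.card_prod, Fintype.card_fin, hcard]
    · intro g hg hg0 P hP
      have := isDVR hF hP
      by_cases hxP : x ∈ P
      · rw [he0 P hxP]
        simp only [Nat.cast_zero, mul_zero]
        apply ordAt_nonneg
        rw [← mul_one g]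
        refine span_mul_mem hP.1 1 ?_ hg
        rintro _ ⟨⟨i, j⟩, rfl⟩
        rw [mul_one]
        exact P.mul_mem _ _ (P.toSubring.pow_mem hxP _) (hA P hP.1 hxP _ (hb j))
      · obtain ⟨h1, h2⟩ := he1 P hP hxP
        have h3 : g * (x⁻¹) ^ (m + r0) ∈ P := by
          refine span_mul_mem hP.1 _ ?_ hg
          rintro _ ⟨⟨i, j⟩, rfl⟩
          have hi : (i : ℕ) ≤ m := by have := i.2; omega
          have hxi' : x⁻¹ ∈ P := (P.mem_or_inv_mem x).resolve_left hxP
          have h4 : f (i, j) * x⁻¹ ^ (m + r0) = x⁻¹ ^ (m - (i : ℕ)) * (b j * x⁻¹ ^ r0) := by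
            simp only [f]
            have h5 : x⁻¹ ^ (m + r0) = x⁻¹ ^ (i : ℕ) * x⁻¹ ^ (m - (i : ℕ)) * x⁻¹ ^ r0 := by
              rw [← pow_add, ← pow_add]; congr 1; omega
            rw [h5]
            have h6 : x ^ (i : ℕ) * x⁻¹ ^ (i : ℕ) = 1 := by
              rw [← mul_pow, mul_inv_cancel₀ hx0, one_pow]
            calc x ^ (i : ℕ) * b j * (x⁻¹ ^ (i : ℕ) * x⁻¹ ^ (m - (i : ℕ)) * x⁻¹ ^ r0)
                = (x ^ (i : ℕ) * x⁻¹ ^ (i : ℕ)) * (x⁻¹ ^ (m - (i : ℕ)) * (b j * x⁻¹ ^ r0)) := by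
                  ring
              _ = _ := by rw [h6, one_mul]
          rw [h4]
          refine P.mul_mem _ _ (P.toSubring.pow_mem hxi' _) ?_
          have hbj : b j ≠ 0 := b.ne_zero j
          apply mem_of_ordAt_nonneg P
          rw [ordAt_mul P hbj (pow_ne_zero _ (inv_ne_zero hx0)), ordAt_pow P (inv_ne_zero hx0)]
          have h7 := hr0 j P hP hxP
          have h8 : (r0 : ℤ) ≤ r0 * ordAt P x⁻¹ := by nlinarith
          linarith
        have h9 := ordAt_nonneg P h3
        rw [ordAt_mul P hg0 (pow_ne_zero _ (inv_ne_zero hx0)), ordAt_pow P (inv_ne_zero hx0)] at h9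
        rw [h2]
        linarith

theorem exists_riemann (hF : IsFunctionField L F) {P0 P1 : ValuationSubring F}
    (h0 : IsPlace L P0) (h1 : IsPlace L P1) (hne : P0 ≠ P1) :
    ∃ γ : ℕ, ∀ n : ℕ, ∃ g : F, g ≠ 0 ∧ ((n * resDeg L P0 : ℕ) : ℤ) ≤ ordAt P1 g ∧
      -((n * resDeg L P1 + γ : ℕ) : ℤ) ≤ ordAt P0 g ∧
      ∀ P, IsPlace L P → P ≠ P0 → P ≠ P1 → 0 ≤ ordAt P g := by
  classical
  obtain ⟨e, N, r0, hN, hefin, hesum, hW⟩ := exists_spaces hF
  have hd0 := resDeg_pos hF h0
  have hd1 := resDeg_pos hF h1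
  refine ⟨N * r0, fun n => ?_⟩
  set γ := N * r0 with hγ
  set D : ℕ := n * resDeg L P1 + γ with hD
  obtain ⟨W, hWfin, hWrank, hWord⟩ := hW (D * resDeg L P0)
  set m := D * resDeg L P0 with hm
  -- the first function
  obtain ⟨W1, hW1, hW1r, hW1o⟩ := cut_finset hF {P0} (by simpa using h0)
    (fun P => -((m + r0 : ℕ) : ℤ) * (e P : ℤ)) (fun _ => D) W
    (fun g hg hg0 P hP => by
      rw [Finset.mem_singleton] at hP
      subst hP
      exact hWord g hg hg0 _ h0)
  have hfd1 : FiniteDimensional L W1 := Submodule.finiteDimensional_of_le hW1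
  have hpos1 : 0 < Module.finrank L W1 := by
    rw [hWrank, Finset.sum_singleton] at hW1r
    have : m + 1 ≤ (m + 1) * N := Nat.le_mul_of_pos_right _ hN
    omega
  obtain ⟨f, hf1, hf0⟩ : ∃ f ∈ W1, f ≠ 0 := by
    by_contra hcon
    push Not at hcon
    have : W1 = ⊥ := (Submodule.eq_bot_iff _).mpr hcon
    rw [this, finrank_bot] at hpos1
    exact lt_irrefl _ hpos1
  have hfW := hWord f (hW1 hf1) hf0
  have hfP0 := hW1o f hf1 hf0 P0 (Finset.mem_singleton_self _)
  -- the finite set of places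
  have hfin : ({P | IsPlace L P ∧ e P ≠ 0} ∪
      {P : ValuationSubring F | IsPlace L P ∧ ordAt P f ≠ 0} ∪ {P0, P1}).Finite :=
    (hefin.union (finite_support hF f)).union (Set.toFinite _)
  set S := hfin.toFinset with hS
  have hSp : ∀ P ∈ S, IsPlace L P := by
    intro P hP
    rw [hS, Set.Finite.mem_toFinset] at hP
    rcases hP with (hP | hP) | hP | hP
    · exact hP.1
    · exact hP.1
    · exact hP ▸ h0
    · rw [Set.mem_singleton_iff] at hP
      exact hP ▸ h1
  have hSn : ∀ P, IsPlace L P → P ∉ S → e P = 0 ∧ ordAt P f = 0 ∧ P ≠ P0 ∧ P ≠ P1 := by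
    intro P hP hPS
    rw [hS, Set.Finite.mem_toFinset] at hPS
    simp only [Set.mem_union, Set.mem_ofPred_eq, Set.mem_insert_iff, Set.mem_singleton_iff,
      not_or] at hPS
    obtain ⟨⟨ha, hb⟩, hc, hd⟩ := hPS
    refine ⟨?_, ?_, hc, hd⟩
    · by_contra h; exact ha ⟨hP, h⟩
    · by_contra h; exact hb ⟨hP, h⟩
  -- the divisor
  let dv : ValuationSubring F → ℤ := fun P =>
    (if P = P0 then (D : ℤ) else 0) - (if P = P1 then ((n * resDeg L P0 : ℕ) : ℤ) else 0)
  have hP0S : P0 ∈ S := by rw [hS, Set.Finite.mem_toFinset]; right; left; rfl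
  have hP1S : P1 ∈ S := by rw [hS, Set.Finite.mem_toFinset]; right; right; rfl
  have hex : ∀ P, IsPlace L P → 0 ≤ ordAt P f + ((m + r0 : ℕ) : ℤ) * (e P : ℤ) - dv P := by
    intro P hP
    have h2 := hfW P hP
    by_cases hPP0 : P = P0
    · subst hPP0
      simp only [dv, if_true, if_neg hne, sub_zero]
      linarith
    · simp only [dv, if_neg hPP0]
      have h3 : 0 ≤ (if P = P1 then ((n * resDeg L P0 : ℕ) : ℤ) else 0) := by
        split_ifs
        · positivity
        · exact le_rfl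
      linarith
  obtain ⟨W2, hW2, hW2r, hW2o⟩ := cut_finset hF S hSp
    (fun P => -((m + r0 : ℕ) : ℤ) * (e P : ℤ))
    (fun P => (ordAt P f + ((m + r0 : ℕ) : ℤ) * (e P : ℤ) - dv P).toNat) W
    (fun g hg hg0 P hP => hWord g hg hg0 P (hSp P hP))
  have hfd2 : FiniteDimensional L W2 := Submodule.finiteDimensional_of_le hW2
  -- the sums
  have hs1 : ∑ P ∈ S, (e P : ℤ) * (resDeg L P : ℤ) = N := by
    rw [← hesum]
    symm
    apply finsum_mem_eq_sum_of_inter_support_eq
    ext P
    simp only [Set.mem_inter_iff, Set.mem_ofPred_eq, Function.mem_support, Finset.mem_coe]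
    constructor
    · rintro ⟨hP, h⟩
      refine ⟨?_, h⟩
      by_contra hPS
      exact h (by rw [(hSn P hP hPS).1]; simp)
    · rintro ⟨hP, h⟩
      exact ⟨hSp P hP, h⟩
  have hs2 : ∑ P ∈ S, ordAt P f * (resDeg L P : ℤ) = 0 := by
    rw [← sum_ordAt hF f]
    symm
    apply finsum_mem_eq_sum_of_inter_support_eq
    ext P
    simp only [Set.mem_inter_iff, Set.mem_ofPred_eq, Function.mem_support, Finset.mem_coe]
    constructor
    · rintro ⟨hP, h⟩
      refine ⟨?_, h⟩
      by_contra hPS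
      exact h (by rw [(hSn P hP hPS).2.1]; simp)
    · rintro ⟨hP, h⟩
      exact ⟨hSp P hP, h⟩
  have hs3 : ∑ P ∈ S, dv P * (resDeg L P : ℤ) = (γ : ℤ) * resDeg L P0 := by
    simp only [dv, sub_mul, Finset.sum_sub_distrib, ite_mul, zero_mul, Finset.sum_ite_eq',
      if_pos hP0S, if_pos hP1S]
    rw [hD]
    push_cast
    ring
  have hs4 : ((∑ P ∈ S, (ordAt P f + ((m + r0 : ℕ) : ℤ) * (e P : ℤ) - dv P).toNat *
      resDeg L P : ℕ) : ℤ) = ((m + r0 : ℕ) : ℤ) * N - (γ : ℤ) * resDeg L P0 := by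
    push_cast
    have : ∀ P ∈ S, (((ordAt P f + ((m : ℤ) + (r0 : ℤ)) * (e P : ℤ) - dv P).toNat : ℤ)) *
        (resDeg L P : ℤ) = ordAt P f * (resDeg L P : ℤ) +
          ((m : ℤ) + (r0 : ℤ)) * ((e P : ℤ) * (resDeg L P : ℤ)) -
          dv P * (resDeg L P : ℤ) := by
      intro P hP
      have h2 := hex P (hSp P hP)
      push_cast at h2
      rw [Int.toNat_of_nonneg h2]
      ring
    rw [Finset.sum_congr rfl this, Finset.sum_sub_distrib, Finset.sum_add_distrib, hs2,
      ← Finset.mul_sum, hs1, hs3]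
    ring
  have hpos2 : 0 < Module.finrank L W2 := by
    have h2 : ((m + 1) * N : ℕ) ≤ ((Module.finrank L W2 : ℕ) : ℤ) +
        (((m + r0 : ℕ) : ℤ) * N - (γ : ℤ) * resDeg L P0) := by
      rw [← hs4, ← hWrank]
      exact_mod_cast hW2r
    push_cast at h2
    have h3 : (γ : ℤ) ≤ (γ : ℤ) * resDeg L P0 := by
      have : (1 : ℤ) ≤ resDeg L P0 := by exact_mod_cast hd0
      nlinarith [(Nat.cast_nonneg γ : (0 : ℤ) ≤ γ)]
    have h4 : (γ : ℤ) = N * r0 := by rw [hγ]; push_cast; ring
    have h5 : (0 : ℤ) < N := by exact_mod_cast hN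
    have h6 : (0 : ℤ) < Module.finrank L W2 := by nlinarith
    exact_mod_cast h6
  obtain ⟨h, hh2, hh0⟩ : ∃ h ∈ W2, h ≠ 0 := by
    by_contra hcon
    push Not at hcon
    have : W2 = ⊥ := (Submodule.eq_bot_iff _).mpr hcon
    rw [this, finrank_bot] at hpos2
    exact lt_irrefl _ hpos2
  have key : ∀ P, IsPlace L P → -dv P ≤ ordAt P (h * f⁻¹) := by
    intro P hP
    have := isDVR hF hP
    rw [ordAt_mul P hh0 (inv_ne_zero hf0), ordAt_inv]
    by_cases hPS : P ∈ S
    · have h2 := hW2o h hh2 hh0 P hPS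
      rw [Int.toNat_of_nonneg (hex P hP)] at h2
      linarith
    · obtain ⟨ha, hb, hc, hd⟩ := hSn P hP hPS
      have h2 := hWord h (hW2 hh2) hh0 P hP
      rw [ha] at h2
      simp only [dv, if_neg hc, if_neg hd, hb]
      simpa using h2
  refine ⟨h * f⁻¹, mul_ne_zero hh0 (inv_ne_zero hf0), ?_, ?_, ?_⟩
  · have h2 := key P1 h1
    simp only [dv, if_neg hne.symm, if_true] at h2
    linarith
  · have h2 := key P0 h0
    simp only [dv, if_neg hne, if_true] at h2
    linarith
  · intro P hP ha hb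
    have h2 := key P hP
    simp only [dv, if_neg ha, if_neg hb] at h2
    linarith

end Pool.Agent.Lib.MP_cc17a8_ag.Gen
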