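import Mathlib
import Pool.Agent.Lib.MP_cc17a8_ag.Gen.PullW
import Pool.Agent.Lib.MP_cc17a8_ag.Gen.FibreField
import Pool.Agent.Lib.MP_cc17a8_ag.Gen.Riemann

open AlgebraicGeometry CategoryTheory IntermediateField Polynomial

universe u

namespace Pool.Agent.Lib.MP_cc17a8_ag.Gen

/-- The numerical estimate. -/
theorem estimate {ι : Type u} [DecidableEq ι] (S : Finset ι) (a d r : ι → ℤ) {i0 i1 : ι}
    (h01 : i0 ≠ i1) (h0 : i0 ∈ S) (h1 : i1 ∈ S) (hd : ∀ i ∈ S, 0 ≤ d i) {B w0 w1 n γ : ℤ}
    (hB : ∀ i ∈ S, |r i| ≤ B * d i) (ha : ∀ i ∈ S, i ≠ i0 → i ≠ i1 → 0 ≤ a i)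
    (hs1 : ∑ i ∈ S, a i * d i = 0) (hsE : ∑ i ∈ S, a i * r i = 0) (hr0 : r i0 = d i0 * w0)
    (hr1 : r i1 = d i1 * w1) (ha1 : n * d i0 ≤ a i1) (ha0 : -(n * d i1 + γ) ≤ a i0)
    (hB0 : 0 ≤ B) : n * d i0 * d i1 * |w1 - w0| ≤ (B + |w0|) * (γ * d i0) := by
  set T := (S.erase i0).erase i1 with hT
  have hsplit : ∀ f : ι → ℤ, ∑ i ∈ S, f i = f i0 + (f i1 + ∑ i ∈ T, f i) := by
    intro f
    rw [← Finset.add_sum_erase S f h0, ← Finset.add_sum_erase (S.erase i0) f
      (Finset.mem_erase.mpr ⟨h01.symm, h1⟩)]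
  have hTS : ∀ i ∈ T, i ∈ S ∧ i ≠ i0 ∧ i ≠ i1 := by
    intro i hi
    rw [hT, Finset.mem_erase, Finset.mem_erase] at hi
    exact ⟨hi.2.2, hi.2.1, hi.1⟩
  rw [hsplit] at hs1 hsE
  have hd0 := hd i0 h0
  have hd1 := hd i1 h1
  have hsig : ∑ i ∈ T, a i * d i ≤ γ * d i0 := by
    have h2 : n * d i0 * d i1 ≤ a i1 * d i1 := mul_le_mul_of_nonneg_right ha1 hd1
    have h3 : -(n * d i1 + γ) * d i0 ≤ a i0 * d i0 := mul_le_mul_of_nonneg_right ha0 hd0
    nlinarith
  have h4 : a i1 * d i1 * (w1 - w0) = - ∑ i ∈ T, a i * (r i - w0 * d i) := by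
    have h5 : ∑ i ∈ T, a i * (r i - w0 * d i) = ∑ i ∈ T, a i * r i - w0 * ∑ i ∈ T, a i * d i := by
      rw [Finset.mul_sum, ← Finset.sum_sub_distrib]
      apply Finset.sum_congr rfl
      intro i _
      ring
    rw [h5]
    rw [hr0, hr1] at hsE
    linear_combination hsE - w0 * hs1
  have h6 : |∑ i ∈ T, a i * (r i - w0 * d i)| ≤ (B + |w0|) * ∑ i ∈ T, a i * d i := by
    refine (Finset.abs_sum_le_sum_abs _ _).trans ?_
    rw [Finset.mul_sum]
    apply Finset.sum_le_sum
    intro i hi
    obtain ⟨hiS, hi0, hi1⟩ := hTS i hi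
    have h7 := ha i hiS hi0 hi1
    rw [abs_mul, abs_of_nonneg h7]
    have h8 : |r i - w0 * d i| ≤ (B + |w0|) * d i := by
      refine (abs_sub _ _).trans ?_
      rw [abs_mul, abs_of_nonneg (hd i hiS), add_mul]
      exact add_le_add (hB i hiS) le_rfl
    calc a i * |r i - w0 * d i| ≤ a i * ((B + |w0|) * d i) := mul_le_mul_of_nonneg_left h8 h7
      _ = (B + |w0|) * (a i * d i) := by ring
  have h9 : |a i1 * d i1 * (w1 - w0)| ≤ (B + |w0|) * (γ * d i0) := by
    rw [h4, abs_neg]
    exact h6.trans (mul_le_mul_of_nonneg_left hsig (add_nonneg hB0 (abs_nonneg _)))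
  refine le_trans ?_ h9
  rw [abs_mul]
  apply mul_le_mul_of_nonneg_right _ (abs_nonneg _)
  exact (mul_le_mul_of_nonneg_right ha1 hd1).trans (le_abs_self _)

section Place

variable {k W F K2 : Type u} [Field k] [Field W] [Field F] [Field K2] [Algebra W F] [Algebra F K2]
  [Algebra W K2] [IsScalarTower W F K2] [CharZero W] [Infinite k]
  {Z : Scheme.{u}} [IsIntegral Z] {fZ : Z ⟶ Spec (.of k)} [IsProper fZ] {z : Z}
  {g : Z.presheaf.stalk z →+* K2} [IsLocalHom g] {y : Z.presheaf.stalk z →+* F} [IsLocalHom y]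

omit [CharZero W] [Infinite k] in
theorem rdeg_eq' (f : Z ⟶ Spec (.of k)) [IsProper f] {Q : ValuationSubring K2}
    (hL : ∀ a : W, algebraMap W K2 a ∈ Q) {c : Z}
    (hc : IsCenter g Q c) (D : CartierDivisor Z) :
    rdeg W g Q D = (letI := algVal hL; wdegree W (resPt hc) D) := by
  obtain rfl := hc.center_eq f
  exact rdeg_eq hL hc D

/-- The degree at a place over a point with values in `F`. -/
theorem rdeg_place (hy : GoodPoint fZ y W) (hF2 : IsFunctionField F K2) {A : CartierDivisor Z}
    (hA : A.IsAmple) {P : ValuationSubring K2} (hP : IsPlace F P)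
    (hval : ∀ s, P.valuation (g s - algebraMap F K2 (y s)) < 1) (D : CartierDivisor Z) :
    rdeg W g P D = resDeg F P * wdegree W y D := by
  have hczF : CharZero F := charZero_of_injective_algebraMap (algebraMap W F).injective
  have hmem : ∀ s, g s ∈ P := by
    intro s
    have h1 : g s - algebraMap F K2 (y s) ∈ P := (P.valuation_le_one_iff _).mp (hval s).le
    have h2 := P.add_mem _ _ h1 (hP.1 (y s))
    rwa [sub_add_cancel] at h2
  have hc : IsCenter g P z := isCenter_self g hmem
  have hWP : ∀ a : W, algebraMap W K2 a ∈ P := by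
    intro a
    rw [IsScalarTower.algebraMap_apply W F K2]
    exact hP.1 _
  rw [rdeg_eq' fZ hWP hc]
  let _ := algVal hWP
  let _ := algVal hP.1
  have htow : IsScalarTower W F (IsLocalRing.ResidueField P) := by
    apply IsScalarTower.of_algebraMap_eq
    intro a
    change IsLocalRing.residue P ⟨algebraMap W K2 a, _⟩ =
      IsLocalRing.residue P ⟨algebraMap F K2 (algebraMap W F a), _⟩
    congr 1
    exact Subtype.ext (IsScalarTower.algebraMap_apply W F K2 a)
  have hfin := finite_residueField hF2 hP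
  have hres : resPt hc = (algebraMap F (IsLocalRing.ResidueField P)).comp y := by
    ext s
    have h1 : Z.presheaf.stalkSpecializes hc.choose s = s := by
      have := TopCat.Presheaf.stalkSpecializes_refl Z.presheaf z
      exact congrArg (fun t => t.hom s) this
    have h0 : resPt hc s = IsLocalRing.residue P ⟨g s, hmem s⟩ := by
      rw [resPt_apply hc s (by rw [h1]; exact hmem s)]
      congr 1
      exact Subtype.ext (congrArg g h1)
    rw [h0, RingHom.comp_apply]
    change _ = IsLocalRing.residue P ⟨algebraMap F K2 (y s), hP.1 _⟩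
    rw [← sub_eq_zero, ← map_sub, residue_eq_zero_iff_val]
    exact hval s
  rw [hres, wdegree_comp (F := IsLocalRing.ResidueField P) hy hA D, resDeg_eq hP.1]

end Place

theorem resPt_constants {k L K : Type u} [Field k] [Field L] [Field K] [Algebra L K]
    {X : Scheme.{u}} {f : X ⟶ Spec (.of k)} {x : X} {g : X.presheaf.stalk x →+* K} [IsLocalHom g]
    {Q : ValuationSubring K} {c : X} (hc : IsCenter g Q c) (hL : ∀ a : L, algebraMap L K a ∈ Q)
    (ι : k → L) (hg : ∀ a, g (constants f x a) = algebraMap L K (ι a)) (a : k) :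
    letI := algVal hL
    resPt hc (constants f c a) = algebraMap L (IsLocalRing.ResidueField Q) (ι a) := by
  let _ := algVal hL
  have h5 : g (X.presheaf.stalkSpecializes hc.choose (constants f c a)) =
      algebraMap L K (ι a) := by
    rw [← hg]
    congr 1
    exact stalkSpecializes_constants f hc.choose a
  rw [resPt_apply hc (constants f c a) (by rw [h5]; exact hL _)]
  change _ = IsLocalRing.residue Q ⟨algebraMap L K (ι a), hL _⟩
  congr 1
  exact Subtype.ext h5

section HI

variable {k : Type u} [Field k] [CharZero k] [IsAlgClosed k] {X Y : Scheme.{u}} [IsIntegral X]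
  [IsIntegral Y]

/-- The degree of `E` is bounded by a multiple of the degree of the pull-back of `H`. -/
def IsBdd (f : X ⟶ Spec (.of k)) (φ : X ⟶ Y) (hφ : φ (genericPoint X) = genericPoint Y)
    (H : CartierDivisor Y) (W : Type u) [Field W] [Algebra k W] (m : ℕ) (E : CartierDivisor X) :
    Prop :=
  ∀ (F : Type u) [Field F] [Algebra W F] (y : X) (g : X.presheaf.stalk y →+* F) [IsLocalHom g],
    IsFunctionField W F → (∀ a, g (constants f y a) = algebraMap W F (algebraMap k W a)) →
      |wdegree W g E| ≤ m * wdegree W g (pull φ hφ H)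

variable {f : X ⟶ Spec (.of k)} [IsProper f] {gY : Y ⟶ Spec (.of k)} [IsProper gY] {φ : X ⟶ Y}

theorem IsBdd.eq_zero {hφ : φ (genericPoint X) = genericPoint Y} {H : CartierDivisor Y}
    {W : Type u} [Field W] [CharZero W] [Algebra k W] {m : ℕ} {E : CartierDivisor X}
    (hm : IsBdd f φ hφ H W m E) (hφg : φ ≫ gY = f)
    {F : Type u} [Field F] [Algebra W F] {y : X} (g : X.presheaf.stalk y →+* F) [IsLocalHom g]
    (hF : IsFunctionField W F)
    (hg : ∀ a, g (constants f y a) = algebraMap W F (algebraMap k W a))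
    (halg : ∀ s, IsAlgebraic W (g (φ.stalkMap y s))) : wdegree W g E = 0 := by
  have hgp : GoodPoint f g W := ⟨hF, fun a => ⟨_, (hg a).symm⟩⟩
  have hb := hm F y g hF hg
  rw [wdegree_pull gY hφ hgp H, wdegree_const (goodPoint_pull hφg hgp) halg H, mul_zero] at hb
  exact abs_nonpos_iff.mp hb

section

variable {W F K2 : Type u} [Field W] [CharZero W] [Algebra k W] [Field F] [Algebra W F] [Algebra k F]
  [IsScalarTower k W F] [Field K2] [Algebra F K2] [Algebra W K2] [IsScalarTower W F K2]
  {j : X.presheaf.stalk (genericPoint X) →+* K2} {x : X.presheaf.stalk (genericPoint X) →+* F}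
  {hφ : φ (genericPoint X) = genericPoint Y}

theorem stalkMap_generic (hφ : φ (genericPoint X) = genericPoint Y)
    (s : Y.presheaf.stalk (φ (genericPoint X))) :
    φ.stalkMap (genericPoint X) s = functionFieldMap φ hφ
      (algebraMap (Y.presheaf.stalk (φ (genericPoint X))) Y.functionField s) := by
  rw [functionFieldMap_algebraMap φ hφ, algebraMap_genericPoint]

theorem rdeg_vertical {H : CartierDivisor Y} {m : ℕ} {E : CartierDivisor X}
    (hm : IsBdd f φ hφ H W m E) (hφg : φ ≫ gY = f) (hF : IsFunctionField W F)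
    (hj : ∀ y : Y.functionField, j (functionFieldMap φ hφ y) =
      algebraMap F K2 (x (functionFieldMap φ hφ y)))
    (hconst : ∀ a, j (constants f (genericPoint X) a) = algebraMap W K2 (algebraMap k W a))
    {Q : ValuationSubring K2} (hQ : IsDivisorial W Q) (hFQ : ¬ ∀ a : F, algebraMap F K2 a ∈ Q) :
    rdeg W j Q E = 0 := by
  have hc : IsCenter j Q (center j Q) :=
    isCenter_of_const (f := f) (fun a => ⟨_, (hconst a).symm⟩) hQ.mem
  rw [rdeg_eq hQ.mem hc]
  let _ := algVal hQ.mem
  refine hm.eq_zero hφg (resPt hc) hQ.ff (resPt_constants hc hQ.mem _ hconst) ?_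
  intro s
  let w := Q.comap (algebraMap F K2)
  have hw : IsPlace W w := by
    refine ⟨fun a => ?_, fun htop => hFQ fun a => ?_⟩
    · rw [ValuationSubring.mem_comap, ← IsScalarTower.algebraMap_apply]
      exact hQ.mem a
    · rw [← ValuationSubring.mem_comap]
      change a ∈ w
      rw [htop]
      trivial
  let r : X.functionField := functionFieldMap φ hφ
    (algebraMap (Y.presheaf.stalk (φ (center j Q))) Y.functionField s)
  have hr : X.presheaf.stalkSpecializes hc.choose (φ.stalkMap (center j Q) s) = r :=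
    (functionFieldMap_algebraMap φ hφ _ s).symm
  have hjr : j (X.presheaf.stalkSpecializes hc.choose (φ.stalkMap (center j Q) s)) =
      algebraMap F K2 (x r) := by
    rw [hr]
    exact hj _
  have hmem : j (X.presheaf.stalkSpecializes hc.choose (φ.stalkMap (center j Q) s)) ∈ Q :=
    (Q.valuation_le_one_iff _).mp (hc.choose_spec _).1
  have hxw : x r ∈ w := by
    rw [ValuationSubring.mem_comap, ← hjr]
    exact hmem
  have hfin := finite_residueField hF hw
  have h1 : (letI := algVal hw.1; IsAlgebraic W (IsLocalRing.residue w ⟨x r, hxw⟩)) := by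
    let _ := algVal hw.1
    exact Algebra.IsAlgebraic.isAlgebraic _
  rw [isAlgebraic_residue_iff hw.1 hxw] at h1
  obtain ⟨p, hp, hpx⟩ := h1
  rw [resPt_apply hc _ hmem, isAlgebraic_residue_iff hQ.mem hmem]
  refine ⟨p, hp, ?_⟩
  rw [hjr, aeval_algebraMap_apply]
  exact (comap_val_lt_one_iff (algebraMap F K2) Q _).mp hpx

theorem isDivisorial_of_isPlace' (hF : IsFunctionField W F) (hF2 : IsFunctionField F K2)
    {P : ValuationSubring K2} (hP : IsPlace F P) : IsDivisorial W P := by
  obtain ⟨y, hy⟩ : ∃ y : F, Transcendental W y := by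
    have h1 : Algebra.trdeg W F ≠ 0 := by rw [hF.trdeg_eq]; exact one_ne_zero
    exact (trdeg_ne_zero_iff.mp h1).transcendental
  have hy2 : Transcendental W (algebraMap F K2 y) := by
    rwa [transcendental_algebraMap_iff (algebraMap F K2).injective]
  have hess1 := hF.ess
  have hess2 := hF2.ess
  have hess : Algebra.EssFiniteType W K2 := Algebra.EssFiniteType.comp W F K2
  have htr : Algebra.trdeg W K2 = 2 := by
    have h1 := trdeg_add_eq (R := W) (S := F) (A := K2)
    rw [hF.trdeg_eq, hF2.trdeg_eq, one_add_one_eq_two] at h1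
    exact h1.symm
  refine isDivisorial_of_isPlace hy2 (isFunctionField_adjoin_simple htr hy2) ⟨?_, hP.2⟩
  intro a
  have h1 : algebraMap W⟮algebraMap F K2 y⟯ K2 a ∈ (algebraMap F K2).range := by
    have h2 : W⟮algebraMap F K2 y⟯ ≤ (IsScalarTower.toAlgHom W F K2).fieldRange := by
      rw [adjoin_simple_le_iff]
      exact ⟨y, rfl⟩
    exact h2 a.2
  obtain ⟨b, hb⟩ := h1
  rw [← hb]
  exact hP.1 b

theorem rdeg_horizontal {H : CartierDivisor Y} (hH : H.IsAmple) {m : ℕ} {E : CartierDivisor X}
    (hm : IsBdd f φ hφ H W m E) (hφg : φ ≫ gY = f) (hF : IsFunctionField W F)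
    (hF2 : IsFunctionField F K2)
    (hj : ∀ y : Y.functionField, j (functionFieldMap φ hφ y) =
      algebraMap F K2 (x (functionFieldMap φ hφ y)))
    (hconst : ∀ a, j (constants f (genericPoint X) a) = algebraMap W K2 (algebraMap k W a))
    (hx : ∀ a, x (constants f (genericPoint X) a) = algebraMap W F (algebraMap k W a))
    {P : ValuationSubring K2} (hP : IsPlace F P) :
    |rdeg W j P E| ≤ m * (resDeg F P * wdegree W (x.comp (φ.stalkMap (genericPoint X)).hom) H) := by
  have hQ := isDivisorial_of_isPlace' hF hF2 hP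
  have hc : IsCenter j P (center j P) :=
    isCenter_of_const (f := f) (fun a => ⟨_, (hconst a).symm⟩) hQ.mem
  have hgx : GoodPoint f x W := ⟨hF, fun a => ⟨_, (hx a).symm⟩⟩
  have h1 : rdeg W (j.comp (φ.stalkMap (genericPoint X)).hom) P H =
      resDeg F P * wdegree W (x.comp (φ.stalkMap (genericPoint X)).hom) H := by
    refine rdeg_place (goodPoint_pull hφg hgx) hF2 hH hP ?_ H
    intro s
    have h2 : j (φ.stalkMap (genericPoint X) s) =
        algebraMap F K2 (x (φ.stalkMap (genericPoint X) s)) := by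
      rw [stalkMap_generic hφ]
      exact hj _
    have h3 : (j.comp (φ.stalkMap (genericPoint X)).hom) s -
        algebraMap F K2 ((x.comp (φ.stalkMap (genericPoint X)).hom) s) = 0 := by
      rw [sub_eq_zero]
      exact h2
    rw [h3, map_zero]
    exact zero_lt_one
  rw [← h1, rdeg_eq' gY hQ.mem (hc.map φ), rdeg_eq hQ.mem hc]
  let _ := algVal hQ.mem
  have hgp := goodPoint_resPt (f := f) hc hQ (fun a => ⟨_, (hconst a).symm⟩)
  have h2 : resPt (hc.map φ) = (resPt hc).comp (φ.stalkMap (center j P)).hom := by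
    ext s
    have h3 : φ.stalkMap (genericPoint X) (Y.presheaf.stalkSpecializes (hc.map φ).choose s) =
        X.presheaf.stalkSpecializes hc.choose (φ.stalkMap (center j P) s) := by
      have h4 := Scheme.Hom.stalkSpecializes_stalkMap φ _ _ hc.choose
      exact congrArg (fun t => t.hom s) h4
    have h5 : j (X.presheaf.stalkSpecializes hc.choose (φ.stalkMap (center j P) s)) ∈ P :=
      (P.valuation_le_one_iff _).mp (hc.choose_spec _).1
    have h6 : (j.comp (φ.stalkMap (genericPoint X)).hom)
        (Y.presheaf.stalkSpecializes (hc.map φ).choose s) =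
        j (X.presheaf.stalkSpecializes hc.choose (φ.stalkMap (center j P) s)) :=
      congrArg j h3
    have h7 : resPt (hc.map φ) s = IsLocalRing.residue P
        ⟨j (X.presheaf.stalkSpecializes hc.choose (φ.stalkMap (center j P) s)), h5⟩ := by
      rw [resPt_apply (hc.map φ) s (by rw [h6]; exact h5)]
      congr 1
      exact Subtype.ext h6
    rw [h7]
    exact (resPt_apply hc _ h5).symm
  rw [h2, ← wdegree_pull gY hφ hgp H]
  exact hm _ _ _ hQ.ff (resPt_constants hc hQ.mem _ hconst)

end

end HI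

end Pool.Agent.Lib.MP_cc17a8_ag.Gen
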