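import Mathlib
import Pool.Agent.Lib.MP_cc17a8_ag.Gen.HI

open AlgebraicGeometry CategoryTheory IntermediateField Polynomial

universe u

namespace Pool.Agent.Lib.MP_cc17a8_ag.Gen

section HI

variable {k : Type u} [Field k] [CharZero k] [IsAlgClosed k] {X Y : Scheme.{u}} [IsIntegral X]
  [IsIntegral Y] {f : X ⟶ Spec (.of k)} [IsProper f] {gY : Y ⟶ Spec (.of k)} [IsProper gY]
  {φ : X ⟶ Y} {W F K2 : Type u} [Field W] [CharZero W] [Algebra k W] [Field F] [Algebra W F]
  [Field K2] [Algebra F K2] [Algebra W K2] [IsScalarTower W F K2]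
  {j : X.presheaf.stalk (genericPoint X) →+* K2} {x : X.presheaf.stalk (genericPoint X) →+* F}
  {hφ : φ (genericPoint X) = genericPoint Y}

/-- The intersection number with a principal divisor is zero. -/
theorem sum_rdeg {A : CartierDivisor X} (hA : A.IsAmple)
    {E : CartierDivisor X} (hF : IsFunctionField W F)
    (hF2 : IsFunctionField F K2)
    (hvert : ∀ Q : ValuationSubring K2, IsDivisorial W Q → (¬ ∀ a : F, algebraMap F K2 a ∈ Q) →
      rdeg W j Q E = 0)
    (hconst : ∀ a, j (constants f (genericPoint X) a) = algebraMap W K2 (algebraMap k W a))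
    (G : K2) : ∑ᶠ P ∈ {P : ValuationSubring K2 | IsPlace F P}, ordAt P G * rdeg W j P E = 0 := by
  have hess1 := hF.ess
  have hess2 := hF2.ess
  have hess : Algebra.EssFiniteType W K2 := Algebra.EssFiniteType.comp W F K2
  have htr : Algebra.trdeg W K2 = 2 := by
    have h1 := trdeg_add_eq (R := W) (S := F) (A := K2)
    rw [hF.trdeg_eq, hF2.trdeg_eq, one_add_one_eq_two] at h1
    exact h1.symm
  have hczF : CharZero F := charZero_of_injective_algebraMap (algebraMap W F).injective
  by_cases hG : Transcendental W G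
  · have hG' : Transcendental W G⁻¹ := fun h => hG (by simpa using h.inv)
    have hconst' : ∀ a, j (constants f (genericPoint X) a) ∈ (algebraMap W K2).range :=
      fun a => ⟨_, (hconst a).symm⟩
    obtain ⟨hf1, h1⟩ := pencil_formula (f := f) htr hconst' hG hA E
    obtain ⟨hf2, h2⟩ := pencil_formula (f := f) htr hconst' hG' hA E
    have h3 : wdegree W⟮G⟯ j E = wdegree W⟮G⁻¹⟯ j E := by
      apply wdegree_congr
      rw [adjoin_inv]
    set Z1 := {Q : ValuationSubring K2 | IsDivisorial W Q ∧ G ∈ Q ∧ G⁻¹ ∉ Q} with hZ1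
    set Z2 := {Q : ValuationSubring K2 | IsDivisorial W Q ∧ G⁻¹ ∈ Q ∧ G⁻¹⁻¹ ∉ Q} with hZ2
    have h4 : ∑ᶠ Q ∈ Z2, ordAt Q G⁻¹ * rdeg W j Q E =
        (-1) * ∑ᶠ Q ∈ Z2, ordAt Q G * rdeg W j Q E := by
      rw [mul_finsum_mem]
      apply finsum_mem_congr rfl
      rintro Q ⟨hQ, -⟩
      have := hQ.dvr
      rw [ordAt_inv]
      ring
    have hdisj : Disjoint Z1 Z2 := by
      rw [Set.disjoint_left]
      rintro Q ⟨-, -, h5⟩ ⟨-, h6, -⟩
      exact h5 h6
    have h5 := finsum_mem_union' (f := fun Q => ordAt Q G * rdeg W j Q E) hdisj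
      (hf1.subset (by
        rintro Q ⟨⟨h5, h6, h7⟩, h8⟩
        exact ⟨h5, h6, h7, right_ne_zero_of_mul h8⟩))
      (hf2.subset (by
        rintro Q ⟨⟨h5, h6, h7⟩, h8⟩
        exact ⟨h5, h6, h7, right_ne_zero_of_mul h8⟩))
    have h6 : ∑ᶠ P ∈ {P : ValuationSubring K2 | IsPlace F P}, ordAt P G * rdeg W j P E =
        ∑ᶠ P ∈ Z1 ∪ Z2, ordAt P G * rdeg W j P E := by
      apply finsum_mem_inter_support_eq'
      intro Q hQ
      rw [Function.mem_support] at hQ
      constructor
      · intro hP
        have hdiv := isDivisorial_of_isPlace' hF hF2 hP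
        rcases (ordAt_eq_zero_or hF2 hP G).resolve_left (left_ne_zero_of_mul hQ) with h7 | h7
        · exact Or.inl ⟨hdiv, h7⟩
        · exact Or.inr ⟨hdiv, h7.1, by rw [inv_inv]; exact h7.2⟩
      · intro hP
        have hdiv : IsDivisorial W Q := by
          rcases hP with hP | hP
          · exact hP.1
          · exact hP.1
        refine ⟨?_, ?_⟩
        · by_contra hcon
          exact right_ne_zero_of_mul hQ (hvert Q hdiv hcon)
        · rintro rfl
          rcases hP with hP | hP
          · exact hP.2.2 trivial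
          · exact hP.2.2 trivial
    rw [h6, h5]
    rw [h1, h2, h4] at h3
    linarith
  · apply finsum_mem_eq_zero_of_forall_eq_zero
    intro P hP
    have hdiv := isDivisorial_of_isPlace' hF hF2 hP
    rw [ordAt_of_isAlgebraic hdiv.mem (not_not.mp hG), zero_mul]

/-- **Key lemma.** Two points which agree on a subfield containing the function field of `Y`, over
which the function field of `X` has transcendence degree one, give the same degree to a divisor
whose degree is bounded by a multiple of the degree of a pull-back from `Y`. -/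
theorem wdegree_eq_of_agree [Algebra k F] [IsScalarTower k W F]
    {A : CartierDivisor X} (hA : A.IsAmple) {H : CartierDivisor Y}
    (hH : H.IsAmple) {m : ℕ} {E : CartierDivisor X} (hm : IsBdd f φ hφ H W m E) (hφg : φ ≫ gY = f)
    (hF : IsFunctionField W F) :
    letI := ffAlg f
    ∀ (M : IntermediateField k X.functionField) (_ : ∀ y : X.functionField, IsAlgebraic M y → y ∈ M)
      (_ : Algebra.trdeg M X.functionField = 1) (_ : ∀ y, functionFieldMap φ hφ y ∈ M)
      (x x' : X.functionField →ₐ[k] F) (_ : ∀ y ∈ M, x y = x' y),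
      wdegree W (x := genericPoint X) x.toRingHom E =
        wdegree W (x := genericPoint X) x'.toRingHom E := by
  let _ := ffAlg f
  intro M hM htrM hφM x x' hxx
  have hess : Algebra.EssFiniteType k X.functionField := essFiniteType_constants f (genericPoint X)
  obtain ⟨K2, _, _, j, hF2, hjM, ⟨P0, hP0, hv0⟩, ⟨P1, hP1, hv1⟩⟩ :=
    exists_fibre_field M hM htrM x x' hxx
  let _ : Algebra W K2 := ((algebraMap F K2).comp (algebraMap W F)).toAlgebra
  have htow : IsScalarTower W F K2 := IsScalarTower.of_algebraMap_eq fun _ => rfl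
  by_cases h01 : P0 = P1
  · -- the two points are equal
    have hxe : x = x' := by
      ext h
      have h1 := hv0 h
      have h2 := hv1 h
      rw [← h01] at h2
      have h3 : P0.valuation (algebraMap F K2 (x h - x' h)) < 1 := by
        have h4 : algebraMap F K2 (x h - x' h) =
            (j h - algebraMap F K2 (x' h)) - (j h - algebraMap F K2 (x h)) := by
          rw [map_sub]; ring
        rw [h4]
        exact P0.valuation.map_sub_lt h2 h1
      by_contra hne
      have h5 : x h - x' h ≠ 0 := sub_ne_zero.mpr hne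
      rw [val_lt_one_iff_inv _ ((_root_.map_ne_zero _).mpr h5), ← map_inv₀] at h3
      exact h3 (hP0.1 _)
    rw [hxe]
  have hczF : CharZero F := charZero_of_injective_algebraMap (algebraMap W F).injective
  have hx : ∀ (y : X.functionField →ₐ[k] F) (a : k), y.toRingHom (constants f (genericPoint X) a) =
      algebraMap W F (algebraMap k W a) := by
    intro y a
    rw [← IsScalarTower.algebraMap_apply]
    exact y.commutes a
  have hconst : ∀ a, j (constants f (genericPoint X) a) = algebraMap W K2 (algebraMap k W a) := by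
    intro a
    have h1 : j (algebraMap k X.functionField a) =
        algebraMap F K2 (x (algebraMap k X.functionField a)) := hjM _ (M.algebraMap_mem a)
    rw [x.commutes, IsScalarTower.algebraMap_apply k W F, ← IsScalarTower.algebraMap_apply W F K2]
      at h1
    exact h1
  have hj : ∀ y : Y.functionField, j (functionFieldMap φ hφ y) =
      algebraMap F K2 (x (functionFieldMap φ hφ y)) := fun y => hjM _ (hφM y)
  have hvert : ∀ Q : ValuationSubring K2, IsDivisorial W Q → (¬ ∀ a : F, algebraMap F K2 a ∈ Q) →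
      rdeg W (X := X) (x := genericPoint X) j Q E = 0 := fun Q hQ hFQ =>
    rdeg_vertical (x := x.toRingHom) hm hφg hF hj hconst hQ hFQ
  set η := wdegree W (RingHom.comp (x.toRingHom : X.presheaf.stalk (genericPoint X) →+* F)
    (φ.stalkMap (genericPoint X)).hom) H with hη
  have hhor : ∀ P : ValuationSubring K2, IsPlace F P →
      |rdeg W (X := X) (x := genericPoint X) j P E| ≤ m * (resDeg F P * η) := fun P hP =>
    rdeg_horizontal (x := x.toRingHom) hH hm hφg hF hF2 hj hconst (hx x) hP
  have hr0 : rdeg W (X := X) (x := genericPoint X) j P0 E =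
      resDeg F P0 * wdegree W (x := genericPoint X) x.toRingHom E :=
    rdeg_place (fZ := f) ⟨hF, fun a => ⟨_, (hx x a).symm⟩⟩ hF2 hA hP0 hv0 E
  have hr1 : rdeg W (X := X) (x := genericPoint X) j P1 E =
      resDeg F P1 * wdegree W (x := genericPoint X) x'.toRingHom E :=
    rdeg_place (fZ := f) ⟨hF, fun a => ⟨_, (hx x' a).symm⟩⟩ hF2 hA hP1 hv1 E
  set w0 := wdegree W (x := genericPoint X) x.toRingHom E with hw0
  set w1 := wdegree W (x := genericPoint X) x'.toRingHom E with hw1
  obtain ⟨γ, hγ⟩ := exists_riemann hF2 hP0 hP1 h01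
  have hd0 := resDeg_pos hF2 hP0
  have hd1 := resDeg_pos hF2 hP1
  have hB0 : (0 : ℤ) ≤ m * η := by
    have h1 := (abs_nonneg _).trans (hhor P0 hP0)
    have h2 : (m : ℤ) * (resDeg F P0 * η) = resDeg F P0 * (m * η) := by ring
    rw [h2] at h1
    exact (mul_nonneg_iff_of_pos_left (by exact_mod_cast hd0)).mp h1
  have key : ∀ n : ℕ, (n : ℤ) * resDeg F P0 * resDeg F P1 * |w1 - w0| ≤
      (m * η + |w0|) * (γ * resDeg F P0) := by
    intro n
    classical
    obtain ⟨G, hG0, hG1, hG2, hG3⟩ := hγ n
    have hfs := finite_support hF2 G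
    let S : Finset (ValuationSubring K2) := insert P0 (insert P1 hfs.toFinset)
    have hS : ∀ P ∈ S, IsPlace F P := by
      intro P hP
      simp only [S, Finset.mem_insert, Set.Finite.mem_toFinset, Set.mem_ofPred_eq] at hP
      rcases hP with rfl | rfl | hP
      · exact hP0
      · exact hP1
      · exact hP.1
    have hsum : ∀ r : ValuationSubring K2 → ℤ, ∑ᶠ P ∈ {P : ValuationSubring K2 | IsPlace F P},
        ordAt P G * r P = ∑ P ∈ S, ordAt P G * r P := by
      intro r
      apply finsum_mem_eq_sum_of_inter_support_eq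
      ext P
      constructor
      · rintro ⟨h1, h2⟩
        refine ⟨?_, h2⟩
        rw [Function.mem_support] at h2
        simp only [S, Finset.coe_insert, Set.Finite.coe_toFinset, Set.mem_insert_iff,
          Set.mem_ofPred_eq]
        exact Or.inr (Or.inr ⟨h1, left_ne_zero_of_mul h2⟩)
      · rintro ⟨h1, h2⟩
        exact ⟨hS P h1, h2⟩
    refine estimate S (fun P => ordAt P G) (fun P => resDeg F P)
      (fun P => rdeg W (X := X) (x := genericPoint X) j P E) h01 (by simp [S]) (by simp [S])
      (fun P _ => Nat.cast_nonneg _) ?_ ?_ ?_ ?_ hr0 hr1 ?_ ?_ hB0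
    · intro P hP
      refine (hhor P (hS P hP)).trans (le_of_eq ?_)
      ring
    · intro P hP h0 h1
      exact hG3 P (hS P hP) h0 h1
    · rw [← hsum]
      exact sum_ordAt hF2 G
    · rw [← hsum]
      exact sum_rdeg (f := f) hA hF hF2 hvert hconst G
    · have := hG1
      push_cast at this
      exact this
    · have := hG2
      push_cast at this
      exact this
  by_contra hne
  have h1 : 1 ≤ |w1 - w0| := Int.one_le_abs (sub_ne_zero.mpr (Ne.symm hne))
  have hC0 : (0 : ℤ) ≤ (m * η + |w0|) * γ :=
    mul_nonneg (add_nonneg hB0 (abs_nonneg _)) (Nat.cast_nonneg _)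
  obtain ⟨N, hN⟩ := Int.eq_ofNat_of_zero_le hC0
  have h2 := key (N + 1)
  have hd0' : (1 : ℤ) ≤ resDeg F P0 := by exact_mod_cast hd0
  have hd1' : (1 : ℤ) ≤ resDeg F P1 := by exact_mod_cast hd1
  have h3 : ((N + 1 : ℕ) : ℤ) * resDeg F P0 ≤ ((N + 1 : ℕ) : ℤ) * resDeg F P0 * resDeg F P1 *
      |w1 - w0| := by
    have h4 : (0 : ℤ) ≤ ((N + 1 : ℕ) : ℤ) * resDeg F P0 := by positivity
    have h5 : ((N + 1 : ℕ) : ℤ) * resDeg F P0 ≤ ((N + 1 : ℕ) : ℤ) * resDeg F P0 * resDeg F P1 :=
      le_mul_of_one_le_right h4 hd1'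
    exact h5.trans (le_mul_of_one_le_right (h4.trans h5) h1)
  have h6 : (m * η + |w0|) * (γ * resDeg F P0) = N * resDeg F P0 := by
    rw [← mul_assoc, hN]
  rw [h6] at h2
  have h7 := h3.trans h2
  push_cast at h7
  nlinarith

end HI

end Pool.Agent.Lib.MP_cc17a8_ag.Gen
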