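import Mathlib
import Pool.Agent.Lib.MP_cc17a8_ag.Gen.HI2
import Pool.Agent.Lib.MP_cc17a8_ag.Gen.Core2
import Pool.Agent.Lib.MP_cc17a8_ag.PoleDegree

open AlgebraicGeometry CategoryTheory

universe u v

namespace Pool.Agent.Lib.MP_cc17a8_ag.Gen

theorem map_genericPoint_of_surjective {X Y : Scheme.{u}} [IsIntegral X] [IsIntegral Y] {φ : X ⟶ Y}
    (h : Function.Surjective φ) : φ (genericPoint X) = genericPoint Y := by
  have h1 := (genericPoint_spec X).image φ.continuous
  have h2 : closure (φ '' (Set.univ : Set X)) = Set.univ := by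
    rw [Set.image_univ, h.range_eq, closure_univ]
  rw [h2] at h1
  exact h1.eq (genericPoint_spec Y)

/-- A contraction of fibre type onto a projective variety. -/
structure FibreData {k : Type u} [Field k] {X : Scheme.{u}} [IsIntegral X] (f : X ⟶ Spec (.of k))
    (R : Set (N1 f → ℝ)) where
  Y : Scheme.{u}
  int : IsIntegral Y
  g : Y ⟶ Spec (.of k)
  prop : IsProper g
  φ : X ⟶ Y
  comp_eq : φ ≫ g = f
  map_genericPoint : φ (genericPoint X) = genericPoint Y
  isClosed_iff : ∀ C : Curve f, IsClosed {φ C.pt} ↔ curveClass f C ∈ R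
  H : CartierDivisor Y
  ample : H.IsAmple
  dim_lt : dimension g < dimension f

attribute [instance] FibreData.int FibreData.prop

section

variable {k : Type u} [Field k] [CharZero k] [IsAlgClosed k] {X : Scheme.{u}} [IsIntegral X]
  {f : X ⟶ Spec (.of k)} [IsProper f]

/-- The algebraic closure of the function field of the target. -/
noncomputable def FibreData.field {R : Set (N1 f → ℝ)} (c : FibreData f R) :
    @IntermediateField k X.functionField _ _ (ffAlg f) :=
  contrField f c.g c.φ c.map_genericPoint c.comp_eq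

/-- The pull-back of the ample divisor. -/
noncomputable def FibreData.pullH {R : Set (N1 f → ℝ)} (c : FibreData f R) : CartierDivisor X :=
  pull c.φ c.map_genericPoint c.H

/-- The degree of `E` is bounded by a multiple of the degree of the pull-back of an ample divisor,
for all finitely generated extensions of the ground field. -/
def FibreData.Bdd {R : Set (N1 f → ℝ)} (c : FibreData f R) (E : CartierDivisor X) : Prop :=
  ∃ m : ℕ, ∀ (W : Type u) [Field W] [Algebra k W], Algebra.EssFiniteType k W →
    IsBdd f c.φ c.map_genericPoint c.H W m E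

theorem FibreData.bdd_of_nef {R : Set (N1 f → ℝ)} (c : FibreData f R) {A : CartierDivisor X}
    (hA : A.IsAmple) {E : CartierDivisor X} {m : ℕ}
    (h1 : ∀ C : Curve f, 0 ≤ inter (m • c.pullH + E) C)
    (h2 : ∀ C : Curve f, 0 ≤ inter (m • c.pullH - E) C) : c.Bdd E := by
  refine ⟨m, fun W _ _ hess F _ _ y g _ hF hg => ?_⟩
  have hcz : CharZero W := charZero_of_injective_algebraMap (algebraMap k W).injective
  have hgp : GoodPoint f g W := ⟨hF, fun a => ⟨_, (hg a).symm⟩⟩
  obtain ⟨n, hn⟩ := Cardinal.lt_aleph0.mp (trdeg_lt_aleph0 k W)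
  have h3 := wdegree_nonneg_of_nef (f := f) hA h1 n W F hess hn hF y g hg
  have h4 := wdegree_nonneg_of_nef (f := f) hA h2 n W F hess hn hF y g hg
  rw [wdegree_add hgp, wdegree_nsmul hgp] at h3
  rw [wdegree_sub hgp, wdegree_nsmul hgp] at h4
  change 0 ≤ (m : ℤ) * wdegree W g (pull c.φ c.map_genericPoint c.H) + wdegree W g E at h3
  change 0 ≤ (m : ℤ) * wdegree W g (pull c.φ c.map_genericPoint c.H) - wdegree W g E at h4
  rw [abs_le]
  constructor <;> linarith

theorem claim1 {ι : Type v} (R : ι → Set (N1 f → ℝ)) (c : ∀ j, FibreData f (R j))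
    (hL : letI := ffAlg f; ⨅ j, (c j).field = ⊥) (E : CartierDivisor X)
    (hE : ∀ j, (c j).Bdd E)
    {Rp : Set (N1 f → ℝ)} (cp : FibreData f Rp) {A : CartierDivisor X} (hA : A.IsAmple)
    (a₁ a₂ : ℤ) (hprop : cp.Bdd (a₁ • E + (-a₂) • A)) : a₂ = 0 := by
  let _ := ffAlg f
  have hess : Algebra.EssFiniteType k X.functionField := essFiniteType_constants f (genericPoint X)
  obtain ⟨t, ht⟩ := exists_notMem_contrField f cp.g cp.φ cp.map_genericPoint
    cp.comp_eq cp.dim_lt
  have htr : Transcendental cp.field t := fun h => ht (contrField_isAlgebraic f cp.g cp.φ _ _ t h)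
  -- the family of subfields
  let ι' := Σ j : ι, {M : IntermediateField k X.functionField // (c j).field ≤ M ∧
    (∀ x, IsAlgebraic M x → x ∈ M) ∧ Algebra.trdeg M X.functionField = 1}
  let L' : ι' → IntermediateField k X.functionField := fun i => i.2.1
  have hL' : ⨅ i, L' i = ⊥ := by
    rw [eq_bot_iff, ← hL]
    intro h hh
    rw [← SetLike.mem_coe, IntermediateField.coe_iInf, Set.mem_iInter] at hh ⊢
    intro j
    refine mem_of_forall_large (c j).field
      (fun x hx => contrField_isAlgebraic f (c j).g (c j).φ _ _ x hx) fun M h1 h2 h3 => ?_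
    exact hh ⟨j, M, h1, h2, h3⟩
  obtain ⟨W, F, _, _, _, _, _, _, a, b, hessW, hl, hFF, ha, hb, hbt⟩ := chain_core2
    L' hL' (fun i x hx => i.2.2.2.1 x hx) cp.field t htr
  have hcz : CharZero W := charZero_of_injective_algebraMap (algebraMap k W).injective
  have hconst : ∀ (s : X.functionField →ₐ[k] F) (x : k),
      s.toRingHom (constants f (genericPoint X) x) = algebraMap W F (algebraMap k W x) := by
    intro s x
    rw [← IsScalarTower.algebraMap_apply]
    exact s.commutes x
  have hgood : ∀ s : X.functionField →ₐ[k] F, GoodPoint f (x := genericPoint X) s.toRingHom W :=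
    fun s => ⟨hFF, fun x => ⟨_, (hconst s x).symm⟩⟩
  have hstep : ∀ {s s' : X.functionField →ₐ[k] F}, Linked L' s s' →
      wdegree W (x := genericPoint X) s.toRingHom E =
      wdegree W (x := genericPoint X) s'.toRingHom E := by
    intro s s' h
    induction h with
    | refl s => rfl
    | step s s1 s' i h hl ih =>
      rw [← ih]
      obtain ⟨m, hm⟩ := hE i.1
      refine wdegree_eq_of_agree hA (c i.1).ample (hm W hessW) (c i.1).comp_eq hFF i.2.1
        i.2.2.2.1 i.2.2.2.2 (fun y => i.2.2.1 ?_) s s1 h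
      exact functionFieldMap_mem_contrField f (c i.1).g (c i.1).φ _ _ y
  have h0 : wdegree W (x := genericPoint X) a.toRingHom E = 0 := by
    apply wdegree_const (hgood a)
    intro y
    obtain ⟨w, hw⟩ := ha y
    have h1 : IsAlgebraic W (a y) := by rw [← hw]; exact isAlgebraic_algebraMap w
    exact h1
  have hbE : wdegree W (x := genericPoint X) b.toRingHom E = 0 := by
    rw [← hstep hl, h0]
  have hbA : 0 < wdegree W (x := genericPoint X) b.toRingHom A :=
    wdegree_ample_pos (hgood b) hA ⟨t, hbt⟩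
  have hcomb : wdegree W (x := genericPoint X) b.toRingHom (a₁ • E + (-a₂) • A) = 0 := by
    obtain ⟨m, hm⟩ := hprop
    refine (hm W hessW).eq_zero cp.comp_eq (y := genericPoint X) b.toRingHom hFF (hconst b) ?_
    intro s
    rw [stalkMap_generic cp.map_genericPoint]
    exact hb _ (functionFieldMap_mem_contrField f cp.g cp.φ _ _ _)
  rw [wdegree_add (hgood b), wdegree_zsmul (hgood b), wdegree_zsmul (hgood b), hbE, mul_zero,
    zero_add, mul_eq_zero] at hcomb
  have := hcomb.resolve_right hbA.ne'
  exact neg_eq_zero.mp this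

theorem claim2 (hX : ∀ x : X, UniqueFactorizationMonoid (X.presheaf.stalk x))
    (h : X.functionField) (hh : ∀ a, constants f (genericPoint X) a ≠ h) :
    ∃ D : CartierDivisor X, (∃ C : Curve f, inter D C ≠ 0) ∧
      (∀ (R : Set (N1 f → ℝ)) (_ : FibreData f R), ∃ C : Curve f, curveClass f C ∈ R ∧
        0 ≤ inter D C) ∧
      ∀ (R : Set (N1 f → ℝ)) (c : FibreData f R), h ∈ c.field → ∃ C : Curve f,
        curveClass f C ∈ R ∧ inter D C = 0 := by
  obtain ⟨D, hD, hDh⟩ := exists_poleDivisor f hX h
  have h0 : h ≠ 0 := fun h0 => hh 0 (by rw [map_zero, h0])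
  refine ⟨D, ?_, ?_, ?_⟩
  · obtain ⟨C, -, hC, htr⟩ := exists_curve_transcendental (f := f) h hh (W := ⊤)
      ⟨genericPoint X, trivial⟩
    exact ⟨C, (inter_pole_pos hD hDh C hC htr).ne'⟩
  · intro R c
    obtain ⟨W, hW, hreg⟩ := (isUnitAt_genericPoint h0).isRegularAt.exists_nhd
    obtain ⟨C, hC, -, hcl⟩ := exists_contracted_curve c.map_genericPoint c.comp_eq
      c.dim_lt (W := W) ⟨_, hW⟩ (V := ⊤) ⟨genericPoint c.Y, trivial⟩
    exact ⟨C, (c.isClosed_iff C).mp hcl, inter_pole_nonneg hD hDh C (hreg _ hC)⟩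
  · intro R c hc
    have hic : ∀ x : X, IsIntegrallyClosed (X.presheaf.stalk x) := by
      intro x
      have := hX x
      infer_instance
    obtain ⟨V, hV, hreg⟩ := exists_open_regular c.φ c.map_genericPoint hic h
      ((mem_contrField_iff f c.g c.φ _ c.comp_eq h).mp hc)
    obtain ⟨C, -, hCV, hcl⟩ := exists_contracted_curve c.map_genericPoint c.comp_eq
      c.dim_lt (W := ⊤) ⟨genericPoint X, trivial⟩ (V := V) hV
    refine ⟨C, (c.isClosed_iff C).mp hcl, inter_pole_eq_zero hDh C fun x hx => hreg x ?_⟩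
    have h1 : c.φ C.pt ⤳ c.φ x := hx.map c.φ.continuous
    have h2 : c.φ x ∈ closure {c.φ C.pt} := h1.mem_closure
    rw [hcl.closure_eq, Set.mem_singleton_iff] at h2
    rw [h2]
    exact hCV

/-- The intersection number with the pull-back of an ample divisor. -/
theorem inter_pullH_pos {R : Set (N1 f → ℝ)} (c : FibreData f R) (C : Curve f)
    (hC : curveClass f C ∉ R) : 0 < inter c.pullH C := by
  let _ := resAlg f C.pt
  have hloc : IsLocalHom (X.residue C.pt).hom :=
    inferInstanceAs (IsLocalHom (IsLocalRing.residue (X.presheaf.stalk C.pt)))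
  rw [inter_eq_wdegree]
  change 0 < wdegree k (X.residue C.pt).hom (pull c.φ c.map_genericPoint c.H)
  rw [wdegree_pull c.g c.map_genericPoint C.goodPoint]
  apply wdegree_ample_pos (goodPoint_pull c.comp_eq C.goodPoint) c.ample
  by_contra hcon
  push Not at hcon
  apply hC
  rw [← c.isClosed_iff]
  refine isClosed_of_isAlgebraic c.g
    (RingHom.comp (X.residue C.pt).hom (c.φ.stalkMap C.pt).hom) ?_ fun s => not_not.mp (hcon s)
  intro a
  change X.residue C.pt (c.φ.stalkMap C.pt (constants c.g (c.φ C.pt) a)) = _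
  rw [stalkMap_constants c.comp_eq]
  rfl

theorem inter_pullH_eq_zero {R : Set (N1 f → ℝ)} (c : FibreData f R) (C : Curve f)
    (hC : curveClass f C ∈ R) : inter c.pullH C = 0 := by
  let _ := resAlg f C.pt
  have hloc : IsLocalHom (X.residue C.pt).hom :=
    inferInstanceAs (IsLocalHom (IsLocalRing.residue (X.presheaf.stalk C.pt)))
  rw [inter_eq_wdegree]
  change wdegree k (X.residue C.pt).hom (pull c.φ c.map_genericPoint c.H) = 0
  rw [wdegree_pull c.g c.map_genericPoint C.goodPoint]
  apply wdegree_const (goodPoint_pull c.comp_eq C.goodPoint)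
  intro s
  rw [← c.isClosed_iff] at hC
  obtain ⟨a, ha⟩ := const_of_isClosed c.g hC
    (RingHom.comp (X.residue C.pt).hom (c.φ.stalkMap C.pt).hom) s
  rw [ha]
  change IsAlgebraic k (X.residue C.pt (c.φ.stalkMap C.pt (constants c.g (c.φ C.pt) a)))
  rw [stalkMap_constants c.comp_eq]
  exact isAlgebraic_algebraMap (A := X.residueField C.pt) a

end

end Pool.Agent.Lib.MP_cc17a8_ag.Gen
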