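import Mathlib
import Pool.Agent.Lib.MP_cc17a8_ag.Classes
import Pool.Agent.Lib.MP_cc17a8_ag.Gen.Claims
import Pool.Agent.Lib.MP_cc17a8_ag.Gen.Baire

open AlgebraicGeometry CategoryTheory Module

universe u v

namespace Pool.Agent.Lib.MP_cc17a8_ag.Gen

section

variable {k : Type u} [Field k] [CharZero k] [IsAlgClosed k] {X : Scheme.{u}} [IsIntegral X]
  (f : X ⟶ Spec (.of k)) [IsProper f]

theorem main_theorem (A : CartierDivisor X) (hA : A.IsAmple)
    (hX : ∀ x : X, UniqueFactorizationMonoid (X.presheaf.stalk x))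
    (hc : ∀ R, IsExtremalRay f R → Nonempty (FibreData f R)) :
    ∃ (n : ℕ) (b : Basis (Fin n) ℝ (N1 f)), Nef f = {δ | ∀ i, 0 ≤ b.repr δ i} := by
  let _ := ffAlg f
  have hess : Algebra.EssFiniteType k X.functionField := essFiniteType_constants f (genericPoint X)
  let a : N1 f := cls f A
  have hbound : ∀ δ : N1 f, ∃ M : ℝ, ∀ C, |cur f C δ| ≤ M * cur f C a := exists_bound_real hA
  have hpos : ∀ C, 0 < cur f C a := fun C => by
    rw [cur_cls]; exact_mod_cast inter_ample_pos hA C
  let T : Set (Dual ℝ (N1 f)) := {z | ⇑z ∈ (base (cur f) a).extremePoints ℝ}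
  -- the extremal ray of an extreme point
  let ray : (Dual ℝ (N1 f)) → Set (N1 f → ℝ) := fun z => {y | ∃ t : ℝ, 0 ≤ t ∧ y = t • ⇑z}
  have hray : ∀ z ∈ T, IsExtremalRay f (ray z) := by
    intro z hz
    have hza : z a = 1 := hz.1.2
    refine ⟨⟨⇑z, hz.1.1, ?_, rfl⟩, ?_⟩
    · intro h0
      have : (⇑z) a = (0 : N1 f → ℝ) a := congrFun h0 a
      rw [hza] at this
      exact one_ne_zero this
    · intro x hx y hy hxy
      refine ⟨extremal_of_extremePoint (cur f) a hbound hpos hz hx hy hxy, ?_⟩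
      rw [add_comm] at hxy
      exact extremal_of_extremePoint (cur f) a hbound hpos hz hy hx hxy
  let c : ∀ z : T, FibreData f (ray z.1) := fun z => Classical.choice (hc _ (hray z.1 z.2))
  let L : T → IntermediateField k X.functionField := fun z => (c z).field
  -- curves whose class lies in a ray
  have hclass : ∀ (z : T) (C : Curve f), curveClass f C ∈ ray z.1 → ∀ δ : N1 f,
      cur f C δ = (inter A C : ℝ) * z.1 δ := by
    rintro z C ⟨t, ht, hC⟩ δ
    have h1 : ∀ δ, cur f C δ = t * z.1 δ := fun δ => congrFun hC δ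
    have h2 : (inter A C : ℝ) = t := by
      have h3 := h1 a
      have h4 : z.1 a = 1 := z.2.1.2
      rw [h4, mul_one] at h3
      exact h3
    rw [h1, h2]
  have hexC : ∀ z : T, ∃ C : Curve f, curveClass f C ∈ ray z.1 := by
    intro z
    obtain ⟨C, -, -, hcl⟩ := exists_contracted_curve (c z).map_genericPoint
      (c z).comp_eq (c z).dim_lt (W := ⊤) ⟨genericPoint X, trivial⟩ (V := ⊤)
      ⟨genericPoint (c z).Y, trivial⟩
    exact ⟨C, ((c z).isClosed_iff C).mp hcl⟩
  choose Cz hCz using hexC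
  have hAC : ∀ C : Curve f, (0 : ℝ) < inter A C := fun C => by exact_mod_cast inter_ample_pos hA C
  -- separation by the extreme points
  have hsep : ∀ δ : N1 f, (∀ z : T, z.1 δ = 0) → δ = 0 := by
    intro δ hδ
    apply eq_zero_of_cur f
    intro C
    apply le_antisymm
    · have h1 := nonneg_of_extremePoints (cur f) a hbound hpos (δ := -δ) (by
        intro z hz
        obtain ⟨z', rfl⟩ := absCone_linear (cur f) hz.1.1
        rw [map_neg, hδ ⟨z', hz⟩, neg_zero]) C
      rw [map_neg] at h1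
      linarith
    · exact nonneg_of_extremePoints (cur f) a hbound hpos (δ := δ) (by
        intro z hz
        obtain ⟨z', rfl⟩ := absCone_linear (cur f) hz.1.1
        rw [hδ ⟨z', hz⟩]) C
  let B : Set (N1 f → ℝ) := base (cur f) a
  have hBc : IsCompact B := isCompact_base (cur f) a hbound
  have hBv : Convex ℝ B := convex_base (cur f) a
  have hnn : ∀ δ : N1 f, (∀ w : T, 0 ≤ w.1 δ) → ∀ y ∈ B, 0 ≤ y δ := by
    intro δ hδ
    have h1 : B ⊆ {z | 0 ≤ z δ} := by
      rw [← closure_convexHull_extremePoints hBc hBv]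
      apply closure_minimal
      · apply convexHull_min
        · intro z hz
          obtain ⟨z', rfl⟩ := absCone_linear (cur f) hz.1.1
          exact hδ ⟨z', hz⟩
        · intro z hz w hw s t hs ht _
          change 0 ≤ s * z δ + t * w δ
          exact add_nonneg (mul_nonneg hs hz) (mul_nonneg ht hw)
      · exact isClosed_le (by fun_prop) (by fun_prop)
    exact fun y hy => h1 hy
  -- the pull-back of the ample divisor exposes the ray
  have hH0 : ∀ z : T, z.1 (cls f (c z).pullH) = 0 := by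
    intro z
    have h1 := hclass z (Cz z) (hCz z) (cls f (c z).pullH)
    rw [cur_cls, inter_pullH_eq_zero (c z) (Cz z) (hCz z), Int.cast_zero] at h1
    exact (mul_eq_zero.mp h1.symm).resolve_left (hAC _).ne'
  have hHpos : ∀ z w : T, w ≠ z → 0 < w.1 (cls f (c z).pullH) := by
    intro z w hwz
    have h1 : curveClass f (Cz w) ∉ ray z.1 := by
      intro h1
      apply hwz
      apply Subtype.ext
      ext δ
      have h2 := hclass z (Cz w) h1 δ
      rw [hclass w (Cz w) (hCz w) δ] at h2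
      exact mul_left_cancel₀ (hAC _).ne' h2
    have h2 : (0 : ℝ) < inter (c z).pullH (Cz w) := by
      exact_mod_cast inter_pullH_pos (c z) (Cz w) h1
    have h3 := hclass w (Cz w) (hCz w) (cls f (c z).pullH)
    rw [cur_cls] at h3
    rw [h3] at h2
    exact (pos_iff_pos_of_mul_pos h2).mp (hAC _)
  have hHnn : ∀ z w : T, 0 ≤ w.1 (cls f (c z).pullH) := by
    intro z w
    by_cases hwz : w = z
    · rw [hwz, hH0]
    · exact (hHpos z w hwz).le
  have hexp : ∀ (z : T), ∀ y ∈ B, y ≠ ⇑z.1 → 0 < y (cls f (c z).pullH) := by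
    intro z y hy hyz
    have h1 := hnn _ (hHnn z) y hy
    refine lt_of_le_of_ne h1 fun h0 => hyz ?_
    let Fz : Set (N1 f → ℝ) := {y | y ∈ B ∧ y (cls f (c z).pullH) = 0}
    have hFcl : IsClosed {y : N1 f → ℝ | y (cls f (c z).pullH) = 0} :=
      isClosed_eq (by fun_prop) (by fun_prop)
    have hFc : IsCompact Fz := hBc.inter_right hFcl
    have hFv : Convex ℝ Fz := by
      rintro u ⟨hu, hu0⟩ w ⟨hw, hw0⟩ s t hs ht hst
      refine ⟨hBv hu hw hs ht hst, ?_⟩
      change s * u _ + t * w _ = 0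
      rw [hu0, hw0, mul_zero, mul_zero, add_zero]
    have hFe : IsExtreme ℝ B Fz := by
      refine ⟨fun u hu => hu.1, ?_⟩
      rintro u hu w hw v ⟨hv, hv0⟩ ⟨s, t, hs, ht, hst, rfl⟩
      refine ⟨hu, ?_⟩
      have h2 := hnn _ (hHnn z) u hu
      have h3 := hnn _ (hHnn z) w hw
      have h4 : s * u (cls f (c z).pullH) + t * w (cls f (c z).pullH) = 0 := hv0
      have h5 : 0 ≤ s * u (cls f (c z).pullH) := mul_nonneg hs.le h2
      have h6 : 0 ≤ t * w (cls f (c z).pullH) := mul_nonneg ht.le h3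
      have h7 : s * u (cls f (c z).pullH) = 0 := by linarith
      exact (mul_eq_zero.mp h7).resolve_left hs.ne'
    have hsub : Fz.extremePoints ℝ ⊆ {⇑z.1} := by
      intro w hw
      have hwB := hFe.extremePoints_subset_extremePoints hw
      have hw0 : w (cls f (c z).pullH) = 0 := hw.1.2
      obtain ⟨w', rfl⟩ := absCone_linear (cur f) hwB.1.1
      by_contra hne
      have h2 := hHpos z ⟨w', hwB⟩ (fun h => hne (by rw [← h]; rfl))
      exact h2.ne' hw0
    have h2 : y ∈ closure (convexHull ℝ (Fz.extremePoints ℝ)) := by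
      rw [closure_convexHull_extremePoints hFc hFv]
      exact ⟨hy, h0.symm⟩
    have h3 := closure_mono (convexHull_mono hsub) h2
    rw [convexHull_singleton, closure_singleton] at h3
    exact h3
  -- isolated extreme points
  let T0 : Set T := {z | ⇑z.1 ∉ closure (B.extremePoints ℝ \ {⇑z.1})}
  have hiso : ∀ δ : N1 f, (∃ w : T, 0 < w.1 δ) → ∃ z ∈ T0, 0 < z.1 δ := by
    rintro δ ⟨w, hw⟩
    obtain ⟨z, hz, hzδ, hzi⟩ := exists_isolated hBc hBv
      (fun D : CartierDivisor X => ContinuousLinearMap.proj (R := ℝ) (φ := fun _ : N1 f => ℝ)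
        (cls f D)) (by
        intro z hz
        obtain ⟨z', rfl⟩ := absCone_linear (cur f) hz.1.1
        let zT : T := ⟨z', hz⟩
        have h1 : (0 : ℤ) < inter A (Cz zT) := inter_ample_pos hA _
        refine ⟨(inter A (Cz zT)).toNat, by omega, fun D => ⟨inter D (Cz zT), ?_⟩⟩
        have h2 := hclass zT (Cz zT) (hCz zT) (cls f D)
        rw [cur_cls] at h2
        rw [h2]
        have h3 : (((inter A (Cz zT)).toNat : ℕ) : ℝ) = (inter A (Cz zT) : ℝ) := by
          have h4 : (((inter A (Cz zT)).toNat : ℕ) : ℤ) = inter A (Cz zT) :=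
            Int.toNat_of_nonneg h1.le
          exact_mod_cast h4
        rw [h3]
        rfl) (by
        intro z hz
        obtain ⟨z', rfl⟩ := absCone_linear (cur f) hz.1.1
        exact ⟨(c ⟨z', hz⟩).pullH, hH0 ⟨z', hz⟩, hexp ⟨z', hz⟩⟩)
      (ContinuousLinearMap.proj (R := ℝ) (φ := fun _ : N1 f => ℝ) δ) ⟨⇑w.1, w.2, hw⟩
    obtain ⟨z', rfl⟩ := absCone_linear (cur f) hz.1.1
    exact ⟨⟨z', hz⟩, hzi, hzδ⟩
  have hsep0 : ∀ δ : N1 f, (∀ z ∈ T0, z.1 δ = 0) → δ = 0 := by
    intro δ hδ
    apply hsep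
    intro w
    rcases lt_trichotomy (w.1 δ) 0 with h | h | h
    · obtain ⟨z, hz, hzδ⟩ := hiso (-δ) ⟨w, by rw [map_neg]; linarith⟩
      rw [map_neg, hδ z hz] at hzδ
      exact absurd hzδ (by simp)
    · exact h
    · obtain ⟨z, hz, hzδ⟩ := hiso δ ⟨w, h⟩
      rw [hδ z hz] at hzδ
      exact absurd hzδ (lt_irrefl _)
  -- divisors of degree zero on an isolated ray
  have hbdd : ∀ z ∈ T0, ∀ (E : CartierDivisor X), z.1 (cls f E) = 0 → (c z).Bdd E := by
    intro z hz0 E hzE
    obtain ⟨κ, hκ, hκw⟩ : ∃ κ : ℝ, 0 < κ ∧ ∀ w : T, w ≠ z → κ ≤ w.1 (cls f (c z).pullH) := by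
      have hKc : IsCompact (closure (B.extremePoints ℝ \ {⇑z.1})) :=
        hBc.of_isClosed_subset isClosed_closure
          (closure_minimal (fun w hw => hw.1.1) hBc.isClosed)
      by_cases hne : (closure (B.extremePoints ℝ \ {⇑z.1})).Nonempty
      · obtain ⟨y, hy, hmin⟩ := hKc.exists_isMinOn hne
          (f := fun y : N1 f → ℝ => y (cls f (c z).pullH)) (by fun_prop)
        have hyB : y ∈ B := closure_minimal (fun w hw => hw.1.1) hBc.isClosed hy
        refine ⟨y (cls f (c z).pullH), hexp z y hyB (fun h => hz0 (h ▸ hy)), fun w hwz => ?_⟩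
        exact hmin (subset_closure ⟨w.2, fun h => hwz (Subtype.ext (DFunLike.coe_injective h))⟩)
      · refine ⟨1, one_pos, fun w hwz => ?_⟩
        exact absurd ⟨_, subset_closure
          ⟨w.2, fun h => hwz (Subtype.ext (DFunLike.coe_injective h))⟩⟩ hne
    obtain ⟨M, hM⟩ := absCone_bound (cur f) a hbound (cls f E)
    have hM' : ∀ w : T, |w.1 (cls f E)| ≤ M := by
      intro w
      have h1 := hM _ w.2.1.1
      have h2 : w.1 a = 1 := w.2.1.2
      rwa [h2, mul_one] at h1
    obtain ⟨m, hm⟩ := exists_nat_ge (M / κ)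
    have hbd : ∀ w : T, |w.1 (cls f E)| ≤ m * w.1 (cls f (c z).pullH) := by
      intro w
      by_cases hwz : w = z
      · rw [hwz, hzE, abs_zero, hH0, mul_zero]
      · have h1 : M ≤ m * κ := (div_le_iff₀ hκ).mp hm
        refine (hM' w).trans (h1.trans ?_)
        exact mul_le_mul_of_nonneg_left (hκw w hwz) (Nat.cast_nonneg _)
    have hnef : ∀ (D : CartierDivisor X), (∀ w : T, 0 ≤ w.1 (cls f D)) →
        ∀ C : Curve f, 0 ≤ inter D C := by
      intro D hD C
      have h2 := nonneg_of_extremePoints (cur f) a hbound hpos (δ := cls f D) (by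
        intro w hw
        obtain ⟨w', rfl⟩ := absCone_linear (cur f) hw.1.1
        exact hD ⟨w', hw⟩) C
      rw [cur_cls] at h2
      exact_mod_cast h2
    refine (c z).bdd_of_nef hA (m := m) (hnef _ fun w => ?_) (hnef _ fun w => ?_)
    · rw [map_add, map_nsmul, map_add, map_nsmul, nsmul_eq_mul]
      have h2 := (abs_le.mp (hbd w)).1
      linarith
    · rw [map_sub, map_nsmul, map_sub, map_nsmul, nsmul_eq_mul]
      have h2 := (abs_le.mp (hbd w)).2
      linarith
  -- Claim 1
  have hC1 : ∀ S : Set T, S ⊆ T0 →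
      (∀ h, (∀ z ∈ S, h ∈ L z) → h ∈ (⊥ : IntermediateField k X.functionField)) →
      ∀ D, (∀ z ∈ S, z.1 (cls f D) = 0) → cls f D = 0 := by
    intro S hST0 hS D hD
    apply hsep0
    intro p hp
    have hL : ⨅ j : S, (c j.1).field = ⊥ := by
      rw [eq_bot_iff]
      intro h hh
      apply hS
      intro z hz
      have : ⨅ j : S, (c j.1).field ≤ (c z).field := iInf_le (fun j : S => (c j.1).field) ⟨z, hz⟩
      exact this hh
    have key := claim1 (fun j : S => ray j.1.1) (fun j => c j.1) hL D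
      (fun j => hbdd j.1 (hST0 j.2) D (hD j.1 j.2)) (c p) hA (inter A (Cz p)) (inter D (Cz p)) (by
      apply hbdd p hp
      have h1 := hclass p (Cz p) (hCz p) (cls f D)
      rw [cur_cls] at h1
      have h2 : p.1 (cls f A) = 1 := p.2.1.2
      rw [map_add, map_zsmul, map_zsmul, map_add, map_zsmul, map_zsmul, h2, zsmul_eq_mul,
        zsmul_eq_mul]
      push_cast
      rw [h1]
      ring)
    have h2 := hclass p (Cz p) (hCz p) (cls f D)
    rw [cur_cls, key, Int.cast_zero] at h2
    exact (mul_eq_zero.mp h2.symm).resolve_left (hAC _).ne'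
  -- Claim 2
  have hC2 : ∀ h : X.functionField, h ∉ (⊥ : IntermediateField k X.functionField) →
      ∃ D, cls f D ≠ 0 ∧ (∀ z : T, 0 ≤ z.1 (cls f D)) ∧ ∀ z : T, h ∈ L z → z.1 (cls f D) = 0 := by
    intro h hh
    obtain ⟨D, ⟨C0, hC0⟩, hD1, hD2⟩ := claim2 (f := f) hX h (by
      rintro x rfl
      exact hh ((⊥ : IntermediateField k X.functionField).algebraMap_mem x))
    refine ⟨D, ?_, ?_, ?_⟩
    · intro h0
      apply hC0
      have h1 := cur_cls f C0 D
      rw [h0, map_zero] at h1
      exact_mod_cast h1.symm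
    · intro z
      obtain ⟨C, hC, hCD⟩ := hD1 _ (c z)
      have h1 := hclass z C hC (cls f D)
      rw [cur_cls] at h1
      have h2 : (0 : ℝ) ≤ inter D C := by exact_mod_cast hCD
      rw [h1] at h2
      exact (mul_nonneg_iff_of_pos_left (hAC C)).mp h2
    · intro z hz
      obtain ⟨C, hC, hCD⟩ := hD2 _ (c z) hz
      have h1 := hclass z C hC (cls f D)
      rw [cur_cls, hCD, Int.cast_zero] at h1
      exact (mul_eq_zero.mp h1.symm).resolve_left (hAC C).ne'
  -- rationality
  have hrat : ∀ S : Set T, S ⊆ T0 →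
      (∀ h, (∀ z ∈ S, h ∈ L z) → h ∈ (⊥ : IntermediateField k X.functionField)) →
      ∀ δ, (∀ z ∈ S, z.1 δ = 0) → δ = 0 := by
    intro S hST0 hS δ hδ
    refine separates_of_lattice (cls f) (cur f) (span_cls f) (eq_zero_of_cur f)
      (fun C D => ⟨inter D C, cur_cls f C D⟩) (Cz '' S) ?_ δ ?_
    · intro D hD
      apply hC1 S hST0 hS
      intro z hz
      have h1 := hD _ ⟨z, hz, rfl⟩
      rw [hclass z _ (hCz z)] at h1
      exact (mul_eq_zero.mp h1).resolve_left (hAC _).ne'
    · rintro _ ⟨z, hz, rfl⟩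
      rw [hclass z _ (hCz z), hδ z hz, mul_zero]
  -- a finite separating set
  obtain ⟨S, hST0, hS⟩ := exists_finite_inf (trdeg_lt_aleph0_of_essFiniteType k X.functionField)
    T0 L (fun z _ x hx => contrField_isAlgebraic f (c z).g (c z).φ _ _ x hx) (by
      intro h hh
      by_contra hcon
      obtain ⟨D, hD0, -, hD⟩ := hC2 h hcon
      exact hD0 (hsep0 _ fun z hz => hD z (hh z hz)))
  classical
  have hST : ((S.image Subtype.val : Finset (Dual ℝ (N1 f))) : Set (Dual ℝ (N1 f))) ⊆ T := by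
    intro z hz
    rw [Finset.coe_image] at hz
    obtain ⟨w, -, rfl⟩ := hz
    exact w.2
  obtain ⟨n, b, hb⟩ := exists_simplicial_basis T (S.image Subtype.val) hST (by
      intro δ hδ
      exact hrat S hST0 hS δ fun z hz => hδ z.1 (Finset.mem_image_of_mem _ hz)) (by
      intro w hw n v d hv hd hwv
      obtain ⟨i, hi⟩ := eq_of_nonneg_combination (cur f) a hpos hw n (fun i => ⇑(v i)) d
        (fun i => (hv i).1) hd (by rw [hwv]; ext δ; simp)
      exact ⟨i, DFunLike.coe_injective hi⟩) (by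
      rintro U hU - ⟨δ, hδ0, hδ⟩
      have hU0 : {z : T | z.1 ∈ U} ⊆ T0 := by
        intro z hz
        have h1 := hU hz
        rw [Finset.coe_image] at h1
        obtain ⟨w, hw, hwz⟩ := h1
        have h2 : w = z := Subtype.ext hwz
        rw [← h2]
        exact hST0 hw
      by_cases hcase : ∀ h, (∀ z : T, z.1 ∈ U → h ∈ L z) → h ∈ (⊥ : IntermediateField k X.functionField)
      · exact absurd (hrat {z | z.1 ∈ U} hU0 hcase δ fun z hz => hδ _ hz) hδ0
      · push Not at hcase
        obtain ⟨h, hh, hhb⟩ := hcase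
        obtain ⟨D, hD0, hD1, hD2⟩ := hC2 h hhb
        exact ⟨cls f D, hD0, fun z hz => hD1 ⟨z, hz⟩,
          fun z hz => hD2 ⟨z, hST (hU hz)⟩ (hh ⟨z, hST (hU hz)⟩ hz)⟩)
  refine ⟨n, b, ?_⟩
  ext δ
  rw [Set.mem_ofPred_eq, ← hb]
  constructor
  · intro hδ z hz
    have h1 : absCone (fun C => ⇑(cur f C)) ⊆ {z | 0 ≤ z δ} := by
      apply absCone_subset
      · exact isClosed_le (by fun_prop) (by fun_prop)
      · simp
      · intro z hz w hw
        exact add_nonneg (α := ℝ) hz hw
      · intro r hr z hz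
        exact mul_nonneg (α := ℝ) hr hz
      · intro C
        exact hδ C
    exact h1 hz.1.1
  · intro hδ C
    refine nonneg_of_extremePoints (cur f) a hbound hpos (δ := δ) ?_ C
    intro z hz
    obtain ⟨z', rfl⟩ := absCone_linear (cur f) hz.1.1
    exact hδ z' hz

end

end Pool.Agent.Lib.MP_cc17a8_ag.Gen
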